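import Pool.Agent.V8H82.MZ.Mono

/-!
# If the dimensions of the spaces of multiple Clausen values are bounded
-/

set_option autoImplicit false

namespace Pool.Agent.V8H82.MZ

open Filter Topology Module
open scoped Pointwise

/-- `π i` -/
noncomputable def qq : ℂ := Real.pi * Complex.I

theorem qq_ne : qq ≠ 0 := by
  have h1 : (Real.pi : ℂ) ≠ 0 := by exact_mod_cast Real.pi_ne_zero
  exact mul_ne_zero h1 Complex.I_ne_zero

/-- the quotients of the elements of `C_w` by `(π i) ^ w` -/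
noncomputable def BB (w : ℕ) : Submodule ℚ ℂ := (CC w).comap (LinearMap.mulRight ℚ (qq ^ w))

theorem mem_BB {w : ℕ} {a : ℂ} : a ∈ BB w ↔ a * qq ^ w ∈ CC w := by
  simp [BB]

theorem BB_finite (w : ℕ) : FiniteDimensional ℚ (BB w) ∧ finrank ℚ (BB w) ≤ finrank ℚ (CC w) := by
  have i1 := CC_finite w
  let f : BB w →ₗ[ℚ] CC w := ((LinearMap.mulRight ℚ (qq ^ w)).domRestrict (BB w)).codRestrict (CC w)
    fun a => mem_BB.1 a.2
  have hf : Function.Injective f := by
    intro a b hab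
    have h1 : (a : ℂ) * qq ^ w = (b : ℂ) * qq ^ w := congrArg Subtype.val hab
    exact Subtype.ext (mul_right_cancel₀ (pow_ne_zero w qq_ne) h1)
  exact ⟨FiniteDimensional.of_injective f hf, LinearMap.finrank_le_finrank_of_injective hf⟩

theorem qq_mem : qq ∈ CC 1 := by
  have h1 := (CC 1).smul_mem (3 : ℚ) mem_CC_one
  have h2 : (3 : ℚ) • (Real.pi * Complex.I / 3 : ℂ) = qq := by
    rw [Algebra.smul_def]
    have : algebraMap ℚ ℂ 3 = 3 := by simp
    rw [this]
    unfold qq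
    ring
  rw [h2] at h1
  exact h1

theorem BB_mul {v w : ℕ} (hv : 1 ≤ v) {a b : ℂ} (ha : a ∈ BB v) (hb : b ∈ BB w) :
    a * b ∈ BB (v + w) := by
  rw [mem_BB] at ha hb ⊢
  have h1 := CC_mul hv (Submodule.mul_mem_mul ha hb)
  have h2 : a * b * qq ^ (v + w) = a * qq ^ v * (b * qq ^ w) := by
    rw [pow_add]
    ring
  rw [h2]
  exact h1

theorem one_mem_BB {w : ℕ} (hw : 1 ≤ w) : (1 : ℂ) ∈ BB w := by
  rw [mem_BB, one_mul]
  exact pow_mem_CC qq_mem w hw

theorem BB_mono {v w : ℕ} (hv : 1 ≤ v) (h : v ≤ w) : BB v ≤ BB w := by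
  rcases Nat.eq_or_lt_of_le h with rfl | h
  · exact le_rfl
  · intro a ha
    have h1 := BB_mul hv ha (one_mem_BB (w := w - v) (by omega))
    rwa [mul_one, Nat.add_sub_cancel' h.le] at h1

theorem bounded {M : ℕ} (h : ∀ w, 1 ≤ w → finrank ℚ (CC w) ≤ M) :
    ∃ K : IntermediateField ℚ ℂ, FiniteDimensional ℚ K ∧ finrank ℚ K ≤ M ∧
      ∀ w, 1 ≤ w → ∀ x ∈ CC w, ∃ a ∈ K, x = a * (Real.pi * Complex.I) ^ w := by
  let T : Set ℕ := {d | ∃ w, 1 ≤ w ∧ finrank ℚ (BB w) = d}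
  have hT : T.Nonempty := ⟨_, 1, le_rfl, rfl⟩
  have hTb : BddAbove T := ⟨M, by
    rintro d ⟨w, hw, rfl⟩
    exact (BB_finite w).2.trans (h w hw)⟩
  obtain ⟨u, hu, hu2⟩ := Nat.sSup_mem hT hTb
  have hmax : ∀ w, 1 ≤ w → finrank ℚ (BB w) ≤ finrank ℚ (BB u) := by
    intro w hw
    rw [hu2]
    exact le_csSup hTb ⟨w, hw, rfl⟩
  have hall : ∀ w, 1 ≤ w → BB w ≤ BB u := by
    intro w hw
    have i1 := (BB_finite (max u w)).1
    have h1 : BB u = BB (max u w) := Submodule.eq_of_le_of_finrank_le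
      (BB_mono hu (le_max_left _ _)) (hmax _ (by omega))
    rw [h1]
    exact BB_mono hw (le_max_right _ _)
  let A : Subalgebra ℚ ℂ := (BB u).toSubalgebra (one_mem_BB hu) fun x y hx hy =>
    hall (u + u) (by omega) (BB_mul hu hx hy)
  have i2 : FiniteDimensional ℚ A := (BB_finite u).1
  have i3 : Algebra.IsIntegral ℚ A := inferInstance
  have hF : IsField A := isField_of_isIntegral_of_isField' (Field.toIsField ℚ)
  refine ⟨A.toIntermediateField' hF, i2, ?_, fun w hw x hx => ⟨x / qq ^ w, ?_, ?_⟩⟩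
  · exact (BB_finite u).2.trans (h u hu)
  · have h1 : x / qq ^ w ∈ BB w := by
      rw [mem_BB, div_mul_cancel₀ _ (pow_ne_zero w qq_ne)]
      exact hx
    exact hall w hw h1
  · show x = x / qq ^ w * qq ^ w
    rw [div_mul_cancel₀ _ (pow_ne_zero w qq_ne)]

end Pool.Agent.V8H82.MZ
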