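import Pool.Agent.V8H82.MZ.Shuffle

/-!
# Products of multiple Clausen values
-/

set_option autoImplicit false

namespace Pool.Agent.V8H82.MZ

open Filter Topology Module PowerSeries
open scoped Pointwise

theorem coeff_J_false (f : PowerSeries ℂ) (n : ℕ) :
    PowerSeries.coeff n (J false f) = PowerSeries.coeff n f / (n : ℂ) := by
  rw [coeff_J]
  simp [frm]

theorem coeff_J_true (f : PowerSeries ℂ) (n : ℕ) :
    PowerSeries.coeff (n + 1) (J true f) =
      (∑ j ∈ Finset.range (n + 1), PowerSeries.coeff j f) / ((n + 1 : ℕ) : ℂ) := by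
  rw [coeff_J, PowerSeries.coeff_mul, Finset.Nat.sum_antidiagonal_succ]
  congr 1
  have h1 : PowerSeries.coeff 0 (frm true) = 0 := by simp [frm]
  have h2 : ∀ n, PowerSeries.coeff (n + 1) (frm true) = 1 := fun n => by simp [frm]
  rw [h1, zero_mul, zero_add]
  simp only [h2, one_mul]
  rw [Finset.Nat.sum_antidiagonal_eq_sum_range_succ (fun _ j => PowerSeries.coeff j f) n]
  exact Finset.sum_range_reflect (fun j => PowerSeries.coeff j f) (n + 1)

/-- the word of a tuple -/
def word : List ℕ → List Bool
  | [] => []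
  | k :: t => List.replicate (k - 1) false ++ (true :: word t)

theorem coeff_rep (u : List Bool) (n : ℕ) : ∀ m : ℕ,
    PowerSeries.coeff n (P (List.replicate m false ++ u)) = PowerSeries.coeff n (P u) / (n : ℂ) ^ m
  | 0 => by simp
  | m + 1 => by
    rw [List.replicate_succ, List.cons_append]
    show PowerSeries.coeff n (J false (P (List.replicate m false ++ u))) = _
    rw [coeff_J_false, coeff_rep u n m, pow_succ, div_div]

theorem coeff_word_cons (k : ℕ) (hk : 1 ≤ k) (t : List ℕ) (n : ℕ) :
    PowerSeries.coeff (n + 1) (P (word (k :: t))) =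
      (∑ j ∈ Finset.range (n + 1), PowerSeries.coeff j (P (word t))) / ((n + 1 : ℕ) : ℂ) ^ k := by
  show PowerSeries.coeff (n + 1) (P (List.replicate (k - 1) false ++ (true :: word t))) = _
  rw [coeff_rep]
  show PowerSeries.coeff (n + 1) (J true (P (word t))) / _ = _
  rw [coeff_J_true, div_div, ← pow_succ', Nat.sub_add_cancel hk]

theorem sum_coeff_word : ∀ (t : List ℕ), (∀ k ∈ t, 1 ≤ k) → ∀ m,
    ∑ j ∈ Finset.range (m + 1), PowerSeries.coeff j (P (word t)) =
      trunc (t.map fun b => (b, (1 : ℂ))) m
  | [], _, m => by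
    rw [Finset.sum_range_succ']
    simp [word, P, trunc, PowerSeries.coeff_one]
  | k :: t, h, m => by
    have hk := h k List.mem_cons_self
    have ih := sum_coeff_word t fun b hb => h b (List.mem_cons_of_mem _ hb)
    rw [Finset.sum_range_succ', P_zero (by simp [word]), add_zero]
    simp only [List.map_cons, trunc]
    refine Finset.sum_congr rfl fun j _ => ?_
    rw [coeff_word_cons k hk t j, ih j, one_pow]
    ring

theorem partial_word (k : ℕ) (t : List ℕ) (h : ∀ b ∈ k :: t, 1 ≤ b) (m : ℕ) :
    ∑ j ∈ Finset.range (m + 1), PowerSeries.coeff j (P (word (k :: t))) *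
      Complex.exp (Real.pi * Complex.I / 3) ^ j = trunc (clausen (k :: t)) m := by
  rw [Finset.sum_range_succ', P_zero (by simp [word]), zero_mul, add_zero]
  simp only [clausen, trunc]
  refine Finset.sum_congr rfl fun j _ => ?_
  rw [coeff_word_cons k (h k List.mem_cons_self) t j,
    sum_coeff_word t (fun b hb => h b (List.mem_cons_of_mem _ hb)) j]
  ring

theorem good_word : ∀ t : List ℕ, Good (word t)
  | [] => trivial
  | k :: t => by
    have h1 : Good (true :: word t) := ⟨Or.inl rfl, good_word t⟩
    show Good (List.replicate (k - 1) false ++ (true :: word t))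
    induction k - 1 with
    | zero => simpa using h1
    | succ n ih =>
      rw [List.replicate_succ, List.cons_append]
      exact ⟨Or.inr (by simp), ih⟩

theorem length_word : ∀ t : List ℕ, (∀ k ∈ t, 1 ≤ k) → (word t).length = t.sum
  | [], _ => rfl
  | k :: t, h => by
    have h1 := length_word t fun b hb => h b (List.mem_cons_of_mem _ hb)
    have h2 := h k List.mem_cons_self
    simp only [word, List.length_append, List.length_replicate, List.length_cons, List.sum_cons, h1]
    omega

theorem word_surj : ∀ u : List Bool, Good u →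
    ∃ t : List ℕ, (∀ k ∈ t, 1 ≤ k) ∧ word t = u
  | [], _ => ⟨[], by simp, rfl⟩
  | b :: u, h => by
    obtain ⟨t, ht, rfl⟩ := word_surj u h.2
    cases b
    · have h1 : word t ≠ [] := by
        rcases h.1 with h1 | h1
        · exact absurd h1 (by simp)
        · exact h1
      match t with
      | [] => exact absurd rfl h1
      | k :: t =>
        have hk := ht k List.mem_cons_self
        refine ⟨(k + 1) :: t, fun b hb => ?_, ?_⟩
        · rcases List.mem_cons.1 hb with rfl | hb
          · omega
          · exact ht b (List.mem_cons_of_mem _ hb)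
        · show List.replicate (k + 1 - 1) false ++ (true :: word t) =
            false :: (List.replicate (k - 1) false ++ (true :: word t))
          rw [← List.cons_append, ← List.replicate_succ]
          congr 2
          omega
    · refine ⟨1 :: t, fun b hb => ?_, rfl⟩
      rcases List.mem_cons.1 hb with rfl | hb
      · exact le_rfl
      · exact ht b hb

/-- the coefficients are bounded by one -/
theorem coeff_le : ∀ (u : List Bool) (n : ℕ), ‖PowerSeries.coeff n (P u)‖ ≤ 1
  | [], n => by
    simp only [P, PowerSeries.coeff_one]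
    split_ifs <;> simp
  | b :: u, 0 => by
    rw [P_zero (by simp)]
    simp
  | false :: u, n + 1 => by
    show ‖PowerSeries.coeff (n + 1) (J false (P u))‖ ≤ 1
    rw [coeff_J_false, norm_div, Complex.norm_natCast]
    have h1 := coeff_le u (n + 1)
    refine (div_le_one (by positivity)).2 (h1.trans ?_)
    push_cast
    have : (0 : ℝ) ≤ n := Nat.cast_nonneg n
    linarith
  | true :: u, n + 1 => by
    show ‖PowerSeries.coeff (n + 1) (J true (P u))‖ ≤ 1
    rw [coeff_J_true, norm_div, Complex.norm_natCast]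
    refine (div_le_one (by positivity)).2 ?_
    refine (norm_sum_le _ _).trans ?_
    refine (Finset.sum_le_sum fun j _ => coeff_le u j).trans ?_
    simp

theorem summ {u : List Bool} {z : ℂ} (hz : ‖z‖ < 1) :
    Summable fun n => ‖PowerSeries.coeff n (P u) * z ^ n‖ := by
  refine Summable.of_nonneg_of_le (fun n => norm_nonneg _) (fun n => ?_)
    (summable_geometric_of_lt_one (norm_nonneg z) hz)
  rw [norm_mul, norm_pow]
  calc ‖PowerSeries.coeff n (P u)‖ * ‖z‖ ^ n ≤ 1 * ‖z‖ ^ n := by
        gcongr
        exact coeff_le u n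
    _ = ‖z‖ ^ n := one_mul _

/-- the value of the series of a word -/
noncomputable def F (u : List Bool) (z : ℂ) : ℂ := ∑' n, PowerSeries.coeff n (P u) * z ^ n

theorem sum_F {z : ℂ} (hz : ‖z‖ < 1) : ∀ L : List (List Bool),
    HasSum (fun n => PowerSeries.coeff n ((L.map P).sum) * z ^ n) ((L.map fun u => F u z).sum)
  | [] => by simp
  | u :: L => by
    have h1 : HasSum (fun n => PowerSeries.coeff n (P u) * z ^ n) (F u z) :=
      (summ hz).of_norm.hasSum
    have h2 := h1.add (sum_F hz L)
    simp only [List.map_cons, List.sum_cons]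
    refine h2.congr_fun fun n => ?_
    rw [map_add, add_mul]

theorem F_mul {z : ℂ} (hz : ‖z‖ < 1) {u v : List Bool} {L : List (List Bool)}
    (h : P u * P v = (L.map P).sum) : F u z * F v z = (L.map fun u => F u z).sum := by
  unfold F
  rw [tsum_mul_tsum_eq_tsum_sum_antidiagonal_of_summable_norm (summ hz) (summ hz)]
  have h1 := (sum_F hz L).tsum_eq
  unfold F at h1
  rw [← h1, ← h]
  refine tsum_congr fun n => ?_
  rw [PowerSeries.coeff_mul, Finset.sum_mul]
  refine Finset.sum_congr rfl fun p hp => ?_
  have hp := Finset.HasAntidiagonal.mem_antidiagonal.1 hp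
  rw [← hp, pow_add]
  ring

/-- the sixth root of unity -/
noncomputable def om : ℂ := Complex.exp (Real.pi * Complex.I / 3)

theorem om_pow : om ^ 6 = 1 := by
  unfold om
  rw [← Complex.exp_nat_mul, Complex.exp_eq_one_iff]
  exact ⟨1, by push_cast; ring⟩

theorem om_cube : om ^ 3 = -1 := by
  unfold om
  rw [← Complex.exp_nat_mul, ← Complex.exp_pi_mul_I]
  congr 1
  push_cast
  ring

theorem om_ne : om ≠ 1 := by
  intro h
  have h1 := om_cube
  rw [h] at h1
  norm_num at h1

theorem adm_clausen {a : List ℕ} (ha : a ≠ []) (h : ∀ k ∈ a, 1 ≤ k) : Admissible 6 (clausen a) := by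
  match a with
  | [] => exact absurd rfl ha
  | k :: t =>
    refine ⟨fun x hx => ?_, _, _, rfl, fun hc => om_ne (congrArg Prod.snd hc)⟩
    simp only [clausen, List.mem_cons, List.mem_map] at hx
    rcases hx with rfl | ⟨b, hb, rfl⟩
    · exact ⟨h k List.mem_cons_self, om_pow⟩
    · exact ⟨h b (List.mem_cons_of_mem _ hb), one_pow 6⟩

theorem weight_clausen (a : List ℕ) : weight (clausen a) = a.sum := by
  match a with
  | [] => rfl
  | k :: t =>
    simp only [clausen, weight_cons, List.sum_cons]
    congr 1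
    unfold weight
    rw [List.map_map]
    congr 1
    exact List.map_id t

theorem CC_le (w : ℕ) : CC w ≤ ZZ 6 w := by
  unfold CC ZZ
  refine Submodule.span_mono ?_
  rintro x ⟨a, ha, h, hs, hx⟩
  exact ⟨clausen a, adm_clausen ha h, (weight_clausen a).trans hs, hx⟩

theorem CC_finite (w : ℕ) : FiniteDimensional ℚ (CC w) := by
  have := ZZ_finite (N := 6) (by norm_num) w
  exact Submodule.finiteDimensional_of_le (CC_le w)

/-- Abel's theorem for the series of a tuple -/
theorem F_tendsto {a : List ℕ} (ha : a ≠ []) (h : ∀ k ∈ a, 1 ≤ k) {x : ℂ}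
    (hx : IsLi (clausen a) x) :
    Tendsto (fun t : ℝ => F (word a) (om * (t : ℂ))) (𝓝[<] 1) (𝓝 x) := by
  match a with
  | [] => exact absurd rfl ha
  | k :: t =>
    have h1 : Tendsto (fun n => ∑ i ∈ Finset.range n,
        PowerSeries.coeff i (P (word (k :: t))) * om ^ i) atTop (𝓝 x) := by
      rw [← tendsto_add_atTop_iff_nat 1]
      exact hx.congr fun m => (partial_word k t h m).symm
    have h2 := Complex.tendsto_tsum_powerSeries_nhdsWithin_lt h1
    rw [tendsto_map'_iff] at h2
    refine h2.congr fun s => ?_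
    show ∑' n, PowerSeries.coeff n (P (word (k :: t))) * om ^ n * (s : ℂ) ^ n = _
    unfold F
    refine tsum_congr fun n => ?_
    rw [mul_pow]
    ring

theorem CC_mul {v w : ℕ} (hv : 1 ≤ v) : CC v * CC w ≤ CC (v + w) := by
  conv_lhs => unfold CC
  rw [Submodule.span_mul_span, Submodule.span_le]
  rintro _ ⟨x, ⟨a, ha, ha1, hv', hx⟩, y, ⟨b, hb, hb1, hw', hy⟩, rfl⟩
  obtain ⟨L, hL, e⟩ := shuffle _ (word a) (word b) le_rfl (good_word a) (good_word b)
  have h1 := (F_tendsto ha ha1 hx).mul (F_tendsto hb hb1 hy)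
  have h0 : ∀ u : List Bool, ∃ z : ℂ, u ∈ L →
      z ∈ CC (v + w) ∧ Tendsto (fun t : ℝ => F u (om * (t : ℂ))) (𝓝[<] 1) (𝓝 z) := by
    intro u
    by_cases hu : u ∈ L
    · obtain ⟨hg, hl⟩ := hL u hu
      obtain ⟨c, hc, rfl⟩ := word_surj u hg
      rw [length_word a ha1, length_word b hb1, length_word c hc, hv', hw'] at hl
      have hc0 : c ≠ [] := by
        rintro rfl
        simp at hl
        omega
      obtain ⟨z, hz⟩ := conv_adm (by norm_num) (adm_clausen hc0 hc)
      exact ⟨z, fun _ => ⟨Submodule.subset_span ⟨c, hc0, hc, hl, hz⟩, F_tendsto hc0 hc hz⟩⟩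
    · exact ⟨0, fun h => absurd h hu⟩
  choose z hz using h0
  have h2 : Tendsto (fun t : ℝ => (L.map fun u => F u (om * (t : ℂ))).sum) (𝓝[<] 1)
      (𝓝 (L.map z).sum) :=
    tendsto_list_sum L fun u hu => (hz u hu).2
  have h3 : x * y = (L.map z).sum := by
    refine tendsto_nhds_unique (h1.congr' ?_) h2
    have h7 : ∀ᶠ t : ℝ in 𝓝[<] 1, 0 < t := by
      have : Set.Ioo (0 : ℝ) 1 ∈ 𝓝[<] (1 : ℝ) := Ioo_mem_nhdsLT (by norm_num)
      filter_upwards [this] with t ht using ht.1
    filter_upwards [h7, self_mem_nhdsWithin] with t ht ht1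
    have h8 : ‖om * (t : ℂ)‖ < 1 := by
      rw [norm_mul, Complex.norm_real, Real.norm_eq_abs, abs_of_pos ht]
      have h9 : t < 1 := ht1
      have h10 : ‖om‖ ≤ 1 := norm_root (by norm_num) om_pow
      calc ‖om‖ * t ≤ 1 * t := by gcongr
        _ < 1 := by linarith
    exact F_mul h8 e
  show x * y ∈ CC (v + w)
  rw [h3]
  refine list_sum_mem fun s hs => ?_
  obtain ⟨u, hu, rfl⟩ := List.mem_map.1 hs
  exact (hz u hu).1

end Pool.Agent.V8H82.MZ
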