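import Pool.Agent.V8H82.MZ.Conj

/-!
# The space of multiple Clausen values is closed under complex conjugation: conclusion
-/

set_option autoImplicit false

namespace Pool.Agent.V8H82.MZ

open Filter Topology Module PowerSeries
open scoped Pointwise

theorem coeff_conj : ∀ (u : List Bool) (n : ℕ),
    starRingEnd ℂ (PowerSeries.coeff n (P u)) = PowerSeries.coeff n (P u)
  | [], n => by
    simp only [P, PowerSeries.coeff_one]
    split_ifs <;> simp
  | b :: u, 0 => by
    rw [P_zero (by simp), map_zero]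
  | false :: u, n + 1 => by
    show starRingEnd ℂ (PowerSeries.coeff (n + 1) (J false (P u))) =
      PowerSeries.coeff (n + 1) (J false (P u))
    rw [coeff_J_false, map_div₀, coeff_conj u (n + 1), Complex.conj_natCast]
  | true :: u, n + 1 => by
    show starRingEnd ℂ (PowerSeries.coeff (n + 1) (J true (P u))) =
      PowerSeries.coeff (n + 1) (J true (P u))
    rw [coeff_J_true, map_div₀, map_sum, Complex.conj_natCast]
    congr 1
    exact Finset.sum_congr rfl fun j _ => coeff_conj u j

theorem gb_mul (t : ℝ) : 1 - om * gb t = ((t : ℂ) - 1) / (om * (t : ℂ) - 1) := by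
  unfold gb
  rw [eq_div_iff (sub_ne t), sub_mul, one_mul, mul_div_assoc', div_mul_cancel₀ _ (sub_ne t)]
  linear_combination (-(t : ℂ)) * om_sq

theorem stolz {t : ℝ} (h : t ∈ Set.Ioo (0 : ℝ) 1) : om * gb t ∈ Complex.stolzSet 3 := by
  have hz : ‖om * gb t‖ = t / ‖om * (t : ℂ) - 1‖ := by
    rw [norm_mul, norm_om_one, one_mul]
    unfold gb
    rw [norm_div, norm_mul, norm_om_one, one_mul, Complex.norm_real, Real.norm_eq_abs,
      abs_of_pos h.1]
  have hn : 0 < ‖om * (t : ℂ) - 1‖ := norm_pos_iff.2 (sub_ne t)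
  have hn2 := norm_sub_sq t
  have hn1 : ‖om * (t : ℂ) - 1‖ ≤ 1 := by
    refine le_of_sq_le_sq ?_ zero_le_one
    rw [hn2]
    nlinarith [h.1, h.2]
  have hnt : t < ‖om * (t : ℂ) - 1‖ := by
    refine lt_of_pow_lt_pow_left₀ 2 hn.le ?_
    rw [hn2]
    linarith [h.2]
  refine ⟨?_, ?_⟩
  · rw [hz, div_lt_one hn]
    exact hnt
  · have h1 : ‖1 - om * gb t‖ = (1 - t) / ‖om * (t : ℂ) - 1‖ := by
      rw [gb_mul, norm_div]
      congr 1
      have : ((t : ℂ) - 1) = ((t - 1 : ℝ) : ℂ) := by push_cast; rfl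
      rw [this, Complex.norm_real, Real.norm_eq_abs, abs_of_neg (by linarith [h.2])]
      ring
    rw [h1, hz, div_lt_iff₀ hn]
    have h2 : 3 * (1 - t / ‖om * (t : ℂ) - 1‖) * ‖om * (t : ℂ) - 1‖ =
        3 * (‖om * (t : ℂ) - 1‖ - t) := by
      field_simp
    rw [h2]
    nlinarith [h.1, h.2, mul_pos (sub_pos.2 hnt) (show (0 : ℝ) < 2 - (‖om * (t : ℂ) - 1‖ + t) by
      linarith [h.2])]

theorem gb_one : Tendsto (fun t => om * gb t) (𝓝[<] 1) (𝓝[Complex.stolzSet 3] 1) := by
  refine tendsto_nhdsWithin_iff.2 ⟨?_, ?_⟩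
  · have h1 : Tendsto (fun t => om * gb t) (𝓝 1) (𝓝 (om * gb 1)) :=
      ((gb_deriv 1).continuousAt.tendsto).const_mul om
    have h2 : om * gb 1 = 1 := by
      have := gb_mul 1
      rw [Complex.ofReal_one, sub_self, zero_div] at this
      linear_combination -this
    rw [h2] at h1
    exact h1.mono_left nhdsWithin_le_nhds
  · have : Set.Ioo (0 : ℝ) 1 ∈ 𝓝[<] (1 : ℝ) := Ioo_mem_nhdsLT (by norm_num)
    filter_upwards [this] with t ht using stolz ht

theorem om_conj_mul : starRingEnd ℂ om * om = 1 := by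
  rw [conj_om]
  linear_combination -om_sq

theorem F_tendsto_conj {a : List ℕ} (ha : a ≠ []) (h : ∀ k ∈ a, 1 ≤ k) {x : ℂ}
    (hx : IsLi (clausen a) x) :
    Tendsto (fun t : ℝ => F (word a) (gb t)) (𝓝[<] 1) (𝓝 (starRingEnd ℂ x)) := by
  match a with
  | [] => exact absurd rfl ha
  | k :: t =>
    have h1 : Tendsto (fun n => ∑ i ∈ Finset.range n,
        PowerSeries.coeff i (P (word (k :: t))) * (starRingEnd ℂ om) ^ i) atTop
        (𝓝 (starRingEnd ℂ x)) := by
      rw [← tendsto_add_atTop_iff_nat 1]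
      have h2 := (Complex.continuous_conj.tendsto x).comp hx
      refine h2.congr fun m => ?_
      show starRingEnd ℂ (trunc (clausen (k :: t)) m) = _
      rw [← partial_word k t h m, map_sum]
      refine Finset.sum_congr rfl fun j _ => ?_
      rw [map_mul, map_pow, coeff_conj]
      rfl
    have h2 := (Complex.tendsto_tsum_powerSeries_nhdsWithin_stolzSet h1 (M := 3)).comp gb_one
    refine h2.congr fun s => ?_
    show ∑' n, PowerSeries.coeff n (P (word (k :: t))) * (starRingEnd ℂ om) ^ n * (om * gb s) ^ n = _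
    unfold F
    refine tsum_congr fun n => ?_
    rw [mul_assoc, ← mul_pow, ← mul_assoc, om_conj_mul, one_mul]

/-- the space of multiple Clausen values is closed under complex conjugation -/
theorem CC_conj {w : ℕ} {x : ℂ} (hx : x ∈ CC w) : starRingEnd ℂ x ∈ CC w := by
  unfold CC at hx
  induction hx using Submodule.span_induction with
  | mem x hx =>
    obtain ⟨a, ha, ha1, hw, hx⟩ := hx
    obtain ⟨L, hL, e⟩ := landen (word a) (good_word a)
    have h0 : ∀ u : ℤ × List Bool, ∃ z : ℂ, u ∈ L →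
        z ∈ CC w ∧ Tendsto (fun t : ℝ => F u.2 (ga t)) (𝓝[<] 1) (𝓝 z) := by
      intro u
      by_cases hu : u ∈ L
      · obtain ⟨hg, hl⟩ := hL u hu
        obtain ⟨c, hc, hc'⟩ := word_surj u.2 hg
        rw [← hc', length_word a ha1, length_word c hc, hw] at hl
        have hc0 : c ≠ [] := by
          rintro rfl
          rw [List.sum_nil] at hl
          have hs := hw
          rw [← hl] at hs
          match a, ha with
          | k :: t, _ =>
            have := ha1 k List.mem_cons_self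
            simp at hs
            omega
        obtain ⟨z, hz⟩ := conv_adm (by norm_num) (adm_clausen hc0 hc)
        refine ⟨z, fun _ => ⟨Submodule.subset_span ⟨c, hc0, hc, hl, hz⟩, ?_⟩⟩
        rw [← hc']
        exact F_tendsto hc0 hc hz
      · exact ⟨0, fun h => absurd h hu⟩
    choose z hz using h0
    have h2 : Tendsto (fun t : ℝ => ssum L t) (𝓝[<] 1) (𝓝 (L.map fun p => (p.1 : ℂ) * z p).sum) :=
      tendsto_list_sum L fun u hu => ((hz u hu).2).const_mul (u.1 : ℂ)
    have h3 : starRingEnd ℂ x = (L.map fun p => (p.1 : ℂ) * z p).sum := by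
      refine tendsto_nhds_unique ((F_tendsto_conj ha ha1 hx).congr' ?_) h2
      have : Set.Ioo (0 : ℝ) 1 ∈ 𝓝[<] (1 : ℝ) := Ioo_mem_nhdsLT (by norm_num)
      filter_upwards [this] with t ht using e t ht
    rw [h3]
    refine list_sum_mem fun s hs => ?_
    obtain ⟨u, hu, rfl⟩ := List.mem_map.1 hs
    have h4 := (CC w).smul_mem ((u.1 : ℤ) : ℚ) (hz u hu).1
    have h5 : ((u.1 : ℤ) : ℚ) • z u = (u.1 : ℂ) * z u := by
      rw [Algebra.smul_def]
      simp
    rw [h5] at h4
    exact h4
  | zero => rw [map_zero]; exact (CC w).zero_mem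
  | add x y _ _ hx hy => rw [map_add]; exact (CC w).add_mem hx hy
  | smul q x _ hx =>
    have h1 : starRingEnd ℂ (q • x) = q • starRingEnd ℂ x := by
      rw [Algebra.smul_def, Algebra.smul_def, map_mul]
      congr 1
      simp
    rw [h1]
    exact (CC w).smul_mem q hx

end Pool.Agent.V8H82.MZ
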