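import Pool.Agent.V8H82.MZ.Landen

/-!
# The space of multiple Clausen values is closed under complex conjugation
-/

set_option autoImplicit false

namespace Pool.Agent.V8H82.MZ

open Filter Topology Module PowerSeries
open scoped Pointwise

/-- the signed sum of values on the first path -/
noncomputable def ssum (L : List (ℤ × List Bool)) (t : ℝ) : ℂ :=
  (L.map fun p => (p.1 : ℂ) * F p.2 (ga t)).sum

theorem ssum_deriv (b : Bool) {L : List (ℤ × List Bool)} (c : ℤ) (h : ∀ p ∈ L, Good (b :: p.2)) {t : ℝ}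
    (ht : t ∈ Set.Ioo (0 : ℝ) 1) :
    HasDerivAt (ssum (L.map fun p => (c * p.1, b :: p.2))) ((c : ℂ) * (co b t * ssum L t)) t := by
  have h1 : ssum (L.map fun p => (c * p.1, b :: p.2)) = fun s =>
      (L.map fun p => ((c * p.1 : ℤ) : ℂ) * F (b :: p.2) (ga s)).sum := by
    funext s
    unfold ssum
    rw [List.map_map]
    rfl
  rw [h1]
  have h2 := list_deriv (t := t) (fun (p : ℤ × List Bool) (s : ℝ) =>
      ((c * p.1 : ℤ) : ℂ) * F (b :: p.2) (ga s))
    (fun p => (c : ℂ) * co b t * ((p.1 : ℂ) * F p.2 (ga t))) L (fun p hp => by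
      have h3 := (path_deriv (h p hp) (ga_deriv t) (ga_norm ht) (ga_ne ht)).const_mul
        ((c * p.1 : ℤ) : ℂ)
      refine h3.congr_deriv ?_
      rw [co_a b ht]
      push_cast
      ring)
  refine h2.congr_deriv ?_
  rw [List.sum_map_mul_left]
  unfold ssum
  ring

theorem ssum_append (L L' : List (ℤ × List Bool)) (t : ℝ) :
    ssum (L ++ L') t = ssum L t + ssum L' t := by
  simp [ssum]

theorem ssum_lim (L : List (ℤ × List Bool)) (h : ∀ p ∈ L, p.2 ≠ []) :
    Tendsto (ssum L) (𝓝[>] 0) (𝓝 0) := by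
  have h0 : Tendsto ga (𝓝[>] 0) (𝓝 0) := by
    have : Tendsto ga (𝓝 0) (𝓝 (ga 0)) := (ga_deriv 0).continuousAt.tendsto
    have h1 : ga 0 = 0 := by simp [ga]
    rw [h1] at this
    exact this.mono_left nhdsWithin_le_nhds
  have h1 : ∀ p ∈ L, Tendsto (fun s => (p.1 : ℂ) * F p.2 (ga s)) (𝓝[>] 0) (𝓝 ((fun _ => (0 : ℂ)) p)) := by
    intro p hp
    have h2 := ((F_cont p.2).tendsto.comp h0).const_mul (p.1 : ℂ)
    rw [F_zero (h p hp), mul_zero] at h2
    exact h2
  have h2 := tendsto_list_sum L h1
  have h3 : (List.map (fun _ : ℤ × List Bool => (0 : ℂ)) L).sum = 0 := by simp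
  rw [h3] at h2
  exact h2

/-- a function with derivative zero and limit zero vanishes -/
theorem vanish {H : ℝ → ℂ} (hd : ∀ t ∈ Set.Ioo (0 : ℝ) 1, HasDerivAt H 0 t)
    (hl : Tendsto H (𝓝[>] 0) (𝓝 0)) : ∀ t ∈ Set.Ioo (0 : ℝ) 1, H t = 0 := by
  intro t ht
  have h1 : ∀ s ∈ Set.Ioo (0 : ℝ) 1, H s = H t := fun s hs =>
    IsOpen.is_const_of_deriv_eq_zero isOpen_Ioo isPreconnected_Ioo
      (fun x hx => (hd x hx).differentiableAt.differentiableWithinAt)
      (fun x hx => (hd x hx).deriv) hs ht
  have h2 : Tendsto H (𝓝[>] 0) (𝓝 (H t)) := by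
    refine tendsto_const_nhds.congr' ?_
    have : Set.Ioo (0 : ℝ) 1 ∈ 𝓝[>] (0 : ℝ) := Ioo_mem_nhdsGT (by norm_num)
    filter_upwards [this] with s hs
    exact (h1 s hs).symm
  exact tendsto_nhds_unique h2 hl

theorem gb_lim {u : List Bool} (h : u ≠ []) : Tendsto (fun t => F u (gb t)) (𝓝[>] 0) (𝓝 0) := by
  have h0 : Tendsto gb (𝓝[>] 0) (𝓝 0) := by
    have : Tendsto gb (𝓝 0) (𝓝 (gb 0)) := (gb_deriv 0).continuousAt.tendsto
    have h1 : gb 0 = 0 := by simp [gb]
    rw [h1] at this
    exact this.mono_left nhdsWithin_le_nhds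
  have h2 := (F_cont u).tendsto.comp h0
  rw [F_zero h] at h2
  exact h2

/-- the substitution `z / (z - 1)` along the path -/
theorem landen : ∀ u : List Bool, Good u → ∃ L : List (ℤ × List Bool),
    (∀ p ∈ L, Good p.2 ∧ p.2.length = u.length) ∧
    ∀ t ∈ Set.Ioo (0 : ℝ) 1, F u (gb t) = ssum L t
  | [], h => ⟨[(1, [])], fun p hp => by
      rw [List.mem_singleton] at hp
      subst hp
      exact ⟨h, rfl⟩, fun t ht => by
      have h1 : ∀ z : ℂ, F [] z = 1 := fun z => by
        unfold F
        rw [tsum_eq_single 0]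
        · simp [P]
        · intro n hn
          simp only [P, PowerSeries.coeff_one, if_neg hn, zero_mul]
      simp [ssum, h1]⟩
  | true :: u, h => by
    obtain ⟨L, hL, e⟩ := landen u h.2
    have hg : ∀ p ∈ L, Good (true :: p.2) := fun p hp => ⟨Or.inl rfl, (hL p hp).1⟩
    refine ⟨L.map fun p => ((-1) * p.1, true :: p.2), fun p hp => ?_, fun t ht => ?_⟩
    · obtain ⟨q, hq, rfl⟩ := List.mem_map.1 hp
      exact ⟨hg q hq, by simp [(hL q hq).2]⟩
    · have h1 := vanish (H := fun t => F (true :: u) (gb t) -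
        ssum (L.map fun p => ((-1) * p.1, true :: p.2)) t) (fun t ht => by
          have h2 := path_deriv h (gb_deriv t) (gb_norm ht) (gb_ne ht)
          have h3 := ssum_deriv true (-1) hg ht
          refine (h2.sub h3).congr_deriv ?_
          rw [co_b_true ht, e t ht]
          push_cast
          ring) (by
          have h2 := (gb_lim (u := true :: u) (by simp)).sub
            (ssum_lim (L.map fun p => ((-1) * p.1, true :: p.2)) fun p hp => by
              obtain ⟨q, hq, rfl⟩ := List.mem_map.1 hp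
              simp)
          rw [sub_zero] at h2
          exact h2) t ht
      exact sub_eq_zero.1 h1
  | false :: u, h => by
    obtain ⟨L, hL, e⟩ := landen u h.2
    have hu : u ≠ [] := by
      rcases h.1 with h1 | h1
      · exact absurd h1 (by simp)
      · exact h1
    have hg : ∀ (b : Bool), ∀ p ∈ L, Good (b :: p.2) := fun b p hp => ⟨Or.inr fun h0 => by
      have h1 := (hL p hp).2
      rw [h0, List.length_nil] at h1
      exact hu (List.length_eq_zero_iff.1 h1.symm), (hL p hp).1⟩
    refine ⟨(L.map fun p => (1 * p.1, false :: p.2)) ++ (L.map fun p => (1 * p.1, true :: p.2)),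
      fun p hp => ?_, fun t ht => ?_⟩
    · rcases List.mem_append.1 hp with hp | hp
      · obtain ⟨q, hq, rfl⟩ := List.mem_map.1 hp
        exact ⟨hg false q hq, by simp [(hL q hq).2]⟩
      · obtain ⟨q, hq, rfl⟩ := List.mem_map.1 hp
        exact ⟨hg true q hq, by simp [(hL q hq).2]⟩
    · have h1 := vanish (H := fun t => F (false :: u) (gb t) -
        (ssum (L.map fun p => (1 * p.1, false :: p.2)) t +
          ssum (L.map fun p => (1 * p.1, true :: p.2)) t)) (fun t ht => by
          have h2 := path_deriv h (gb_deriv t) (gb_norm ht) (gb_ne ht)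
          have h3 := ssum_deriv false 1 (hg false) ht
          have h4 := ssum_deriv true 1 (hg true) ht
          refine (h2.sub (h3.add h4)).congr_deriv ?_
          rw [co_b_false ht, e t ht]
          push_cast
          ring) (by
          have h2 := (gb_lim (u := false :: u) (by simp)).sub
            ((ssum_lim (L.map fun p => (1 * p.1, false :: p.2)) fun p hp => by
              obtain ⟨q, hq, rfl⟩ := List.mem_map.1 hp
              simp).add (ssum_lim (L.map fun p => (1 * p.1, true :: p.2)) fun p hp => by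
              obtain ⟨q, hq, rfl⟩ := List.mem_map.1 hp
              simp))
          rw [add_zero, sub_zero] at h2
          exact h2) t ht
      rw [ssum_append]
      exact sub_eq_zero.1 h1

end Pool.Agent.V8H82.MZ
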