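import Pool.Agent.V8H82.MZ.Defs

/-!
# Convergence of the truncated sums
-/

set_option autoImplicit false

namespace Pool.Agent.V8H82.MZ

open Filter Topology Finset

theorem sum_inv_sqrt (m : ℕ) : ∑ j ∈ range m, 1 / Real.sqrt ((j : ℝ) + 1) ≤ 2 * Real.sqrt m := by
  induction m with
  | zero => simp
  | succ m ih =>
    rw [sum_range_succ]
    push_cast
    have h0 : 0 ≤ Real.sqrt (m : ℝ) := Real.sqrt_nonneg _
    have h1 : 0 < Real.sqrt ((m : ℝ) + 1) := Real.sqrt_pos.2 (by positivity)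
    have h2 : Real.sqrt (m : ℝ) ^ 2 = m := Real.sq_sqrt (by positivity)
    have h3 : Real.sqrt ((m : ℝ) + 1) ^ 2 = m + 1 := Real.sq_sqrt (by positivity)
    have h4 : 1 / Real.sqrt ((m : ℝ) + 1) ≤ 2 * Real.sqrt ((m : ℝ) + 1) - 2 * Real.sqrt m := by
      rw [div_le_iff₀ h1]
      nlinarith [sq_nonneg (Real.sqrt ((m : ℝ) + 1) - Real.sqrt m)]
    linarith

/-- all letters have exponent at least one and argument of absolute value at most one -/
def Bd (l : List (ℕ × ℂ)) : Prop := ∀ x ∈ l, 1 ≤ x.1 ∧ ‖x.2‖ ≤ 1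

theorem term_le {x : ℕ × ℂ} (h1 : 1 ≤ x.1) (h2 : ‖x.2‖ ≤ 1) (j : ℕ) :
    ‖x.2 ^ (j + 1) / ((j + 1 : ℕ) : ℂ) ^ x.1‖ ≤ 1 / ((j : ℝ) + 1) := by
  rw [norm_div, norm_pow, norm_pow]
  have h3 : ‖((j + 1 : ℕ) : ℂ)‖ = (j : ℝ) + 1 := by
    rw [Complex.norm_natCast]
    push_cast
    ring
  rw [h3]
  have h4 : (1 : ℝ) ≤ (j : ℝ) + 1 := by
    have : (0 : ℝ) ≤ j := Nat.cast_nonneg j
    linarith
  have h5 : (j : ℝ) + 1 ≤ ((j : ℝ) + 1) ^ x.1 := by
    calc (j : ℝ) + 1 = ((j : ℝ) + 1) ^ 1 := (pow_one _).symm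
      _ ≤ ((j : ℝ) + 1) ^ x.1 := pow_le_pow_right₀ h4 h1
  have h6 : ‖x.2‖ ^ (j + 1) ≤ 1 := pow_le_one₀ (norm_nonneg _) h2
  gcongr

theorem trunc_bound : ∀ (l : List (ℕ × ℂ)), Bd l →
    ∀ m : ℕ, ‖trunc l m‖ ≤ 2 ^ l.length * Real.sqrt ((m : ℝ) + 1)
  | [], _, m => by
    rw [trunc_nil, norm_one, List.length_nil, pow_zero, one_mul]
    rw [Real.one_le_sqrt]
    have : (0 : ℝ) ≤ m := Nat.cast_nonneg m
    linarith
  | x :: l, h, m => by
    have hx := h x List.mem_cons_self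
    have hl : Bd l := fun y hy => h y (List.mem_cons_of_mem _ hy)
    have ih := trunc_bound l hl
    have h1 : ‖trunc (x :: l) m‖ ≤ ∑ j ∈ range m, 2 ^ l.length * (1 / Real.sqrt ((j : ℝ) + 1)) := by
      refine (norm_sum_le _ _).trans (sum_le_sum fun j _ => ?_)
      rw [norm_mul]
      have h2 : (0 : ℝ) < (j : ℝ) + 1 := by positivity
      have h3 : Real.sqrt ((j : ℝ) + 1) ^ 2 = (j : ℝ) + 1 := Real.sq_sqrt h2.le
      have h4 : 0 < Real.sqrt ((j : ℝ) + 1) := Real.sqrt_pos.2 h2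
      calc ‖x.2 ^ (j + 1) / ((j + 1 : ℕ) : ℂ) ^ x.1‖ * ‖trunc l j‖
          ≤ 1 / ((j : ℝ) + 1) * (2 ^ l.length * Real.sqrt ((j : ℝ) + 1)) :=
            mul_le_mul (term_le hx.1 hx.2 j) (ih j) (norm_nonneg _) (by positivity)
        _ = 2 ^ l.length * (1 / Real.sqrt ((j : ℝ) + 1)) := by
            have h5 : 1 / ((j : ℝ) + 1) = 1 / Real.sqrt ((j : ℝ) + 1) ^ 2 := by rw [h3]
            rw [h5]
            field_simp
    refine h1.trans ?_
    rw [← mul_sum]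
    have h6 := sum_inv_sqrt m
    have h7 : Real.sqrt (m : ℝ) ≤ Real.sqrt ((m : ℝ) + 1) := Real.sqrt_le_sqrt (by linarith)
    rw [List.length_cons, pow_succ]
    have h8 : (0 : ℝ) < 2 ^ l.length := by positivity
    nlinarith

theorem summable_pow : Summable fun j : ℕ => Real.sqrt ((j : ℝ) + 1) / ((j : ℝ) + 1) ^ 2 := by
  have h1 : Summable fun j : ℕ => 1 / ((j + 1 : ℕ) : ℝ) ^ (3 / 2 : ℝ) :=
    (summable_nat_add_iff 1).2 (Real.summable_one_div_nat_rpow.2 (by norm_num))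
  refine h1.congr fun j => ?_
  have h2 : (0 : ℝ) < (j : ℝ) + 1 := by positivity
  push_cast
  rw [Real.sqrt_eq_rpow, ← Real.rpow_natCast ((j : ℝ) + 1) 2, ← Real.rpow_sub h2, one_div,
    ← Real.rpow_neg h2.le]
  congr 1
  norm_num

/-- exponent at least two -/
theorem conv_two {x : ℕ × ℂ} {l : List (ℕ × ℂ)} (h : Bd (x :: l)) (h2 : 2 ≤ x.1) :
    ∃ y, IsLi (x :: l) y := by
  have hx := h x List.mem_cons_self
  have hl : Bd l := fun y hy => h y (List.mem_cons_of_mem _ hy)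
  have hs : Summable fun j : ℕ => x.2 ^ (j + 1) / ((j + 1 : ℕ) : ℂ) ^ x.1 * trunc l j := by
    refine Summable.of_norm_bounded (summable_pow.mul_left (2 ^ l.length)) fun j => ?_
    rw [norm_mul, norm_div, norm_pow, norm_pow]
    have h3 : ‖((j + 1 : ℕ) : ℂ)‖ = (j : ℝ) + 1 := by
      rw [Complex.norm_natCast]
      push_cast
      ring
    rw [h3]
    have h4 : (1 : ℝ) ≤ (j : ℝ) + 1 := by
      have : (0 : ℝ) ≤ j := Nat.cast_nonneg j
      linarith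
    have h5 : ((j : ℝ) + 1) ^ 2 ≤ ((j : ℝ) + 1) ^ x.1 := pow_le_pow_right₀ h4 h2
    have h6 : ‖x.2‖ ^ (j + 1) ≤ 1 := pow_le_one₀ (norm_nonneg _) hx.2
    have h7 : ‖x.2‖ ^ (j + 1) / ((j : ℝ) + 1) ^ x.1 ≤ 1 / ((j : ℝ) + 1) ^ 2 := by gcongr
    calc ‖x.2‖ ^ (j + 1) / ((j : ℝ) + 1) ^ x.1 * ‖trunc l j‖
        ≤ 1 / ((j : ℝ) + 1) ^ 2 * (2 ^ l.length * Real.sqrt ((j : ℝ) + 1)) :=
          mul_le_mul h7 (trunc_bound l hl j) (norm_nonneg _) (by positivity)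
      _ = 2 ^ l.length * (Real.sqrt ((j : ℝ) + 1) / ((j : ℝ) + 1) ^ 2) := by ring
  exact ⟨_, hs.hasSum.tendsto_sum_nat⟩

theorem geom_bound {z : ℂ} (hz : ‖z‖ ≤ 1) (h1 : z ≠ 1) (m : ℕ) :
    ‖∑ j ∈ range m, z ^ (j + 1)‖ ≤ 2 / ‖1 - z‖ := by
  have h2 : (1 - z) ≠ 0 := sub_ne_zero.2 h1.symm
  have h3 : (∑ j ∈ range m, z ^ (j + 1)) * (1 - z) = z * (1 - z ^ m) := by
    have : ∑ j ∈ range m, z ^ (j + 1) = z * ∑ j ∈ range m, z ^ j := by
      rw [mul_sum]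
      exact sum_congr rfl fun j _ => by rw [pow_succ']
    rw [this]
    have h4 := geom_sum_mul z m
    linear_combination (-z) * h4
  rw [le_div_iff₀ (norm_pos_iff.2 h2), ← norm_mul, h3, norm_mul]
  have h5 : ‖1 - z ^ m‖ ≤ 2 := by
    calc ‖1 - z ^ m‖ ≤ ‖(1 : ℂ)‖ + ‖z ^ m‖ := norm_sub_le _ _
      _ ≤ 1 + 1 := by
        rw [norm_one, norm_pow]
        have := pow_le_one₀ (n := m) (norm_nonneg z) hz
        linarith
      _ = 2 := by norm_num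
  calc ‖z‖ * ‖1 - z ^ m‖ ≤ 1 * 2 := mul_le_mul hz h5 (norm_nonneg _) (by norm_num)
    _ = 2 := by norm_num

/-- the test of Dirichlet with bounded variation -/
theorem dirichlet {z : ℂ} (hz : ‖z‖ ≤ 1) (h1 : z ≠ 1) (c : ℕ → ℂ)
    (hc : Tendsto c atTop (𝓝 0)) (hv : Summable fun i => ‖c (i + 1) - c i‖) :
    ∃ y, Tendsto (fun m => ∑ j ∈ range m, c j * z ^ (j + 1)) atTop (𝓝 y) := by
  set G : ℕ → ℂ := fun m => ∑ j ∈ range m, z ^ (j + 1) with hG
  have hb : ∀ m, ‖G m‖ ≤ 2 / ‖1 - z‖ := fun m => geom_bound hz h1 m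
  have hs : Summable fun i => (c (i + 1) - c i) * G (i + 1) := by
    refine Summable.of_norm_bounded (hv.mul_right (2 / ‖1 - z‖)) fun i => ?_
    rw [norm_mul]
    exact mul_le_mul_of_nonneg_left (hb _) (norm_nonneg _)
  have h2 : Tendsto (fun m => ∑ i ∈ range (m - 1), (c (i + 1) - c i) * G (i + 1)) atTop
      (𝓝 (∑' i, (c (i + 1) - c i) * G (i + 1))) :=
    hs.hasSum.tendsto_sum_nat.comp (tendsto_sub_atTop_nat 1)
  have h3 : Tendsto (fun m => c (m - 1) * G m) atTop (𝓝 0) := by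
    have h4 : Tendsto (fun m => ‖c (m - 1)‖ * (2 / ‖1 - z‖)) atTop (𝓝 0) := by
      have := ((hc.comp (tendsto_sub_atTop_nat 1)).norm).mul_const (2 / ‖1 - z‖)
      simpa using this
    refine squeeze_zero_norm (fun m => ?_) h4
    rw [norm_mul]
    exact mul_le_mul_of_nonneg_left (hb _) (norm_nonneg _)
  refine ⟨_, (h3.sub h2).congr fun m => ?_⟩
  have h5 := Finset.sum_range_by_parts c (fun j => z ^ (j + 1)) m
  simp only [smul_eq_mul] at h5
  rw [h5]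

/-- exponent one and argument different from one -/
theorem conv_one {x : ℕ × ℂ} {l : List (ℕ × ℂ)} (h : Bd (x :: l)) (h2 : x.1 = 1)
    (h3 : x.2 ≠ 1) : ∃ y, IsLi (x :: l) y := by
  have hx := h x List.mem_cons_self
  have hl : Bd l := fun y hy => h y (List.mem_cons_of_mem _ hy)
  set c : ℕ → ℂ := fun j => trunc l j / ((j + 1 : ℕ) : ℂ) with hc
  have hn : ∀ j : ℕ, ‖((j + 1 : ℕ) : ℂ)‖ = (j : ℝ) + 1 := by
    intro j
    rw [Complex.norm_natCast]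
    push_cast
    ring
  have hc0 : Tendsto c atTop (𝓝 0) := by
    have h4 : Tendsto (fun j : ℕ => 2 ^ l.length * (1 / Real.sqrt ((j : ℝ) + 1))) atTop (𝓝 0) := by
      have h5 : Tendsto (fun j : ℕ => Real.sqrt ((j : ℝ) + 1)) atTop atTop :=
        Real.tendsto_sqrt_atTop.comp
          (tendsto_atTop_add_const_right _ _ tendsto_natCast_atTop_atTop)
      have h6 := (h5.inv_tendsto_atTop).const_mul (2 ^ l.length : ℝ)
      simpa [one_div] using h6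
    refine squeeze_zero_norm (fun j => ?_) h4
    rw [hc]
    simp only
    rw [norm_div, hn]
    have h7 : (0 : ℝ) < (j : ℝ) + 1 := by positivity
    have h8 : Real.sqrt ((j : ℝ) + 1) ^ 2 = (j : ℝ) + 1 := Real.sq_sqrt h7.le
    have h9 : 0 < Real.sqrt ((j : ℝ) + 1) := Real.sqrt_pos.2 h7
    rw [div_le_iff₀ h7]
    calc ‖trunc l j‖ ≤ 2 ^ l.length * Real.sqrt ((j : ℝ) + 1) := trunc_bound l hl j
      _ = 2 ^ l.length * (1 / Real.sqrt ((j : ℝ) + 1)) * Real.sqrt ((j : ℝ) + 1) ^ 2 := by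
          field_simp
      _ = 2 ^ l.length * (1 / Real.sqrt ((j : ℝ) + 1)) * ((j : ℝ) + 1) := by rw [h8]
  have hv : Summable fun i => ‖c (i + 1) - c i‖ := by
    -- `‖trunc l (i+1) - trunc l i‖ ≤ K √(i+1)/(i+1)`
    obtain ⟨K, hK0, hK⟩ : ∃ K : ℝ, 0 ≤ K ∧ ∀ i : ℕ, ‖trunc l (i + 1) - trunc l i‖ ≤
        K * (Real.sqrt ((i : ℝ) + 1) / ((i : ℝ) + 1)) := by
      match l, hl with
      | [], _ => exact ⟨0, le_rfl, fun i => by simp [trunc_nil]⟩
      | y :: l', hl =>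
        have hy := hl y List.mem_cons_self
        have hl' : Bd l' := fun t ht => hl t (List.mem_cons_of_mem _ ht)
        refine ⟨2 ^ l'.length, by positivity, fun i => ?_⟩
        rw [trunc_succ, add_sub_cancel_left, norm_mul]
        calc ‖y.2 ^ (i + 1) / ((i + 1 : ℕ) : ℂ) ^ y.1‖ * ‖trunc l' i‖
            ≤ 1 / ((i : ℝ) + 1) * (2 ^ l'.length * Real.sqrt ((i : ℝ) + 1)) :=
              mul_le_mul (term_le hy.1 hy.2 i) (trunc_bound l' hl' i) (norm_nonneg _) (by positivity)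
          _ = 2 ^ l'.length * (Real.sqrt ((i : ℝ) + 1) / ((i : ℝ) + 1)) := by ring
    refine Summable.of_nonneg_of_le (fun i => norm_nonneg _) (fun i => ?_)
      (summable_pow.mul_left (K + 2 ^ l.length))
    have h4 : ((i + 1 + 1 : ℕ) : ℂ) ≠ 0 := Nat.cast_ne_zero.2 (by omega)
    have h5 : ((i + 1 : ℕ) : ℂ) ≠ 0 := Nat.cast_ne_zero.2 (by omega)
    have h6 : c (i + 1) - c i = (trunc l (i + 1) - trunc l i) / ((i + 1 + 1 : ℕ) : ℂ) -
        trunc l i / (((i + 1 : ℕ) : ℂ) * ((i + 1 + 1 : ℕ) : ℂ)) := by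
      simp only [hc]
      field_simp
      push_cast
      ring
    rw [h6]
    have h7 : (0 : ℝ) < (i : ℝ) + 1 := by positivity
    have h8 : ‖((i + 1 + 1 : ℕ) : ℂ)‖ = (i : ℝ) + 2 := by
      rw [hn]
      push_cast
      ring
    have h9 : ‖(trunc l (i + 1) - trunc l i) / ((i + 1 + 1 : ℕ) : ℂ)‖ ≤
        K * (Real.sqrt ((i : ℝ) + 1) / ((i : ℝ) + 1) ^ 2) := by
      rw [norm_div, h8]
      have h10 : K * (Real.sqrt ((i : ℝ) + 1) / ((i : ℝ) + 1) ^ 2) =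
          K * (Real.sqrt ((i : ℝ) + 1) / ((i : ℝ) + 1)) / ((i : ℝ) + 1) := by
        field_simp
      rw [h10]
      have h11 : 0 ≤ K * (Real.sqrt ((i : ℝ) + 1) / ((i : ℝ) + 1)) := by positivity
      exact div_le_div₀ h11 (hK i) h7 (by linarith)
    have h12 : ‖trunc l i / (((i + 1 : ℕ) : ℂ) * ((i + 1 + 1 : ℕ) : ℂ))‖ ≤
        2 ^ l.length * (Real.sqrt ((i : ℝ) + 1) / ((i : ℝ) + 1) ^ 2) := by
      rw [norm_div, norm_mul, hn, h8]
      have h13 : 2 ^ l.length * (Real.sqrt ((i : ℝ) + 1) / ((i : ℝ) + 1) ^ 2) =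
          2 ^ l.length * Real.sqrt ((i : ℝ) + 1) / (((i : ℝ) + 1) * ((i : ℝ) + 1)) := by
        rw [pow_two]
        ring
      rw [h13]
      exact div_le_div₀ (by positivity) (trunc_bound l hl i) (by positivity)
        (mul_le_mul_of_nonneg_left (by linarith) h7.le)
    refine (norm_sub_le _ _).trans ?_
    rw [add_mul]
    exact add_le_add h9 h12
  obtain ⟨y, hy⟩ := dirichlet hx.2 h3 c hc0 hv
  refine ⟨y, hy.congr fun m => ?_⟩
  show _ = trunc (x :: l) m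
  simp only [trunc]
  refine sum_congr rfl fun j _ => ?_
  rw [h2, pow_one]
  simp only [hc]
  ring

theorem conv {x : ℕ × ℂ} {l : List (ℕ × ℂ)} (h : Bd (x :: l)) (hx : x ≠ (1, 1)) :
    ∃ y, IsLi (x :: l) y := by
  have h1 := (h x List.mem_cons_self).1
  by_cases h2 : 2 ≤ x.1
  · exact conv_two h h2
  · have h3 : x.1 = 1 := by omega
    refine conv_one h h3 fun h4 => hx ?_
    exact Prod.ext h3 h4

theorem norm_root {N : ℕ} (hN : 1 ≤ N) {z : ℂ} (h : z ^ N = 1) : ‖z‖ ≤ 1 := by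
  have h1 : ‖z‖ ^ N = 1 := by rw [← norm_pow, h, norm_one]
  exact (pow_eq_one_iff_of_nonneg (norm_nonneg _) (by omega)).1 h1 |>.le

theorem conv_adm {N : ℕ} (hN : 1 ≤ N) {l : List (ℕ × ℂ)} (h : Admissible N l) :
    ∃ y, IsLi l y := by
  obtain ⟨h0, x, l', rfl, hx⟩ := h
  exact conv (fun y hy => ⟨(h0 y hy).1, norm_root hN (h0 y hy).2⟩) hx

end Pool.Agent.V8H82.MZ
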