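import Mathlib

/-!
# Multiple polylogarithms at roots of unity as limits of truncated sums
-/

set_option autoImplicit false

namespace Pool.Agent.V8H82.MZ

open Filter Topology

/-- `trunc [(a_1, z_1), ..., (a_n, z_n)] m` is the sum of `∏ z_j ^ l_j / l_j ^ a_j` over
`m ≥ l_1 > ... > l_n ≥ 1`. -/
noncomputable def trunc : List (ℕ × ℂ) → ℕ → ℂ
  | [], _ => 1
  | x :: l, m => ∑ j ∈ Finset.range m, x.2 ^ (j + 1) / ((j + 1 : ℕ) : ℂ) ^ x.1 * trunc l j

/-- The limit of the truncated sums is `x`, that is `Li_{a_1, ..., a_n}(z_1, ..., z_n) = x`. -/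
def IsLi (l : List (ℕ × ℂ)) (x : ℂ) : Prop := Tendsto (trunc l) atTop (𝓝 x)

/-- The weight `a_1 + ... + a_n`. -/
def weight (l : List (ℕ × ℂ)) : ℕ := (l.map Prod.fst).sum

/-- The indices of the cyclotomic multiple zeta values of level `N`: `n ≥ 1`, `a_j ≥ 1`,
`z_j ^ N = 1`, `(a_1, z_1) ≠ (1, 1)`. -/
def Admissible (N : ℕ) (l : List (ℕ × ℂ)) : Prop :=
  (∀ x ∈ l, 1 ≤ x.1 ∧ x.2 ^ N = 1) ∧ ∃ x l', l = x :: l' ∧ x ≠ (1, 1)

/-- The `ℚ`-vector space `ℨ_w(N)` spanned by the cyclotomic multiple zeta values of weight `w` and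
level `N`. -/
noncomputable def ZZ (N w : ℕ) : Submodule ℚ ℂ :=
  Submodule.span ℚ {x | ∃ l, Admissible N l ∧ weight l = w ∧ IsLi l x}

/-- The argument `(a_1, ω), (a_2, 1), ..., (a_n, 1)` with `ω = e ^ (π i / 3)`. -/
noncomputable def clausen : List ℕ → List (ℕ × ℂ)
  | [] => []
  | a :: t => (a, Complex.exp (Real.pi * Complex.I / 3)) :: t.map fun b => (b, 1)

/-- The `ℚ`-vector space `ℭ_w` spanned by the multiple Clausen values `μ_{a_1, ..., a_n}` of weight
`w`, `n ≥ 1`, `a_j ≥ 1`. -/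
noncomputable def CC (w : ℕ) : Submodule ℚ ℂ :=
  Submodule.span ℚ {x | ∃ a : List ℕ, a ≠ [] ∧ (∀ k ∈ a, 1 ≤ k) ∧ a.sum = w ∧
    IsLi (clausen a) x}

/-- The dimension over the field of all algebraic numbers of the space of the combinations of elements
of `V` with algebraic coefficients. -/
noncomputable def dimAlg (V : Submodule ℚ ℂ) : ℕ :=
  Module.finrank (algebraicClosure ℚ ℂ) (Submodule.span (algebraicClosure ℚ ℂ) (V : Set ℂ))

theorem trunc_nil (m : ℕ) : trunc [] m = 1 := rfl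

theorem trunc_zero (x : ℕ × ℂ) (l : List (ℕ × ℂ)) : trunc (x :: l) 0 = 0 := by
  simp [trunc]

theorem trunc_succ (x : ℕ × ℂ) (l : List (ℕ × ℂ)) (m : ℕ) :
    trunc (x :: l) (m + 1) =
      trunc (x :: l) m + x.2 ^ (m + 1) / ((m + 1 : ℕ) : ℂ) ^ x.1 * trunc l m := by
  simp only [trunc, Finset.sum_range_succ]

/-- the merged letter -/
def merge (x y : ℕ × ℂ) : ℕ × ℂ := (x.1 + y.1, x.2 * y.2)

theorem prod_expand (x y : ℕ × ℂ) (l l' : List (ℕ × ℂ)) (m : ℕ) :
    trunc (x :: l) m * trunc (y :: l') m =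
      ∑ j ∈ Finset.range m, x.2 ^ (j + 1) / ((j + 1 : ℕ) : ℂ) ^ x.1 * (trunc l j * trunc (y :: l') j) +
      ∑ j ∈ Finset.range m, y.2 ^ (j + 1) / ((j + 1 : ℕ) : ℂ) ^ y.1 * (trunc (x :: l) j * trunc l' j) +
      ∑ j ∈ Finset.range m, (merge x y).2 ^ (j + 1) / ((j + 1 : ℕ) : ℂ) ^ (merge x y).1 *
        (trunc l j * trunc l' j) := by
  induction m with
  | zero => simp [trunc_zero]
  | succ m ih =>
    rw [trunc_succ, trunc_succ, Finset.sum_range_succ, Finset.sum_range_succ,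
      Finset.sum_range_succ]
    have h : (merge x y).2 ^ (m + 1) / ((m + 1 : ℕ) : ℂ) ^ (merge x y).1 =
        (x.2 ^ (m + 1) / ((m + 1 : ℕ) : ℂ) ^ x.1) * (y.2 ^ (m + 1) / ((m + 1 : ℕ) : ℂ) ^ y.1) := by
      simp only [merge]
      rw [mul_pow, pow_add ((m + 1 : ℕ) : ℂ), div_mul_div_comm]
    rw [h]
    linear_combination ih

/-- sums of truncated sums -/
noncomputable def tsm (L : List (List (ℕ × ℂ))) (m : ℕ) : ℂ := (L.map fun k => trunc k m).sum

theorem tsm_append (L L' : List (List (ℕ × ℂ))) (m : ℕ) : tsm (L ++ L') m = tsm L m + tsm L' m := by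
  simp [tsm]

theorem tsm_cons (x : ℕ × ℂ) (L : List (List (ℕ × ℂ))) (m : ℕ) :
    tsm (L.map (x :: ·)) m =
      ∑ j ∈ Finset.range m, x.2 ^ (j + 1) / ((j + 1 : ℕ) : ℂ) ^ x.1 * tsm L j := by
  induction L with
  | nil => simp [tsm]
  | cons k L ih =>
    have h1 : tsm ((k :: L).map (x :: ·)) m = trunc (x :: k) m + tsm (L.map (x :: ·)) m := by
      simp [tsm]
    have h2 : ∀ j, tsm (k :: L) j = trunc k j + tsm L j := fun j => by simp [tsm]
    rw [h1, ih]
    simp only [h2, mul_add, Finset.sum_add_distrib]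
    rfl

/-- words of level `N` and weight `w` -/
def Wd (N w : ℕ) (l : List (ℕ × ℂ)) : Prop := (∀ x ∈ l, 1 ≤ x.1 ∧ x.2 ^ N = 1) ∧ weight l = w

theorem weight_cons (x : ℕ × ℂ) (l : List (ℕ × ℂ)) : weight (x :: l) = x.1 + weight l := by
  simp [weight]

theorem Wd.cons {N w : ℕ} {l : List (ℕ × ℂ)} (h : Wd N w l) {x : ℕ × ℂ} (hx : 1 ≤ x.1)
    (hz : x.2 ^ N = 1) {w' : ℕ} (hw : w' = x.1 + w) : Wd N w' (x :: l) := by
  refine ⟨fun y hy => ?_, by rw [weight_cons, h.2, hw]⟩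
  rcases List.mem_cons.1 hy with rfl | hy
  · exact ⟨hx, hz⟩
  · exact h.1 y hy

theorem Wd.head {N w : ℕ} {x : ℕ × ℂ} {l : List (ℕ × ℂ)} (h : Wd N w (x :: l)) :
    1 ≤ x.1 ∧ x.2 ^ N = 1 ∧ Wd N (weight l) l ∧ w = x.1 + weight l := by
  have h1 := h.1 x List.mem_cons_self
  exact ⟨h1.1, h1.2, ⟨fun y hy => h.1 y (List.mem_cons_of_mem _ hy), rfl⟩, by
    rw [← h.2, weight_cons]⟩

/-- the quasi-shuffle product of truncated sums -/
theorem stuffle (N : ℕ) : ∀ (n : ℕ) (l l' : List (ℕ × ℂ)) (v w : ℕ), l.length + l'.length ≤ n →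
    Wd N v l → Wd N w l' →
    ∃ L : List (List (ℕ × ℂ)), (∀ k ∈ L, Wd N (v + w) k) ∧
      ∀ m, trunc l m * trunc l' m = tsm L m := by
  intro n
  induction n with
  | zero =>
    intro l l' v w hn hl hl'
    have h1 : l = [] := List.length_eq_zero_iff.1 (by omega)
    have h2 : l' = [] := List.length_eq_zero_iff.1 (by omega)
    subst h1 h2
    refine ⟨[[]], fun k hk => ?_, fun m => by simp [tsm, trunc]⟩
    rw [List.mem_singleton] at hk
    subst hk
    refine ⟨by simp, ?_⟩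
    rw [← hl.2, ← hl'.2]
    simp [weight]
  | succ n ih =>
    intro l l' v w hn hl hl'
    match l, l' with
    | [], l' =>
      refine ⟨[l'], fun k hk => ?_, fun m => by simp [tsm, trunc]⟩
      rw [List.mem_singleton] at hk
      subst hk
      refine ⟨hl'.1, ?_⟩
      rw [hl'.2, ← hl.2]
      simp [weight]
    | x :: l, [] =>
      refine ⟨[x :: l], fun k hk => ?_, fun m => by simp [tsm, trunc_nil]⟩
      rw [List.mem_singleton] at hk
      subst hk
      refine ⟨hl.1, ?_⟩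
      rw [hl.2, ← hl'.2]
      simp [weight]
    | x :: l, y :: l' =>
      obtain ⟨hx1, hx2, hx3, hx4⟩ := hl.head
      obtain ⟨hy1, hy2, hy3, hy4⟩ := hl'.head
      simp only [List.length_cons] at hn
      obtain ⟨L1, h1, e1⟩ := ih l (y :: l') (weight l) w (by simp only [List.length_cons]; omega) hx3 hl'
      obtain ⟨L2, h2, e2⟩ := ih (x :: l) l' v (weight l') (by simp only [List.length_cons]; omega) hl hy3
      obtain ⟨L3, h3, e3⟩ := ih l l' (weight l) (weight l') (by omega) hx3 hy3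
      refine ⟨L1.map (x :: ·) ++ L2.map (y :: ·) ++ L3.map (merge x y :: ·), ?_, ?_⟩
      · intro k hk
        rw [List.mem_append, List.mem_append] at hk
        rcases hk with (hk | hk) | hk
        · obtain ⟨k', hk', rfl⟩ := List.mem_map.1 hk
          exact (h1 k' hk').cons hx1 hx2 (by omega)
        · obtain ⟨k', hk', rfl⟩ := List.mem_map.1 hk
          exact (h2 k' hk').cons hy1 hy2 (by omega)
        · obtain ⟨k', hk', rfl⟩ := List.mem_map.1 hk
          refine (h3 k' hk').cons ?_ ?_ ?_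
          · show 1 ≤ x.1 + y.1
            omega
          · show (x.2 * y.2) ^ N = 1
            rw [mul_pow, hx2, hy2, one_mul]
          · show v + w = x.1 + y.1 + (weight l + weight l')
            omega
      · intro m
        rw [prod_expand, tsm_append, tsm_append, tsm_cons, tsm_cons, tsm_cons]
        simp only [e1, e2, e3]

/-- the product of two admissible truncated sums -/
theorem stuffle_adm {N v w : ℕ} {l l' : List (ℕ × ℂ)} (hl : Admissible N l) (hv : weight l = v)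
    (hl' : Admissible N l') (hw : weight l' = w) :
    ∃ L : List (List (ℕ × ℂ)), (∀ k ∈ L, Admissible N k ∧ weight k = v + w) ∧
      ∀ m, trunc l m * trunc l' m = tsm L m := by
  obtain ⟨h0, x, l, rfl, hx⟩ := hl
  obtain ⟨h0', y, l', rfl, hy⟩ := hl'
  have hW : Wd N v (x :: l) := ⟨h0, hv⟩
  have hW' : Wd N w (y :: l') := ⟨h0', hw⟩
  obtain ⟨hx1, hx2, hx3, hx4⟩ := hW.head
  obtain ⟨hy1, hy2, hy3, hy4⟩ := hW'.head
  obtain ⟨L1, h1, e1⟩ := stuffle N _ l (y :: l') (weight l) w le_rfl hx3 hW'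
  obtain ⟨L2, h2, e2⟩ := stuffle N _ (x :: l) l' v (weight l') le_rfl hW hy3
  obtain ⟨L3, h3, e3⟩ := stuffle N _ l l' (weight l) (weight l') le_rfl hx3 hy3
  refine ⟨L1.map (x :: ·) ++ L2.map (y :: ·) ++ L3.map (merge x y :: ·), ?_, ?_⟩
  · intro k hk
    rw [List.mem_append, List.mem_append] at hk
    rcases hk with (hk | hk) | hk
    · obtain ⟨k', hk', rfl⟩ := List.mem_map.1 hk
      have h5 : Wd N (v + w) (x :: k') := (h1 k' hk').cons hx1 hx2 (by omega)
      exact ⟨⟨h5.1, x, k', rfl, hx⟩, h5.2⟩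
    · obtain ⟨k', hk', rfl⟩ := List.mem_map.1 hk
      have h5 : Wd N (v + w) (y :: k') := (h2 k' hk').cons hy1 hy2 (by omega)
      exact ⟨⟨h5.1, y, k', rfl, hy⟩, h5.2⟩
    · obtain ⟨k', hk', rfl⟩ := List.mem_map.1 hk
      have h5 : Wd N (v + w) (merge x y :: k') := by
        refine (h3 k' hk').cons ?_ ?_ ?_
        · show 1 ≤ x.1 + y.1
          omega
        · show (x.2 * y.2) ^ N = 1
          rw [mul_pow, hx2, hy2, one_mul]
        · show v + w = x.1 + y.1 + (weight l + weight l')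
          omega
      refine ⟨⟨h5.1, merge x y, k', rfl, fun h => ?_⟩, h5.2⟩
      have h6 := congrArg Prod.fst h
      have h7 : x.1 + y.1 = 1 := h6
      omega
  · intro m
    rw [prod_expand, tsm_append, tsm_append, tsm_cons, tsm_cons, tsm_cons]
    simp only [e1, e2, e3]

end Pool.Agent.V8H82.MZ
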