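import Pool.Agent.V8H82.MZ.Clausen

/-!
# Growth of the dimensions
-/

set_option autoImplicit false

namespace Pool.Agent.V8H82.MZ

open Filter Topology Module
open scoped Pointwise

theorem log_ne {N : ℕ} (hN : 1 ≤ N) {z : ℂ} (h : z ^ N = 1) (h1 : z ≠ 1) :
    -Complex.log (1 - z) ≠ 0 := by
  intro h2
  have h3 : Complex.log (1 - z) = 0 := neg_eq_zero.1 h2
  have h4 : 1 - z ≠ 0 := sub_ne_zero.2 h1.symm
  have h5 := Complex.exp_log h4
  rw [h3, Complex.exp_zero] at h5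
  have h6 : z = 0 := by linear_combination h5
  rw [h6, zero_pow (by omega)] at h
  exact zero_ne_one h

theorem log_mem {N : ℕ} (hN : 1 ≤ N) {z : ℂ} (h : z ^ N = 1) (h1 : z ≠ 1) :
    -Complex.log (1 - z) ∈ ZZ N 1 := by
  rw [ZZ_one hN]
  exact Submodule.subset_span ⟨z, h, h1, rfl⟩

theorem pow_mem_ZZ {N : ℕ} (hN : 1 ≤ N) {x : ℂ} (hx : x ∈ ZZ N 1) : ∀ w, 1 ≤ w → x ^ w ∈ ZZ N w := by
  intro w hw
  induction w, hw using Nat.le_induction with
  | base => simpa using hx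
  | succ n hn ih =>
    rw [pow_succ]
    exact ZZ_mul hN (Submodule.mul_mem_mul ih hx)

theorem pow_mem_CC {x : ℂ} (hx : x ∈ CC 1) : ∀ w, 1 ≤ w → x ^ w ∈ CC w := by
  intro w hw
  induction w, hw using Nat.le_induction with
  | base => simpa using hx
  | succ n hn ih =>
    rw [pow_succ]
    exact CC_mul hn (Submodule.mul_mem_mul ih hx)

theorem exists_root {N : ℕ} (hN : 2 ≤ N) : ∃ z : ℂ, z ^ N = 1 ∧ z ≠ 1 := by
  have h1 := Complex.isPrimitiveRoot_exp N (by omega)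
  exact ⟨_, h1.pow_eq_one, h1.ne_one (by omega)⟩

theorem ZZ_ne {N : ℕ} (hN : 2 ≤ N) {w : ℕ} (hw : 1 ≤ w) : ZZ N w ≠ ⊥ := by
  obtain ⟨z, hz, hz1⟩ := exists_root hN
  intro h
  have h1 := pow_mem_ZZ (by omega) (log_mem (by omega) hz hz1) w hw
  rw [h, Submodule.mem_bot] at h1
  exact pow_ne_zero w (log_ne (by omega) hz hz1) h1

theorem om_re : om.re = 1 / 2 := by
  unfold om
  have h : (Real.pi * Complex.I / 3 : ℂ) = ((Real.pi / 3 : ℝ) : ℂ) * Complex.I := by
    push_cast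
    ring
  rw [h, Complex.exp_ofReal_mul_I_re, Real.cos_pi_div_three]

theorem om_im : om.im = Real.sqrt 3 / 2 := by
  unfold om
  have h : (Real.pi * Complex.I / 3 : ℂ) = ((Real.pi / 3 : ℝ) : ℂ) * Complex.I := by
    push_cast
    ring
  rw [h, Complex.exp_ofReal_mul_I_im, Real.sin_pi_div_three]

theorem one_sub_om : 1 - om = Complex.exp (-(Real.pi * Complex.I / 3)) := by
  have h : (-(Real.pi * Complex.I / 3) : ℂ) = ((-(Real.pi / 3) : ℝ) : ℂ) * Complex.I := by
    push_cast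
    ring
  apply Complex.ext
  · rw [Complex.sub_re, om_re, h, Complex.exp_ofReal_mul_I_re, Real.cos_neg, Real.cos_pi_div_three]
    simp
    norm_num
  · rw [Complex.sub_im, om_im, h, Complex.exp_ofReal_mul_I_im, Real.sin_neg, Real.sin_pi_div_three]
    simp

theorem log_om : -Complex.log (1 - om) = Real.pi * Complex.I / 3 := by
  rw [one_sub_om, Complex.log_exp]
  · ring
  · simp
    linarith [Real.pi_pos]
  · simp
    linarith [Real.pi_pos]

theorem mem_CC_one : (Real.pi * Complex.I / 3 : ℂ) ∈ CC 1 := by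
  have h1 := isLi_one (N := 6) (by norm_num) om_pow om_ne
  rw [log_om] at h1
  exact Submodule.subset_span ⟨[1], by simp, by simp, by simp, h1⟩

theorem piI_ne : (Real.pi * Complex.I / 3 : ℂ) ≠ 0 := by
  have := Real.pi_ne_zero
  have h1 : (Real.pi : ℂ) ≠ 0 := by exact_mod_cast this
  exact div_ne_zero (mul_ne_zero h1 Complex.I_ne_zero) (by norm_num)

theorem CC_ne {w : ℕ} (hw : 1 ≤ w) : CC w ≠ ⊥ := by
  intro h
  have h1 := pow_mem_CC mem_CC_one w hw
  rw [h, Submodule.mem_bot] at h1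
  exact pow_ne_zero w piI_ne h1

theorem dimAlg_pos (V : Submodule ℚ ℂ) [FiniteDimensional ℚ V] (h : V ≠ ⊥) : 1 ≤ dimAlg V := by
  have i1 := span_finite V
  obtain ⟨x, hx, hx0⟩ := Submodule.exists_mem_ne_zero_of_ne_bot h
  have h1 : x ∈ Submodule.span KK (V : Set ℂ) := Submodule.subset_span hx
  have h2 : 0 < finrank KK (Submodule.span KK (V : Set ℂ)) := by
    rw [Module.finrank_pos_iff_exists_ne_zero]
    exact ⟨⟨x, h1⟩, fun h => hx0 (congrArg Subtype.val h)⟩
  exact h2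

theorem super_ZZ {N v w : ℕ} (hN : 2 ≤ N) (hv : 1 ≤ v) (hw : 1 ≤ w) :
    dimAlg (ZZ N v) + dimAlg (ZZ N w) ≤ dimAlg (ZZ N (v + w)) + 1 := by
  have i1 := ZZ_finite (N := N) (by omega) v
  have i2 := ZZ_finite (N := N) (by omega) w
  have i3 := ZZ_finite (N := N) (by omega) (v + w)
  exact super _ _ _ (ZZ_ne hN hv) (ZZ_ne hN hw) (ZZ_mul (by omega))

theorem super_CC {v w : ℕ} (hv : 1 ≤ v) (hw : 1 ≤ w) :
    dimAlg (CC v) + dimAlg (CC w) ≤ dimAlg (CC (v + w)) + 1 := by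
  have i1 := CC_finite v
  have i2 := CC_finite w
  have i3 := CC_finite (v + w)
  exact super _ _ _ (CC_ne hv) (CC_ne hw) (CC_mul hv)

theorem iter (D : ℕ → ℕ) (h1 : ∀ w, 1 ≤ w → 1 ≤ D w)
    (h2 : ∀ v w, 1 ≤ v → 1 ≤ w → D v + D w ≤ D (v + w) + 1) {u : ℕ} (hu : 1 ≤ u) :
    ∀ w, 1 ≤ w → w / u * (D u - 1) + 1 ≤ D w := by
  intro w
  induction w using Nat.strong_induction_on with
  | _ w ih =>
    intro hw
    rcases lt_trichotomy w u with h | h | h
    · rw [Nat.div_eq_of_lt h]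
      simpa using h1 w hw
    · subst h
      rw [Nat.div_self (by omega)]
      have := h1 w hw
      omega
    · have h3 := ih (w - u) (by omega) (by omega)
      have h4 := h2 (w - u) u (by omega) hu
      rw [Nat.sub_add_cancel h.le] at h4
      have h5 : w / u = (w - u) / u + 1 := by
        have h6 : w = (w - u) + u := (Nat.sub_add_cancel h.le).symm
        conv_lhs => rw [h6]
        exact Nat.add_div_right _ (by omega)
      rw [h5, add_mul, one_mul]
      have := h1 u hu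
      omega

theorem iter_ZZ {N u w : ℕ} (hN : 2 ≤ N) (hu : 1 ≤ u) (hw : 1 ≤ w) :
    w / u * (dimAlg (ZZ N u) - 1) + 1 ≤ dimAlg (ZZ N w) :=
  iter (fun w => dimAlg (ZZ N w)) (fun w hw => by
    have i1 := ZZ_finite (N := N) (by omega) w
    exact dimAlg_pos _ (ZZ_ne hN hw)) (fun _ _ hv hw => super_ZZ hN hv hw) hu w hw

theorem iter_CC {u w : ℕ} (hu : 1 ≤ u) (hw : 1 ≤ w) :
    w / u * (dimAlg (CC u) - 1) + 1 ≤ dimAlg (CC w) :=
  iter (fun w => dimAlg (CC w)) (fun w hw => by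
    have i1 := CC_finite w
    exact dimAlg_pos _ (CC_ne hw)) (fun _ _ hv hw => super_CC hv hw) hu w hw

theorem ZZ_one_le {N : ℕ} (hN : 1 ≤ N) : finrank ℚ (ZZ N 1) ≤ dimAlg (ZZ N 1) := by
  rw [ZZ_one hN]
  refine dimAlg_logs _ ?_ ?_
  · rintro x ⟨z, hz, hz1, rfl⟩
    rw [Complex.exp_neg, Complex.exp_log (sub_ne_zero.2 (Ne.symm hz1))]
    have h1 : IsAlgebraic ℚ z := by
      refine (IsIntegral.of_pow (show 0 < N by omega) ?_).isAlgebraic
      rw [hz]
      exact isIntegral_one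
    exact ((isAlgebraic_one).sub h1).inv
  · have h1 : {z : ℂ | z ^ N = 1}.Finite := by
      classical
      refine ((Polynomial.nthRoots N (1 : ℂ)).toFinset.finite_toSet).subset fun z hz => ?_
      simp only [Finset.mem_coe, Multiset.mem_toFinset]
      rw [Polynomial.mem_nthRoots (by omega)]
      exact hz
    refine (h1.image fun z => -Complex.log (1 - z)).subset ?_
    rintro x ⟨z, hz, hz1, rfl⟩
    exact ⟨z, hz, rfl⟩

end Pool.Agent.V8H82.MZ
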