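import Mathlib

/-!
# Products of finite-dimensional subspaces of a field over an algebraically closed subfield
-/

set_option autoImplicit false

namespace Pool.Agent.V8H82.MZ

open Module

variable {k L : Type*} [Field k] [Field L] [Algebra k L]

/-- an element `x` with `x B ⊆ B`, `B ≠ 0` finite-dimensional, is in the algebraically closed field `k` -/
theorem mem_base [IsAlgClosed k] (B : Submodule k L) [FiniteDimensional k B] (hB : B ≠ ⊥) (x : L)
    (h : ∀ b ∈ B, x * b ∈ B) : ∃ c : k, algebraMap k L c = x := by
  have : Nontrivial B := (Submodule.nontrivial_iff_ne_bot).2 hB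
  let f : End k B := ((LinearMap.mulLeft k x).domRestrict B).codRestrict B (fun b => h b.1 b.2)
  obtain ⟨c, hc⟩ := Module.End.exists_eigenvalue f
  obtain ⟨v, hv⟩ := hc.exists_hasEigenvector
  have h1 : f v = c • v := hv.apply_eq_smul
  have h2 : x * (v : L) = c • (v : L) := by
    have := congrArg Subtype.val h1
    simpa [f] using this
  have hv0 : (v : L) ≠ 0 := by
    intro h0
    exact hv.2 (Subtype.ext h0)
  refine ⟨c, ?_⟩
  rw [Algebra.smul_def] at h2
  exact (mul_right_cancel₀ hv0 h2).symm

/-- Let `A`, `B` be nonzero finite-dimensional subspaces of `L`. -/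
theorem kneser_one [IsAlgClosed k] : ∀ (n : ℕ) (A B : Submodule k L) [FiniteDimensional k A]
    [FiniteDimensional k B], finrank k A ≤ n → (1 : L) ∈ A → B ≠ ⊥ →
    finrank k A + finrank k B ≤ finrank k (A * B : Submodule k L) + 1 := by
  intro n
  induction n with
  | zero =>
    intro A B _ _ hA h1 hB
    exfalso
    have h2 : finrank k A = 0 := by omega
    have h3 : A = ⊥ := Submodule.finrank_eq_zero.1 h2
    rw [h3] at h1
    exact one_ne_zero ((Submodule.mem_bot k).1 h1)
  | succ n ih =>
    intro A B _ _ hA h1 hB
    have hAB : FiniteDimensional k (A * B : Submodule k L) := by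
      have hA' : A.FG := (Submodule.fg_iff_finiteDimensional A).2 inferInstance
      have hB' : B.FG := (Submodule.fg_iff_finiteDimensional B).2 inferInstance
      exact (Submodule.fg_iff_finiteDimensional _).1 (hA'.mul hB')
    by_cases hcl : ∀ e ∈ B, ∀ a ∈ A, a * e ∈ B
    · -- `A ⊆ k`
      have h2 : A ≤ Submodule.span k {(1 : L)} := by
        intro a ha
        obtain ⟨c, hc⟩ := mem_base B hB a (fun b hb => hcl b hb a ha)
        rw [Submodule.mem_span_singleton]
        exact ⟨c, by rw [Algebra.smul_def, mul_one, hc]⟩
      have h3 : finrank k A ≤ 1 :=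
        (Submodule.finrank_mono h2).trans (by
          simpa using finrank_span_le_card (R := k) ({(1 : L)} : Set L))
      have h4 : B ≤ A * B := by
        intro b hb
        have := Submodule.mul_mem_mul h1 hb
        rwa [one_mul] at this
      have h5 := Submodule.finrank_mono h4
      omega
    · push Not at hcl
      obtain ⟨e, he, a, ha, hae⟩ := hcl
      have he0 : e ≠ 0 := by
        rintro rfl
        exact hae (by rw [mul_zero]; exact B.zero_mem)
      -- `A' = {x ∈ A | x e ∈ B}`, `B' = B + A e`
      let m : L →ₗ[k] L := LinearMap.mulRight k e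
      have hm : Function.Injective m := fun x y hxy => mul_right_cancel₀ he0 hxy
      let A' : Submodule k L := A ⊓ B.comap m
      let B' : Submodule k L := B ⊔ A.map m
      have hA'le : A' ≤ A := inf_le_left
      have hA'lt : A' < A := by
        refine lt_of_le_of_ne hA'le fun h => hae ?_
        have : a ∈ A' := by rw [h]; exact ha
        exact this.2
      have : FiniteDimensional k A' := Submodule.finiteDimensional_of_le hA'le
      have : FiniteDimensional k (A.map m) := inferInstance
      have : FiniteDimensional k B' := inferInstance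
      have h1' : (1 : L) ∈ A' := ⟨h1, by
        show (1 : L) * e ∈ B
        rwa [one_mul]⟩
      have hB' : B' ≠ ⊥ := fun h => hB (le_bot_iff.1 (h ▸ le_sup_left))
      have hlt : finrank k A' < finrank k A := Submodule.finrank_lt_finrank_of_lt hA'lt
      have h6 := ih A' B' (by omega) h1' hB'
      have h7 : A' * B' ≤ A * B := by
        rw [Submodule.mul_le]
        intro x hx y hy
        obtain ⟨b, hb, c, hc, rfl⟩ := Submodule.mem_sup.1 hy
        obtain ⟨d, hd, rfl⟩ := hc
        rw [mul_add]
        refine (A * B).add_mem (Submodule.mul_mem_mul hx.1 hb) ?_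
        have h8 : x * m d = d * m x := by
          show x * (d * e) = d * (x * e)
          ring
        rw [h8]
        exact Submodule.mul_mem_mul hd hx.2
      have h8 := Submodule.finrank_mono h7
      -- dimensions
      have h9 : finrank k (A'.map m) = finrank k A' :=
        (LinearEquiv.finrank_eq (Submodule.equivMapOfInjective m hm A')).symm
      have h10 : finrank k (A.map m) = finrank k A :=
        (LinearEquiv.finrank_eq (Submodule.equivMapOfInjective m hm A)).symm
      have h11 : A'.map m = B ⊓ A.map m := by
        ext x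
        constructor
        · rintro ⟨y, hy, rfl⟩
          exact ⟨hy.2, ⟨y, hy.1, rfl⟩⟩
        · rintro ⟨hx, ⟨y, hy, rfl⟩⟩
          exact ⟨y, ⟨hy, hx⟩, rfl⟩
      have h12 := Submodule.finrank_sup_add_finrank_inf_eq B (A.map m)
      rw [← h11, h9, h10] at h12
      show finrank k A + finrank k B ≤ finrank k (A * B : Submodule k L) + 1
      have h13 : finrank k B' = finrank k (B ⊔ A.map m : Submodule k L) := rfl
      omega

/-- **Linear Kneser inequality.** -/
theorem kneser [IsAlgClosed k] (A B : Submodule k L) [FiniteDimensional k A]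
    [FiniteDimensional k B] (hA : A ≠ ⊥) (hB : B ≠ ⊥) :
    finrank k A + finrank k B ≤ finrank k (A * B : Submodule k L) + 1 := by
  obtain ⟨a, ha, ha0⟩ := Submodule.exists_mem_ne_zero_of_ne_bot hA
  let m : L →ₗ[k] L := LinearMap.mulLeft k a⁻¹
  have hm : Function.Injective m := fun x y hxy => mul_left_cancel₀ (inv_ne_zero ha0) hxy
  have h1 : (1 : L) ∈ A.map m := ⟨a, ha, by
    show a⁻¹ * a = 1
    exact inv_mul_cancel₀ ha0⟩
  have h2 := kneser_one (finrank k (A.map m)) (A.map m) B le_rfl h1 hB
  have h3 : finrank k (A.map m) = finrank k A :=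
    (LinearEquiv.finrank_eq (Submodule.equivMapOfInjective m hm A)).symm
  have h4 : A.map m * B = (A * B).map m := by
    apply le_antisymm
    · rw [Submodule.mul_le]
      rintro x ⟨y, hy, rfl⟩ b hb
      exact ⟨y * b, Submodule.mul_mem_mul hy hb, by
        show a⁻¹ * (y * b) = a⁻¹ * y * b
        ring⟩
    · rw [Submodule.map_le_iff_le_comap, Submodule.mul_le]
      intro y hy b hb
      show a⁻¹ * (y * b) ∈ A.map m * B
      rw [← mul_assoc]
      exact Submodule.mul_mem_mul ⟨y, hy, rfl⟩ hb
  have h5 : finrank k ((A * B).map m : Submodule k L) = finrank k (A * B : Submodule k L) :=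
    (LinearEquiv.finrank_eq (Submodule.equivMapOfInjective m hm _)).symm
  rw [h4, h5, h3] at h2
  exact h2

end Pool.Agent.V8H82.MZ
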