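import Pool.Agent.V8H82.MZ.Low

/-!
# The substitution `z / (z - 1)`: the space of multiple Clausen values is closed under conjugation
-/

set_option autoImplicit false

namespace Pool.Agent.V8H82.MZ

open Filter Topology Module PowerSeries
open scoped Pointwise

/-- the value of a power series -/
noncomputable def val (f : PowerSeries ℂ) (z : ℂ) : ℂ := ∑' n, PowerSeries.coeff n f * z ^ n

theorem F_eq_val (u : List Bool) (z : ℂ) : F u z = val (P u) z := rfl

theorem val_mul {f g : PowerSeries ℂ} {z : ℂ} (hf : Summable fun n => ‖PowerSeries.coeff n f * z ^ n‖)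
    (hg : Summable fun n => ‖PowerSeries.coeff n g * z ^ n‖) : val (f * g) z = val f z * val g z := by
  unfold val
  rw [tsum_mul_tsum_eq_tsum_sum_antidiagonal_of_summable_norm hf hg]
  refine tsum_congr fun n => ?_
  rw [PowerSeries.coeff_mul, Finset.sum_mul]
  refine Finset.sum_congr rfl fun p hp => ?_
  have hp := Finset.HasAntidiagonal.mem_antidiagonal.1 hp
  rw [← hp, pow_add]
  ring

/-- the factors -/
noncomputable def phi : Bool → ℂ → ℂ
  | false, _ => 1
  | true, z => z / (1 - z)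

theorem coeff_frm_true (n : ℕ) : PowerSeries.coeff n (frm true) = if n = 0 then 0 else 1 := by
  simp [frm]

theorem summ_frm (b : Bool) {z : ℂ} (hz : ‖z‖ < 1) :
    Summable fun n => ‖PowerSeries.coeff n (frm b) * z ^ n‖ := by
  refine Summable.of_nonneg_of_le (fun n => norm_nonneg _) (fun n => ?_)
    (summable_geometric_of_lt_one (norm_nonneg z) hz)
  rw [norm_mul, norm_pow]
  have h1 : ‖PowerSeries.coeff n (frm b)‖ ≤ 1 := by
    cases b
    · simp only [frm, PowerSeries.coeff_one]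
      split_ifs <;> simp
    · rw [coeff_frm_true]
      split_ifs <;> simp
  calc ‖PowerSeries.coeff n (frm b)‖ * ‖z‖ ^ n ≤ 1 * ‖z‖ ^ n := by gcongr
    _ = ‖z‖ ^ n := one_mul _

theorem val_frm (b : Bool) {z : ℂ} (hz : ‖z‖ < 1) : val (frm b) z = phi b z := by
  have h1 : (1 : ℂ) - z ≠ 0 := by
    intro h
    have : z = 1 := by linear_combination -h
    rw [this, norm_one] at hz
    exact lt_irrefl _ hz
  cases b
  · show ∑' n, PowerSeries.coeff n (1 : PowerSeries ℂ) * z ^ n = 1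
    rw [tsum_eq_single 0]
    · simp
    · intro n hn
      rw [PowerSeries.coeff_one, if_neg hn, zero_mul]
  · show ∑' n, PowerSeries.coeff n (frm true) * z ^ n = z / (1 - z)
    have h2 := (summ_frm true hz).of_norm.hasSum
    have h3 : HasSum (fun n : ℕ => z ^ n) (1 - z)⁻¹ := hasSum_geometric_of_norm_lt_one hz
    have h4 : HasSum (fun n : ℕ => if n = 0 then (1 : ℂ) else 0) 1 := hasSum_ite_eq 0 1
    have h5 := h3.sub h4
    have h6 : (fun n => PowerSeries.coeff n (frm true) * z ^ n) =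
        fun n : ℕ => z ^ n - if n = 0 then (1 : ℂ) else 0 := by
      funext n
      rw [coeff_frm_true]
      split_ifs with h
      · rw [h]
        simp
      · simp
    rw [h6, h5.tsum_eq]
    field_simp
    ring

theorem deriv_F (u : List Bool) {z : ℂ} (hz : ‖z‖ < 1) :
    HasDerivAt (F u) (∑' n : ℕ, PowerSeries.coeff n (P u) * ((n : ℂ) * z ^ (n - 1))) z := by
  obtain ⟨r, hr1, hr2⟩ := exists_between hz
  have hr0 : 0 < r := (norm_nonneg z).trans_lt hr1
  have hs : Summable fun n : ℕ => (n : ℝ) * r ^ (n - 1) := by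
    have h1 := summable_pow_mul_geometric_of_norm_lt_one 1 (r := r)
      (by rw [Real.norm_eq_abs, abs_of_pos hr0]; exact hr2)
    refine (h1.mul_left r⁻¹).congr fun n => ?_
    rcases Nat.eq_zero_or_pos n with rfl | hn
    · simp
    · obtain ⟨m, rfl⟩ : ∃ m, n = m + 1 := ⟨n - 1, (Nat.sub_add_cancel hn).symm⟩
      rw [Nat.add_sub_cancel, pow_one, pow_succ]
      field_simp
  refine hasDerivAt_tsum_of_isPreconnected (g := fun (n : ℕ) (z : ℂ) => PowerSeries.coeff n (P u) * z ^ n)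
    (g' := fun (n : ℕ) (z : ℂ) => PowerSeries.coeff n (P u) * ((n : ℂ) * z ^ (n - 1)))
    (y₀ := (0 : ℂ)) (t := Metric.ball (0 : ℂ) r) hs Metric.isOpen_ball
    (convex_ball (0 : ℂ) r).isPreconnected (fun n y _ => ?_) (fun n y hy => ?_)
    (Metric.mem_ball_self hr0) ?_ ?_
  · exact (hasDerivAt_pow n y).const_mul _
  · rw [norm_mul, norm_mul, norm_pow, Complex.norm_natCast]
    have h2 : ‖y‖ ≤ r := (mem_ball_zero_iff.1 hy).le
    calc ‖PowerSeries.coeff n (P u)‖ * ((n : ℝ) * ‖y‖ ^ (n - 1)) ≤ 1 * ((n : ℝ) * r ^ (n - 1)) := by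
          gcongr
          exact coeff_le u n
      _ = _ := one_mul _
  · exact (summ (u := u) (z := 0) (by simp)).of_norm
  · exact mem_ball_zero_iff.2 hr1

theorem deriv_F_cons {b : Bool} {u : List Bool} (h : Good (b :: u)) {z : ℂ} (hz : ‖z‖ < 1)
    (h0 : z ≠ 0) : HasDerivAt (F (b :: u)) (phi b z * F u z / z) z := by
  have h1 := deriv_F (b :: u) hz
  have h2 : ∑' n : ℕ, PowerSeries.coeff n (P (b :: u)) * ((n : ℂ) * z ^ (n - 1)) =
      phi b z * F u z / z := by
    rw [← val_frm b hz, F_eq_val, ← val_mul (summ_frm b hz) (summ hz), ← th_P h]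
    unfold val
    rw [div_eq_mul_inv, ← tsum_mul_right]
    refine tsum_congr fun n => ?_
    rw [coeff_th]
    rcases Nat.eq_zero_or_pos n with rfl | hn
    · simp
    · obtain ⟨m, rfl⟩ : ∃ m, n = m + 1 := ⟨n - 1, (Nat.sub_add_cancel hn).symm⟩
      rw [Nat.add_sub_cancel, pow_succ]
      field_simp
  rw [h2] at h1
  exact h1

theorem F_zero {u : List Bool} (h : u ≠ []) : F u 0 = 0 := by
  unfold F
  rw [tsum_eq_single 0]
  · rw [P_zero h, zero_mul]
  · intro n hn
    rw [zero_pow hn, mul_zero]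

theorem F_cont (u : List Bool) : ContinuousAt (F u) 0 := (deriv_F u (z := 0) (by simp)).continuousAt

/-- derivative along a path -/
theorem path_deriv {b : Bool} {u : List Bool} (h : Good (b :: u)) {g : ℝ → ℂ} {g' : ℂ} {t : ℝ}
    (hg : HasDerivAt g g' t) (hz : ‖g t‖ < 1) (h0 : g t ≠ 0) :
    HasDerivAt (fun s => F (b :: u) (g s)) (phi b (g t) * F u (g t) / g t * g') t := by
  have h1 := (deriv_F_cons h hz h0).hasFDerivAt.restrictScalars ℝ
  have h2 := h1.comp_hasDerivAt t hg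
  refine h2.congr_deriv ?_
  simp [mul_comm]

/-- derivative of a list sum -/
theorem list_deriv {α : Type} {t : ℝ} (g : α → ℝ → ℂ) (g' : α → ℂ) : ∀ L : List α,
    (∀ p ∈ L, HasDerivAt (g p) (g' p) t) →
    HasDerivAt (fun s => (L.map fun p => g p s).sum) ((L.map g').sum) t
  | [], _ => by simpa using hasDerivAt_const t (0 : ℂ)
  | p :: L, h => by
    simp only [List.map_cons, List.sum_cons]
    exact (h p List.mem_cons_self).add
      (list_deriv g g' L fun q hq => h q (List.mem_cons_of_mem _ hq))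

theorem om_sq : om ^ 2 = om - 1 := by
  have h1 : (om + 1) * (om ^ 2 - om + 1) = 0 := by linear_combination om_cube
  rcases mul_eq_zero.1 h1 with h | h
  · have h2 := congrArg Complex.re h
    rw [Complex.add_re, om_re] at h2
    norm_num at h2
  · linear_combination h

theorem om_ne_zero : om ≠ 0 := Complex.exp_ne_zero _

theorem norm_om_one : ‖om‖ = 1 := by
  have h1 : ‖om‖ ^ 6 = 1 := by rw [← norm_pow, om_pow, norm_one]
  exact (pow_eq_one_iff_of_nonneg (norm_nonneg _) (by norm_num)).1 h1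

theorem conj_om : starRingEnd ℂ om = 1 - om := by
  apply Complex.ext
  · rw [Complex.conj_re, Complex.sub_re, om_re]
    norm_num
  · rw [Complex.conj_im, Complex.sub_im]
    simp

/-- the distance of `ω t` from one -/
theorem norm_sub_sq (t : ℝ) : ‖om * (t : ℂ) - 1‖ ^ 2 = t ^ 2 - t + 1 := by
  rw [← Complex.normSq_eq_norm_sq, Complex.normSq_apply]
  have h1 : (om * (t : ℂ) - 1).re = t / 2 - 1 := by
    rw [Complex.sub_re, Complex.re_mul_ofReal, om_re]
    simp
    ring
  have h2 : (om * (t : ℂ) - 1).im = Real.sqrt 3 / 2 * t := by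
    rw [Complex.sub_im, Complex.im_mul_ofReal, om_im]
    simp
  rw [h1, h2]
  have h3 : Real.sqrt 3 * Real.sqrt 3 = 3 := Real.mul_self_sqrt (by norm_num)
  nlinarith [h3]

theorem sub_ne (t : ℝ) : om * (t : ℂ) - 1 ≠ 0 := by
  intro h
  have h1 := norm_sub_sq t
  rw [h, norm_zero] at h1
  nlinarith [sq_nonneg (t - 1 / 2)]

/-- the first path -/
noncomputable def ga (t : ℝ) : ℂ := om * (t : ℂ)

/-- the second path -/
noncomputable def gb (t : ℝ) : ℂ := om * (t : ℂ) / (om * (t : ℂ) - 1)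

theorem ga_norm {t : ℝ} (h : t ∈ Set.Ioo (0 : ℝ) 1) : ‖ga t‖ < 1 := by
  unfold ga
  rw [norm_mul, norm_om_one, one_mul, Complex.norm_real, Real.norm_eq_abs, abs_of_pos h.1]
  exact h.2

theorem ga_ne {t : ℝ} (h : t ∈ Set.Ioo (0 : ℝ) 1) : ga t ≠ 0 :=
  mul_ne_zero om_ne_zero (by exact_mod_cast h.1.ne')

theorem gb_norm {t : ℝ} (h : t ∈ Set.Ioo (0 : ℝ) 1) : ‖gb t‖ < 1 := by
  unfold gb
  rw [norm_div, norm_mul, norm_om_one, one_mul, Complex.norm_real, Real.norm_eq_abs, abs_of_pos h.1,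
    div_lt_one (norm_pos_iff.2 (sub_ne t))]
  refine lt_of_pow_lt_pow_left₀ 2 (norm_nonneg _) ?_
  rw [norm_sub_sq]
  linarith [h.2]

theorem gb_ne {t : ℝ} (h : t ∈ Set.Ioo (0 : ℝ) 1) : gb t ≠ 0 :=
  div_ne_zero (ga_ne h) (sub_ne t)

theorem ga_deriv (t : ℝ) : HasDerivAt ga om t := by
  have h1 : HasDerivAt (fun s : ℝ => (s : ℂ)) 1 t := Complex.ofRealCLM.hasDerivAt
  have h2 := h1.const_mul om
  rw [mul_one] at h2
  exact h2

theorem gb_deriv (t : ℝ) : HasDerivAt gb (-om / (om * (t : ℂ) - 1) ^ 2) t := by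
  have h1 := ga_deriv t
  have h2 := h1.div (h1.sub_const 1) (sub_ne t)
  refine h2.congr_deriv ?_
  congr 1
  show om * (om * (t : ℂ) - 1) - om * (t : ℂ) * om = -om
  ring

/-- the coefficient of the first path -/
noncomputable def co : Bool → ℝ → ℂ
  | false, t => 1 / (t : ℂ)
  | true, t => om / (1 - om * (t : ℂ))

theorem co_a (b : Bool) {t : ℝ} (h : t ∈ Set.Ioo (0 : ℝ) 1) (y : ℂ) :
    phi b (ga t) * y / ga t * om = co b t * y := by
  have h1 := ga_ne h
  have h2 := sub_ne t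
  have h3 : (1 : ℂ) - om * (t : ℂ) ≠ 0 := fun hc => h2 (by linear_combination -hc)
  have h4 : (t : ℂ) ≠ 0 := by exact_mod_cast h.1.ne'
  have h5 := om_ne_zero
  cases b
  · simp only [phi, co, ga]
    field_simp
  · simp only [phi, co, ga]
    field_simp

theorem co_b_true {t : ℝ} (h : t ∈ Set.Ioo (0 : ℝ) 1) (y : ℂ) :
    phi true (gb t) * y / gb t * (-om / (om * (t : ℂ) - 1) ^ 2) = -(co true t * y) := by
  have h2 := sub_ne t
  have h3 : (1 : ℂ) - om * (t : ℂ) ≠ 0 := fun hc => h2 (by linear_combination -hc)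
  have h4 : (t : ℂ) ≠ 0 := by exact_mod_cast h.1.ne'
  have h5 := om_ne_zero
  have h6 : 1 - om * (t : ℂ) / (om * (t : ℂ) - 1) = 1 / (1 - om * (t : ℂ)) := by
    rw [eq_div_iff h3, sub_mul, one_mul, div_mul_eq_mul_div, sub_eq_iff_eq_add, eq_comm]
    have : om * (t : ℂ) * (1 - om * (t : ℂ)) = -(om * (t : ℂ)) * (om * (t : ℂ) - 1) := by ring
    rw [this, mul_div_assoc, div_self h2]
    ring
  simp only [phi, co, gb]
  rw [h6]
  have h7 : (om * (t : ℂ) - 1) = -(1 - om * (t : ℂ)) := by ring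
  rw [h7]
  field_simp

theorem co_b_false {t : ℝ} (h : t ∈ Set.Ioo (0 : ℝ) 1) (y : ℂ) :
    phi false (gb t) * y / gb t * (-om / (om * (t : ℂ) - 1) ^ 2) = co false t * y + co true t * y := by
  have h2 := sub_ne t
  have h3 : (1 : ℂ) - om * (t : ℂ) ≠ 0 := fun hc => h2 (by linear_combination -hc)
  have h4 : (t : ℂ) ≠ 0 := by exact_mod_cast h.1.ne'
  have h5 := om_ne_zero
  simp only [phi, co, gb]
  have h7 : (om * (t : ℂ) - 1) = -(1 - om * (t : ℂ)) := by ring
  rw [h7]
  field_simp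
  ring

end Pool.Agent.V8H82.MZ
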