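import Pool.Agent.V8H82.MZ.Space
import Pool.Agent.H297R2.BakerThm

/-!
# Weight one, and the powers of the logarithm of two and of pi
-/

set_option autoImplicit false

namespace Pool.Agent.V8H82.MZ

open Filter Topology Module
open scoped Pointwise

theorem re_lt_one {N : ℕ} (hN : 1 ≤ N) {z : ℂ} (h : z ^ N = 1) (h1 : z ≠ 1) : z.re < 1 := by
  have h2 : ‖z‖ ≤ 1 := norm_root hN h
  have h3 : z.re ≤ ‖z‖ := Complex.re_le_norm z
  refine lt_of_le_of_ne (h3.trans h2) fun h4 => h1 ?_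
  have h5 : z.re ^ 2 + z.im ^ 2 ≤ 1 := by
    have h6 : ‖z‖ ^ 2 ≤ 1 := pow_le_one₀ (norm_nonneg _) h2
    rw [← Complex.normSq_eq_norm_sq, Complex.normSq_apply] at h6
    nlinarith
  have h7 : z.im = 0 := by
    rw [h4] at h5
    nlinarith [sq_nonneg z.im]
  exact Complex.ext (by simpa using h4) (by simpa using h7)

/-- Abel summation: a convergent series of powers of a point of the closed disc -/
theorem abel_log {z y : ℂ} (hz : ‖z‖ ≤ 1) (hre : z.re < 1)
    (h : Tendsto (fun m => ∑ j ∈ Finset.range m, z ^ (j + 1) / ((j + 1 : ℕ) : ℂ)) atTop (𝓝 y)) :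
    y = -Complex.log (1 - z) := by
  have h1 : Tendsto (fun n => ∑ i ∈ Finset.range n, z ^ i / (i : ℂ)) atTop (𝓝 y) := by
    rw [← tendsto_add_atTop_iff_nat 1]
    refine h.congr fun m => ?_
    rw [Finset.sum_range_succ']
    simp
  have h2 := Complex.tendsto_tsum_powerSeries_nhdsWithin_lt h1
  rw [tendsto_map'_iff] at h2
  have h3 : Tendsto (fun t : ℝ => -Complex.log (1 - z * (t : ℂ))) (𝓝[<] 1)
      (𝓝 (-Complex.log (1 - z))) := by
    have h4 : ContinuousAt (fun t : ℝ => -Complex.log (1 - z * (t : ℂ))) 1 := by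
      have h5 : (1 - z * ((1 : ℝ) : ℂ)) ∈ Complex.slitPlane := by
        rw [Complex.mem_slitPlane_iff]
        left
        simp
        exact hre
      refine ContinuousAt.neg (ContinuousAt.clog ?_ h5)
      fun_prop
    have h6 := h4.tendsto
    simp only [Complex.ofReal_one, mul_one] at h6
    exact h6.mono_left nhdsWithin_le_nhds
  refine tendsto_nhds_unique (h2.congr' ?_) h3
  have h7 : ∀ᶠ t : ℝ in 𝓝[<] 1, 0 < t := by
    have : Set.Ioo (0 : ℝ) 1 ∈ 𝓝[<] (1 : ℝ) := Ioo_mem_nhdsLT (by norm_num)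
    filter_upwards [this] with t ht using ht.1
  filter_upwards [h7, self_mem_nhdsWithin] with t ht ht1
  have h8 : ‖z * (t : ℂ)‖ < 1 := by
    rw [norm_mul, Complex.norm_real, Real.norm_eq_abs, abs_of_pos ht]
    have : t < 1 := ht1
    calc ‖z‖ * t ≤ 1 * t := by gcongr
      _ < 1 := by linarith
  have h9 := (Complex.hasSum_taylorSeries_neg_log h8).tsum_eq
  rw [← h9]
  refine tsum_congr fun n => ?_
  show z ^ n / (n : ℂ) * (t : ℂ) ^ n = (z * t) ^ n / (n : ℂ)
  rw [mul_pow]
  ring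

theorem trunc_one (z : ℂ) (m : ℕ) :
    trunc [(1, z)] m = ∑ j ∈ Finset.range m, z ^ (j + 1) / ((j + 1 : ℕ) : ℂ) := by
  simp [trunc]

theorem isLi_one {N : ℕ} (hN : 1 ≤ N) {z : ℂ} (h : z ^ N = 1) (h1 : z ≠ 1) :
    IsLi [(1, z)] (-Complex.log (1 - z)) := by
  have ha : Admissible N [(1, z)] := by
    refine ⟨fun x hx => ?_, _, _, rfl, fun hc => h1 (congrArg Prod.snd hc)⟩
    rw [List.mem_singleton] at hx
    subst hx
    exact ⟨le_rfl, h⟩
  obtain ⟨y, hy⟩ := conv_adm hN ha
  have hy2 := hy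
  unfold IsLi at hy2
  have h2 : Tendsto (fun m => ∑ j ∈ Finset.range m, z ^ (j + 1) / ((j + 1 : ℕ) : ℂ)) atTop (𝓝 y) :=
    hy2.congr fun m => trunc_one z m
  rw [← abel_log (norm_root hN h) (re_lt_one hN h h1) h2]
  exact hy

/-- the generators of weight one -/
theorem ZZ_one {N : ℕ} (hN : 1 ≤ N) : ZZ N 1 =
    Submodule.span ℚ {x | ∃ z : ℂ, z ^ N = 1 ∧ z ≠ 1 ∧ x = -Complex.log (1 - z)} := by
  unfold ZZ
  congr 1
  ext x
  constructor
  · rintro ⟨l, hl, hw, hx⟩
    obtain ⟨h0, y, l', rfl, hy⟩ := hl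
    have hW : Wd N 1 (y :: l') := ⟨h0, hw⟩
    obtain ⟨hy1, hy2, hy3, hy4⟩ := hW.head
    have h1 : y.1 = 1 := by omega
    have h2 : l' = [] := by
      rcases l' with _ | ⟨a, l'⟩
      · rfl
      · have h3 := (hy3.1 a List.mem_cons_self).1
        rw [weight_cons] at hy4
        omega
    subst h2
    obtain ⟨a, z⟩ := y
    simp only at h1 hy2
    subst h1
    have hz : z ≠ 1 := fun h => hy (by rw [h])
    exact ⟨z, hy2, hz, tendsto_nhds_unique hx (isLi_one hN hy2 hz)⟩
  · rintro ⟨z, hz, hz1, rfl⟩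
    refine ⟨[(1, z)], ⟨fun x hx => ?_, _, _, rfl, fun hc => hz1 (congrArg Prod.snd hc)⟩, ?_,
      isLi_one hN hz hz1⟩
    · rw [List.mem_singleton] at hx
      subst hx
      exact ⟨le_rfl, hz⟩
    · simp [weight]

theorem mem_KK {x : ℂ} : x ∈ KK ↔ IsAlgebraic ℚ x := mem_algebraicClosure_iff'.trans
  isAlgebraic_iff_isIntegral.symm

/-- for a space spanned by logarithms of algebraic numbers the two dimensions agree -/
theorem dimAlg_logs (s : Set ℂ) (hs : ∀ x ∈ s, IsAlgebraic ℚ (Complex.exp x)) (hf : s.Finite) :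
    finrank ℚ (Submodule.span ℚ s) ≤ dimAlg (Submodule.span ℚ s) := by
  obtain ⟨b, hb, hb2, hb3⟩ := exists_linearIndependent ℚ s
  have hbf : b.Finite := hf.subset hb
  have : Fintype b := hbf.fintype
  have h1 : LinearIndependent KK (Subtype.val : b → ℂ) := by
    rw [Fintype.linearIndependent_iff]
    intro g hg i
    have h2 := Pool.Agent.H297R2.baker (ι := b) Subtype.val (fun i => hs _ (hb i.2)) hb3
      (fun i => (g i : ℂ)) (fun i => mem_KK.1 (g i).2) (by
        rw [← hg]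
        exact Finset.sum_congr rfl fun j _ => (Algebra.smul_def (g j) (j : ℂ)).symm ▸ rfl) i
    exact Subtype.ext h2
  have i0 : FiniteDimensional ℚ (Submodule.span ℚ s) := FiniteDimensional.span_of_finite ℚ hf
  have i1 := span_finite (Submodule.span ℚ s)
  have h3 : finrank KK (Submodule.span KK (Set.range (Subtype.val : b → ℂ))) = Fintype.card b :=
    finrank_span_eq_card h1
  have h4 : finrank ℚ (Submodule.span ℚ (Set.range (Subtype.val : b → ℂ))) = Fintype.card b :=
    finrank_span_eq_card hb3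
  rw [Subtype.range_coe] at h3 h4
  have h5 : Submodule.span KK b ≤ Submodule.span KK ((Submodule.span ℚ s : Submodule ℚ ℂ) : Set ℂ) := by
    refine Submodule.span_mono fun x hx => ?_
    exact Submodule.subset_span (hb hx)
  have h6 := Submodule.finrank_mono h5
  rw [hb2] at h4
  have h7 : finrank ℚ (Submodule.span ℚ s) ≤
      finrank KK (Submodule.span KK ((Submodule.span ℚ s : Submodule ℚ ℂ) : Set ℂ)) := by
    omega
  exact h7

end Pool.Agent.V8H82.MZ
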