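import Pool.Agent.V8H82.MZ.Bounded

/-!
# The spaces of multiple Clausen values have dimension at least two from weight two on
-/

set_option autoImplicit false

namespace Pool.Agent.V8H82.MZ

open Filter Topology Module
open scoped Pointwise

theorem clausen_two (m : ℕ) : trunc (clausen [2]) m =
    ∑ j ∈ Finset.range m, om ^ (j + 1) / ((j + 1 : ℕ) : ℂ) ^ 2 := by
  simp only [clausen, trunc, List.map_nil, mul_one]
  rfl

theorem norm_om : ‖om‖ ≤ 1 := norm_root (by norm_num) om_pow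

theorem partial_two (m : ℕ) : ‖trunc (clausen [2]) (m + 1) - om‖ ≤ Real.pi ^ 2 / 6 - 1 := by
  rw [clausen_two, Finset.sum_range_succ']
  have h0 : om ^ (0 + 1) / ((0 + 1 : ℕ) : ℂ) ^ 2 = om := by simp
  rw [h0, add_sub_cancel_right]
  refine (norm_sum_le _ _).trans ?_
  have h1 : ∀ j ∈ Finset.range m, ‖om ^ (j + 1 + 1) / ((j + 1 + 1 : ℕ) : ℂ) ^ 2‖ ≤
      1 / ((j + 2 : ℕ) : ℝ) ^ 2 := by
    intro j _
    rw [norm_div, norm_pow, norm_pow, Complex.norm_natCast]
    gcongr
    exact pow_le_one₀ (norm_nonneg _) norm_om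
  refine (Finset.sum_le_sum h1).trans ?_
  have h2 : ∑ j ∈ Finset.range (m + 2), 1 / ((j : ℕ) : ℝ) ^ 2 ≤ Real.pi ^ 2 / 6 :=
    sum_le_hasSum _ (fun j _ => by positivity) hasSum_zeta_two
  rw [Finset.sum_range_succ', Finset.sum_range_succ'] at h2
  simp only [Nat.cast_zero, zero_add, Nat.cast_one] at h2
  norm_num at h2
  have h3 : ∑ j ∈ Finset.range m, 1 / ((j + 2 : ℕ) : ℝ) ^ 2 =
      ∑ x ∈ Finset.range m, (((x : ℝ) + 1 + 1) ^ 2)⁻¹ := by
    refine Finset.sum_congr rfl fun j _ => ?_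
    push_cast
    rw [one_div]
    congr 2
    ring
  rw [h3]
  linarith

theorem im_two {x : ℂ} (hx : IsLi (clausen [2]) x) : 0 < x.im := by
  have h1 : ‖x - om‖ ≤ Real.pi ^ 2 / 6 - 1 := by
    have h2 : Tendsto (fun m => ‖trunc (clausen [2]) (m + 1) - om‖) atTop (𝓝 ‖x - om‖) :=
      ((hx.comp (tendsto_add_atTop_nat 1)).sub_const om).norm
    exact le_of_tendsto' h2 partial_two
  have h3 : |(x - om).im| ≤ ‖x - om‖ := Complex.abs_im_le_norm _
  rw [Complex.sub_im, om_im] at h3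
  have h4 := (abs_le.1 (h3.trans h1)).1
  have h5 : (1.732 : ℝ) ≤ Real.sqrt 3 := by
    apply Real.le_sqrt_of_sq_le
    norm_num
  have h6 : Real.pi < 3.142 := Real.pi_lt_d4.trans_le (by norm_num)
  have h7 : Real.pi ^ 2 < 3.142 ^ 2 := by
    have := Real.pi_pos
    gcongr
  have h8 : (3.142 : ℝ) ^ 2 / 6 - 1 < 1.732 / 2 := by norm_num
  linarith

theorem two_le_BB : 2 ≤ finrank ℚ (BB 2) := by
  have i1 := (BB_finite 2).1
  obtain ⟨x, hx⟩ := conv_adm (by norm_num) (adm_clausen (a := [2]) (by simp) (by simp))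
  have hm : x ∈ CC 2 := Submodule.subset_span ⟨[2], by simp, by simp, by simp, hx⟩
  have hb : x / qq ^ 2 ∈ BB 2 := by
    rw [mem_BB, div_mul_cancel₀ _ (pow_ne_zero 2 qq_ne)]
    exact hm
  have him : (x / qq ^ 2).im ≠ 0 := by
    have h1 : qq ^ 2 = ((-(Real.pi ^ 2) : ℝ) : ℂ) := by
      unfold qq
      rw [mul_pow, Complex.I_sq]
      push_cast
      ring
    rw [h1, Complex.div_ofReal_im]
    have h2 := im_two hx
    have h3 : -(Real.pi ^ 2) ≠ 0 := neg_ne_zero.2 (pow_ne_zero 2 Real.pi_ne_zero)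
    exact div_ne_zero h2.ne' h3
  have h1 : LinearIndependent ℚ ![(1 : ℂ), x / qq ^ 2] := by
    rw [LinearIndependent.pair_iff]
    intro s t hst
    generalize x / qq ^ 2 = y at hst him
    have e1 : s • (1 : ℂ) + t • y = ((s : ℝ) : ℂ) + ((t : ℝ) : ℂ) * y := by
      rw [Algebra.smul_def, Algebra.smul_def]
      simp
    rw [e1] at hst
    have h2 := congrArg Complex.im hst
    have h3 := congrArg Complex.re hst
    simp only [Complex.add_im, Complex.ofReal_im, Complex.im_ofReal_mul, Complex.zero_im, zero_add,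
      Complex.add_re, Complex.ofReal_re, Complex.re_ofReal_mul, Complex.zero_re] at h2 h3
    have h4 : (t : ℝ) = 0 := by
      rcases mul_eq_zero.1 h2 with h | h
      · exact h
      · exact absurd h him
    rw [h4, zero_mul, add_zero] at h3
    exact ⟨by exact_mod_cast h3, by exact_mod_cast h4⟩
  have h2 := finrank_span_eq_card h1
  rw [Fintype.card_fin] at h2
  have h3 : Submodule.span ℚ (Set.range ![(1 : ℂ), x / qq ^ 2]) ≤ BB 2 := by
    rw [Submodule.span_le]
    rintro _ ⟨i, rfl⟩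
    fin_cases i
    · exact one_mem_BB (by norm_num)
    · exact hb
  have h4 := Submodule.finrank_mono h3
  omega

theorem two_le_CC {w : ℕ} (hw : 2 ≤ w) : 2 ≤ finrank ℚ (CC w) := by
  have i1 := (BB_finite w).1
  exact two_le_BB.trans ((Submodule.finrank_mono (BB_mono (by norm_num) hw)).trans (BB_finite w).2)

end Pool.Agent.V8H82.MZ
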