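import Pool.Agent.V8H82.MZ.Primes

/-!
# Alternating sums which are polynomials in the logarithm of two and the square of pi
-/

set_option autoImplicit false

namespace Pool.Agent.V8H82.MZ

open Filter Topology Module
open scoped Pointwise

instance algKK : Algebra.IsAlgebraic ℚ KK := (algebraicClosure.isAlgClosure ℚ ℂ).isAlgebraic

/-- the logarithm of two -/
noncomputable def ell : ℂ := ((Real.log 2 : ℝ) : ℂ)

theorem ell_ne : ell ≠ 0 := by
  have := (Real.log_pos (show (1 : ℝ) < 2 by norm_num)).ne'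
  unfold ell
  exact_mod_cast this

theorem trans_quot : Transcendental KK (((Real.pi : ℂ) / ell) ^ 2) := by
  intro h
  have h1 : IsAlgebraic ℚ (((Real.pi : ℂ) / ell) ^ 2) := h.restrictScalars ℚ
  have h2 : IsAlgebraic ℚ ((Real.pi : ℂ) / ell) := IsAlgebraic.of_pow (by norm_num) h1
  refine pi_log h2 ?_
  show (Real.pi : ℂ) = (Real.pi : ℂ) / ell * ell
  rw [div_mul_cancel₀ _ ell_ne]

/-- the monomials of weight `u` -/
noncomputable def mono (u : ℕ) (j : Fin (u / 2 + 1)) : ℂ := ell ^ (u - 2 * j) * (Real.pi : ℂ) ^ (2 * (j : ℕ))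

theorem mono_indep (u : ℕ) : LinearIndependent KK (mono u) := by
  rw [Fintype.linearIndependent_iff]
  intro g hg
  let p : Polynomial KK := ∑ j : Fin (u / 2 + 1), Polynomial.monomial (j : ℕ) (g j)
  have h1 : Polynomial.aeval (((Real.pi : ℂ) / ell) ^ 2) p = 0 := by
    simp only [p, map_sum, Polynomial.aeval_monomial]
    have h2 : ell ^ u * ∑ j : Fin (u / 2 + 1), algebraMap KK ℂ (g j) *
        (((Real.pi : ℂ) / ell) ^ 2) ^ (j : ℕ) = 0 := by
      rw [← hg, Finset.mul_sum]
      refine Finset.sum_congr rfl fun j _ => ?_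
      rw [Algebra.smul_def]
      unfold mono
      have hj : 2 * (j : ℕ) ≤ u := by
        have := j.2
        omega
      have h3 : ell ^ u = ell ^ (u - 2 * (j : ℕ)) * ell ^ (2 * (j : ℕ)) := by
        rw [← pow_add, Nat.sub_add_cancel hj]
      have h4 : ell ^ (2 * (j : ℕ)) ≠ 0 := pow_ne_zero _ ell_ne
      rw [h3, ← pow_mul, div_pow]
      field_simp
    rcases mul_eq_zero.1 h2 with h3 | h3
    · exact absurd h3 (pow_ne_zero _ ell_ne)
    · exact h3
  have h2 := transcendental_iff.1 trans_quot p h1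
  intro j
  have h3 := congrArg (fun q => Polynomial.coeff q (j : ℕ)) h2
  simp only [p, Polynomial.finsetSum_coeff, Polynomial.coeff_monomial, Polynomial.coeff_zero] at h3
  rw [Finset.sum_eq_single j] at h3
  · simpa using h3
  · intro i _ hi
    rw [if_neg fun h => hi (Fin.ext h)]
  · intro h
    exact absurd (Finset.mem_univ j) h

theorem one_or_mem {x y : ℂ} (hx : x ∈ ZZ 2 1) (hy : y ∈ ZZ 2 2) : ∀ (i j : ℕ), 1 ≤ i + 2 * j →
    x ^ i * y ^ j ∈ ZZ 2 (i + 2 * j)
  | 0, 0, h => by omega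
  | i + 1, 0, _ => by
    have := pow_mem_ZZ (N := 2) (by norm_num) hx (i + 1) (by omega)
    simpa using this
  | 0, 1, _ => by simpa using hy
  | i + 1, j + 1, _ => by
    have h1 := one_or_mem hx hy (i + 1) j (by omega)
    have h2 := ZZ_mul (N := 2) (by norm_num) (Submodule.mul_mem_mul h1 hy)
    rw [pow_succ y, ← mul_assoc]
    exact h2
  | 0, j + 2, _ => by
    have h1 := one_or_mem hx hy 0 (j + 1) (by omega)
    have h2 := ZZ_mul (N := 2) (by norm_num) (Submodule.mul_mem_mul h1 hy)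
    rw [pow_succ y, ← mul_assoc]
    exact h2

theorem pi_sq_mem : (Real.pi : ℂ) ^ 2 ∈ ZZ 2 2 := by
  have h1 := (ZZ 2 2).smul_mem (6 : ℚ) zeta2_mem
  have h2 : (6 : ℚ) • (((Real.pi ^ 2 / 6 : ℝ) : ℂ)) = (Real.pi : ℂ) ^ 2 := by
    rw [Algebra.smul_def]
    have : algebraMap ℚ ℂ 6 = 6 := by simp
    rw [this]
    push_cast
    ring
  rw [h2] at h1
  exact h1

theorem mono_mem {u : ℕ} (hu : 1 ≤ u) (j : Fin (u / 2 + 1)) : mono u j ∈ ZZ 2 u := by
  have h1 := one_or_mem log2_mem pi_sq_mem (u - 2 * j) j (by omega)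
  have hj : 2 * (j : ℕ) ≤ u := by
    have := j.2
    omega
  rw [Nat.sub_add_cancel hj, ← pow_mul] at h1
  exact h1

theorem dich_two {u : ℕ} (hu : 1 ≤ u) (h : dimAlg (ZZ 2 u) ≤ u / 2 + 1) :
    ∀ x ∈ ZZ 2 u, ∃ c : ℕ → ℂ, (∀ j, IsAlgebraic ℚ (c j)) ∧
      x = ∑ j ∈ Finset.range (u / 2 + 1), c j * (ell ^ (u - 2 * j) * (Real.pi : ℂ) ^ (2 * j)) := by
  classical
  intro x hx
  have i1 := ZZ_finite (N := 2) (by norm_num) u
  have i2 := span_finite (ZZ 2 u)
  have h1 : Submodule.span KK (Set.range (mono u)) ≤ Submodule.span KK (ZZ 2 u : Set ℂ) := by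
    refine Submodule.span_mono ?_
    rintro _ ⟨j, rfl⟩
    exact mono_mem hu j
  have h2 := finrank_span_eq_card (mono_indep u)
  rw [Fintype.card_fin] at h2
  have h3 : finrank KK (Submodule.span KK (ZZ 2 u : Set ℂ)) ≤
      finrank KK (Submodule.span KK (Set.range (mono u))) := by
    rw [h2]
    exact h
  have h4 := Submodule.eq_of_le_of_finrank_le h1 h3
  have h5 : x ∈ Submodule.span KK (Set.range (mono u)) := by
    rw [h4]
    exact Submodule.subset_span hx
  obtain ⟨c, hc⟩ := (Submodule.mem_span_range_iff_exists_fun KK).1 h5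
  refine ⟨fun j => if hj : j < u / 2 + 1 then ((c ⟨j, hj⟩ : KK) : ℂ) else 0, fun j => ?_, ?_⟩
  · by_cases hj : j < u / 2 + 1
    · simp only [dif_pos hj]
      exact mem_KK.1 (c ⟨j, hj⟩).2
    · simp only [dif_neg hj]
      exact isAlgebraic_zero
  · rw [← hc, Finset.sum_range]
    refine Finset.sum_congr rfl fun j _ => ?_
    beta_reduce
    rw [dif_pos j.2, Algebra.smul_def]
    rfl

/-- growth with one further element -/
theorem more {D : ℕ → ℕ} (h2 : ∀ v w, 1 ≤ v → 1 ≤ w → D v + D w ≤ D (v + w) + 1)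
    (h0 : ∀ w, 1 ≤ w → w / 2 + 1 ≤ D w) {u : ℕ} (hu : 1 ≤ u) (h : u / 2 + 2 ≤ D u) :
    ∀ w, 1 ≤ w → w / 2 + w / (2 * u) + 1 ≤ D w := by
  intro w
  induction w using Nat.strong_induction_on with
  | _ w ih =>
    intro hw
    have h3 : D u + D u ≤ D (2 * u) + 1 := by
      have := h2 u u hu hu
      rwa [show u + u = 2 * u by ring] at this
    rcases lt_trichotomy w (2 * u) with h4 | h4 | h4
    · rw [Nat.div_eq_of_lt h4]
      simpa using h0 w hw
    · subst h4
      rw [Nat.div_self (by omega)]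
      omega
    · have h5 := ih (w - 2 * u) (by omega) (by omega)
      have h6 := h2 (w - 2 * u) (2 * u) (by omega) (by omega)
      rw [Nat.sub_add_cancel h4.le] at h6
      have h7 : w / (2 * u) = (w - 2 * u) / (2 * u) + 1 := by
        have h8 : w = (w - 2 * u) + 2 * u := (Nat.sub_add_cancel h4.le).symm
        conv_lhs => rw [h8]
        exact Nat.add_div_right _ (by omega)
      rw [h7]
      omega

end Pool.Agent.V8H82.MZ
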