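import Pool.Agent.V8H82.MZ.Two

/-!
# Weight one: the logarithms of the prime divisors of the level and pi
-/

set_option autoImplicit false

namespace Pool.Agent.V8H82.MZ

open Filter Topology Module
open scoped Pointwise

/-- the logarithms of the primes are linearly independent over the integers -/
theorem log_primes_int (S : Finset ℕ) (hS : ∀ p ∈ S, p.Prime) (n : S → ℤ)
    (h : ∑ p, (n p : ℝ) * Real.log (p : ℕ) = 0) : ∀ p, n p = 0 := by
  classical
  have key : ∀ f : S → ℕ, (∏ p : S, ((p : ℕ) : ℕ) ^ f p) ≠ 0 := fun f =>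
    Finset.prod_ne_zero_iff.2 fun p _ => pow_ne_zero _ (hS p p.2).ne_zero
  have hlog : ∀ f : S → ℕ, Real.log ((∏ p : S, ((p : ℕ) : ℕ) ^ f p : ℕ) : ℝ) =
      ∑ p, (f p : ℝ) * Real.log (p : ℕ) := by
    intro f
    push_cast
    rw [Real.log_prod fun p _ => pow_ne_zero _ (by exact_mod_cast (hS p p.2).ne_zero)]
    exact Finset.sum_congr rfl fun p _ => by rw [Real.log_pow]
  have h1 : ∏ p : S, ((p : ℕ) : ℕ) ^ (n p).toNat = ∏ p : S, ((p : ℕ) : ℕ) ^ (-n p).toNat := by
    have h2 : Real.log ((∏ p : S, ((p : ℕ) : ℕ) ^ (n p).toNat : ℕ) : ℝ) =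
        Real.log ((∏ p : S, ((p : ℕ) : ℕ) ^ (-n p).toNat : ℕ) : ℝ) := by
      rw [hlog, hlog, ← sub_eq_zero, ← Finset.sum_sub_distrib, ← h]
      refine Finset.sum_congr rfl fun p _ => ?_
      rw [← sub_mul]
      congr 1
      have h3 : ((n p).toNat : ℤ) - ((-n p).toNat : ℤ) = n p := Int.toNat_sub_toNat_neg (n p)
      exact_mod_cast h3
    have h4 := Real.log_injOn_pos (Set.mem_Ioi.2 (by
      exact_mod_cast Nat.pos_of_ne_zero (key _))) (Set.mem_Ioi.2 (by
      exact_mod_cast Nat.pos_of_ne_zero (key _))) h2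
    exact_mod_cast h4
  intro q
  have hfac : ∀ f : S → ℕ, (∏ p : S, ((p : ℕ) : ℕ) ^ f p).factorization q = f q := by
    intro f
    have h6 := Nat.factorization_prod (S := Finset.univ) (g := fun p : S => ((p : ℕ) : ℕ) ^ f p)
      fun p _ => pow_ne_zero _ (hS p p.2).ne_zero
    rw [h6, Finsupp.finsetSum_apply]
    rw [Finset.sum_eq_single q]
    · rw [(hS q q.2).factorization_pow]
      simp
    · intro p _ hp
      rw [(hS p p.2).factorization_pow]
      rw [Finsupp.single_apply, if_neg fun h => hp (Subtype.ext h)]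
    · intro h
      exact absurd (Finset.mem_univ q) h
  have h5 := congrArg (fun m => m.factorization q) h1
  simp only [hfac] at h5
  omega

/-- the logarithms of the primes are linearly independent over the rationals -/
theorem log_primes (S : Finset ℕ) (hS : ∀ p ∈ S, p.Prime) :
    LinearIndependent ℚ (fun p : S => Real.log ((p : ℕ) : ℝ)) := by
  rw [← LinearIndependent.iff_fractionRing ℤ ℚ, Fintype.linearIndependent_iff]
  intro n hn
  refine log_primes_int S hS n ?_
  rw [← hn]
  refine Finset.sum_congr rfl fun p _ => ?_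
  rw [zsmul_eq_mul]

/-- the logarithms of the prime divisors are in the space of weight one -/
theorem log_prime_mem {N p : ℕ} (hN : 1 ≤ N) (hp : p.Prime) (h : p ∣ N) :
    ((Real.log p : ℝ) : ℂ) ∈ ZZ N 1 := by
  obtain ⟨n, rfl⟩ : ∃ n, p = n + 1 := ⟨p - 1, (Nat.sub_add_cancel hp.one_le).symm⟩
  have hz := Complex.isPrimitiveRoot_exp (n + 1) (by omega)
  set z := Complex.exp (2 * Real.pi * Complex.I / ((n + 1 : ℕ) : ℂ)) with hz'
  have h1 := hz.prod_one_sub_pow_eq_order
  have h2 : ∀ k ∈ Finset.range n, (z ^ (k + 1)) ^ N = 1 ∧ z ^ (k + 1) ≠ 1 := by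
    intro k hk
    rw [Finset.mem_range] at hk
    obtain ⟨m, rfl⟩ := h
    refine ⟨?_, hz.pow_ne_one_of_pos_of_lt (by omega) (by omega)⟩
    rw [← pow_mul, show (k + 1) * ((n + 1) * m) = (n + 1) * ((k + 1) * m) by ring, pow_mul,
      hz.pow_eq_one, one_pow]
  have h3 : ∀ x : ℂ, x ^ N = 1 → x ≠ 1 → ((Real.log ‖1 - x‖ : ℝ) : ℂ) ∈ ZZ N 1 := by
    intro x hx hx1
    have h4 := log_mem hN hx hx1
    have h5 : (starRingEnd ℂ x) ^ N = 1 := by rw [← map_pow, hx, map_one]
    have h6 : starRingEnd ℂ x ≠ 1 := fun hc => hx1 (by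
      rw [← Complex.conj_conj x, hc, map_one])
    have h7 := log_mem hN h5 h6
    have h8 : 1 - starRingEnd ℂ x = starRingEnd ℂ (1 - x) := by simp
    have h9 : (1 - x).arg ≠ Real.pi := by
      have := re_lt_one hN hx hx1
      refine ne_of_lt (lt_of_le_of_lt (le_abs_self _)
        ((Complex.abs_arg_lt_pi_div_two_iff.2 (Or.inl ?_)).trans_le ?_))
      · simp
        exact this
      · linarith [Real.pi_pos]
    rw [h8, Complex.log_conj _ h9] at h7
    have h10 : ((Real.log ‖1 - x‖ : ℝ) : ℂ) =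
        (-(1 / 2) : ℚ) • (-Complex.log (1 - x) + -(starRingEnd ℂ (Complex.log (1 - x)))) := by
      rw [← Complex.log_re, Algebra.smul_def]
      have h11 := Complex.add_conj (Complex.log (1 - x))
      have h12 : algebraMap ℚ ℂ (-(1 / 2)) = -(1 / 2) := by simp
      rw [h12]
      push_cast at h11
      linear_combination (-(1 / 2) : ℂ) * h11
    rw [h10]
    exact (ZZ N 1).smul_mem _ ((ZZ N 1).add_mem h4 h7)
  have h4 : ((Real.log ((n + 1 : ℕ) : ℝ) : ℝ) : ℂ) =
      ∑ k ∈ Finset.range n, ((Real.log ‖1 - z ^ (k + 1)‖ : ℝ) : ℂ) := by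
    rw [← Complex.ofReal_sum, ← Real.log_prod fun k hk => norm_ne_zero_iff.2
      (sub_ne_zero.2 (h2 k hk).2.symm), ← norm_prod, h1]
    congr 2
    have : ((n : ℂ) + 1) = ((n + 1 : ℕ) : ℂ) := by push_cast; rfl
    rw [this, Complex.norm_natCast]
  rw [h4]
  exact (ZZ N 1).sum_mem fun k hk => h3 _ (h2 k hk).1 (h2 k hk).2

/-- `π i` is in the space of weight one -/
theorem piI_mem {N : ℕ} (hN : 3 ≤ N) : (Real.pi * Complex.I : ℂ) ∈ ZZ N 1 := by
  have hz := Complex.isPrimitiveRoot_exp N (by omega)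
  set z := Complex.exp (2 * Real.pi * Complex.I / (N : ℂ)) with hz'
  have hz1 : z ≠ 1 := hz.ne_one (by omega)
  have hz2 : z ^ 2 ≠ 1 := hz.pow_ne_one_of_pos_of_lt (by omega) (by omega)
  have hz0 : z ≠ 0 := hz.ne_zero (by omega)
  have hi : (z⁻¹) ^ N = 1 := by rw [inv_pow, hz.pow_eq_one, inv_one]
  have hi1 : z⁻¹ ≠ 1 := fun h => hz1 (by rw [← inv_inv z, h, inv_one])
  have h1 := log_mem (by omega) hz.pow_eq_one hz1
  have h2 := log_mem (by omega) hi hi1
  have h3 := (ZZ N 1).sub_mem h1 h2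
  set d := -Complex.log (1 - z) - -Complex.log (1 - z⁻¹) with hd
  have h4 : Complex.exp d = -z⁻¹ := by
    rw [hd, Complex.exp_sub, Complex.exp_neg, Complex.exp_neg, Complex.exp_log
      (sub_ne_zero.2 hz1.symm), Complex.exp_log (sub_ne_zero.2 hi1.symm)]
    have h5 : (1 : ℂ) - z ≠ 0 := sub_ne_zero.2 hz1.symm
    have h6 : z - 1 ≠ 0 := sub_ne_zero.2 hz1
    field_simp
    ring
  have h5 : Complex.exp ((2 * N : ℕ) * d) = 1 := by
    rw [Complex.exp_nat_mul, h4, pow_mul, neg_sq, ← pow_mul, mul_comm 2 N, pow_mul, hi, one_pow]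
  rw [Complex.exp_eq_one_iff] at h5
  obtain ⟨m, hm⟩ := h5
  have hN0 : (N : ℂ) ≠ 0 := by
    have : N ≠ 0 := by omega
    exact_mod_cast this
  have hd0 : d ≠ 0 := by
    intro h0
    rw [h0, Complex.exp_zero] at h4
    apply hz2
    have h6 : z = -1 := by
      field_simp at h4
      exact h4
    rw [h6]
    norm_num
  have hm0 : (m : ℂ) ≠ 0 := by
    intro h0
    rw [h0, zero_mul] at hm
    rcases mul_eq_zero.1 hm with h6 | h6
    · have : (2 * N : ℕ) = 0 := by exact_mod_cast h6
      omega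
    · exact hd0 h6
  have h6 : (Real.pi * Complex.I : ℂ) = ((N : ℚ) / (m : ℚ)) • d := by
    rw [Algebra.smul_def]
    have h7 : algebraMap ℚ ℂ ((N : ℚ) / (m : ℚ)) = (N : ℂ) / (m : ℂ) := by simp
    rw [h7]
    field_simp
    push_cast at hm
    linear_combination (-(1 / 2) : ℂ) * hm
  rw [h6]
  exact (ZZ N 1).smul_mem _ h3

theorem card_le_one {N : ℕ} (hN : 3 ≤ N) : N.primeFactors.card + 1 ≤ finrank ℚ (ZZ N 1) := by
  classical
  have i1 := ZZ_finite (N := N) (by omega) 1
  let f : Option N.primeFactors → ℂ := fun i => i.elim (Real.pi * Complex.I)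
    fun p => ((Real.log ((p : ℕ) : ℝ) : ℝ) : ℂ)
  have h1 : LinearIndependent ℚ f := by
    rw [Fintype.linearIndependent_iff]
    intro g hg
    rw [Fintype.sum_option] at hg
    simp only [f, Option.elim] at hg
    have him := congrArg Complex.im hg
    have hre := congrArg Complex.re hg
    have e1 : ∀ p : N.primeFactors, g (some p) • ((Real.log ((p : ℕ) : ℝ) : ℝ) : ℂ) =
        (((g (some p) : ℝ) * Real.log ((p : ℕ) : ℝ) : ℝ) : ℂ) := by
      intro p
      rw [Algebra.smul_def]
      push_cast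
      rfl
    have e0 : g none • (Real.pi * Complex.I : ℂ) = (((g none : ℝ) * Real.pi : ℝ) : ℂ) * Complex.I := by
      rw [Algebra.smul_def]
      push_cast
      have : algebraMap ℚ ℂ (g none) = (g none : ℂ) := rfl
      rw [this]
      ring
    simp only [e1] at him hre
    rw [e0, ← Complex.ofReal_sum] at him hre
    simp only [Complex.add_im, Complex.add_re, Complex.mul_I_im, Complex.mul_I_re,
      Complex.ofReal_re, Complex.ofReal_im, Complex.zero_im, Complex.zero_re, neg_zero, zero_add,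
      add_zero] at him hre
    have h2 : g none = 0 := by
      rcases mul_eq_zero.1 him with h3 | h3
      · exact_mod_cast h3
      · exact absurd h3 Real.pi_ne_zero
    have h4 := (Fintype.linearIndependent_iff.1
      (log_primes N.primeFactors fun p hp => Nat.prime_of_mem_primeFactors hp))
      (fun p => g (some p)) (by
        rw [← hre]
        exact Finset.sum_congr rfl fun p _ => by rw [Algebra.smul_def]; rfl)
    intro i
    match i with
    | none => exact h2
    | some p => exact h4 p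
  have h2 := finrank_span_eq_card h1
  rw [Fintype.card_option, Fintype.card_coe] at h2
  have h3 : Submodule.span ℚ (Set.range f) ≤ ZZ N 1 := by
    rw [Submodule.span_le]
    rintro _ ⟨i, rfl⟩
    match i with
    | none => exact piI_mem hN
    | some p =>
      exact log_prime_mem (by omega) (Nat.prime_of_mem_primeFactors p.2)
        (Nat.dvd_of_mem_primeFactors p.2)
  have h4 := Submodule.finrank_mono h3
  omega

end Pool.Agent.V8H82.MZ
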