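import Pool.Agent.V8H82.MZ.RealGr

/-!
# The real spaces: dichotomy, bounded dimensions, weights up to two
-/

set_option autoImplicit false

namespace Pool.Agent.V8H82.MZ

open Filter Topology Module
open scoped Pointwise

theorem alg_ofReal {a : ℝ} : IsAlgebraic ℚ ((a : ℝ) : ℂ) ↔ IsAlgebraic ℚ a :=
  isAlgebraic_algebraMap_iff (algebraMap ℝ ℂ).injective

theorem dichR {u : ℕ} (hu : 1 ≤ u) :
    ((∀ x ∈ GG u, ∃ a : ℝ, IsAlgebraic ℚ a ∧ x = a * Real.pi ^ u) ∧
      ∀ x ∈ CL u, ∃ a : ℝ, IsAlgebraic ℚ a ∧ x = a * Real.pi ^ u) ∨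
    ((∀ k, 1 ≤ k → k / (2 * u) + 1 ≤ dimR (GG k)) ∧
      ∀ k, 2 ≤ k → (k - 2) / (2 * u) + 1 ≤ dimR (CL k)) := by
  have i1 := GG_finite hu
  have i2 := GG_finite (k := 2 * u) (by omega)
  have hp : ∀ n, Real.pi ^ n ≠ 0 := fun n => pow_ne_zero n Real.pi_ne_zero
  by_cases h1 : ∀ x ∈ GG u, IsAlgebraic ℚ ((x / Real.pi ^ u : ℝ) : ℂ)
  · by_cases h2 : ∀ x ∈ CL u, IsAlgebraic ℚ ((x / Real.pi ^ u : ℝ) : ℂ)
    · left
      refine ⟨fun x hx => ⟨_, alg_ofReal.1 (h1 x hx), ?_⟩, fun x hx => ⟨_, alg_ofReal.1 (h2 x hx), ?_⟩⟩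
      · rw [div_mul_cancel₀ _ (hp u)]
      · rw [div_mul_cancel₀ _ (hp u)]
    · right
      push Not at h2
      obtain ⟨x, hx, hx2⟩ := h2
      refine grow (by omega) ?_
      have h3 := CL_mul_CL hu hu hx hx
      rw [← two_mul] at h3
      refine dimR_two (GG (2 * u)) h3 (pi_mem_GG (by omega)) (hp _) fun h4 => hx2 ?_
      refine IsAlgebraic.of_pow (n := 2) (by norm_num) ?_
      have h5 : (((x / Real.pi ^ u : ℝ) : ℂ)) ^ 2 = ((x * x / Real.pi ^ (2 * u) : ℝ) : ℂ) := by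
        rw [← Complex.ofReal_pow, div_pow, ← pow_mul, mul_comm u 2, sq]
      rw [h5]
      exact h4
  · right
    push Not at h1
    obtain ⟨x, hx, hx2⟩ := h1
    have h3 : 2 ≤ dimR (GG u) := dimR_two (GG u) hx (pi_mem_GG hu) (hp _) hx2
    refine grow (by omega) ?_
    have h4 := super_GG hu hu
    rw [← two_mul u] at h4
    omega

/-- the quotients of the elements of `𝒢_k` by `π ^ k` -/
noncomputable def EE (k : ℕ) : Submodule ℚ ℝ := (GG k).comap (LinearMap.mulRight ℚ (Real.pi ^ k))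

theorem mem_EE {k : ℕ} {a : ℝ} : a ∈ EE k ↔ a * Real.pi ^ k ∈ GG k := by
  simp [EE]

/-- division by a nonzero number does not increase the dimension -/
theorem scale_finite (V W : Submodule ℚ ℝ) [FiniteDimensional ℚ W] (c : ℝ) (hc : c ≠ 0)
    (h : ∀ a ∈ V, a * c ∈ W) : FiniteDimensional ℚ V ∧ finrank ℚ V ≤ finrank ℚ W := by
  let f : V →ₗ[ℚ] W := ((LinearMap.mulRight ℚ c).domRestrict V).codRestrict W fun a => h a a.2
  have hf : Function.Injective f := by
    intro a b hab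
    have h1 : (a : ℝ) * c = (b : ℝ) * c := congrArg Subtype.val hab
    exact Subtype.ext (mul_right_cancel₀ hc h1)
  exact ⟨FiniteDimensional.of_injective f hf, LinearMap.finrank_le_finrank_of_injective hf⟩

theorem EE_mul {k l : ℕ} (hk : 1 ≤ k) (hl : 1 ≤ l) {a b : ℝ} (ha : a ∈ EE k) (hb : b ∈ EE l) :
    a * b ∈ EE (k + l) := by
  rw [mem_EE] at ha hb ⊢
  have h1 := GG_mul_GG hk hl ha hb
  have h2 : a * b * Real.pi ^ (k + l) = a * Real.pi ^ k * (b * Real.pi ^ l) := by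
    rw [pow_add]
    ring
  rw [h2]
  exact h1

theorem one_mem_EE {k : ℕ} (hk : 1 ≤ k) : (1 : ℝ) ∈ EE k := by
  rw [mem_EE, one_mul]
  exact pi_mem_GG hk

theorem EE_mono {k l : ℕ} (hk : 1 ≤ k) (h : k ≤ l) : EE k ≤ EE l := by
  rcases Nat.eq_or_lt_of_le h with rfl | h
  · exact le_rfl
  · intro a ha
    have h1 := EE_mul hk (l := l - k) (by omega) ha (one_mem_EE (by omega))
    rwa [mul_one, Nat.add_sub_cancel' h.le] at h1

theorem boundedR {M : ℕ}
    (h : (∀ k, 1 ≤ k → finrank ℚ (GG k) ≤ M) ∨ ∀ k, 1 ≤ k → finrank ℚ (CL k) ≤ M) :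
    ∃ (K : IntermediateField ℚ ℝ) (c : ℝ), FiniteDimensional ℚ K ∧ finrank ℚ K ≤ M ∧
      (∀ y, IsLi (clausen [2]) y → c = y.im / Real.pi ^ 2) ∧ c ≠ 0 ∧ c ^ 2 ∈ K ∧
      ∀ k, 1 ≤ k → (∀ x ∈ GG k, ∃ a ∈ K, x = a * Real.pi ^ k) ∧
        ∀ x ∈ CL k, ∃ a ∈ K, x = a * c * Real.pi ^ k := by
  have hp : ∀ n, Real.pi ^ n ≠ 0 := fun n => pow_ne_zero n Real.pi_ne_zero
  have h' : ∀ k, 1 ≤ k → finrank ℚ (GG k) ≤ M := by
    rcases h with h | h
    · exact h
    · intro k hk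
      have i2 := CL_finite (k := k + 2) (by omega)
      exact (scale_finite (GG k) (CL (k + 2)) cl2 cl2_pos.ne' fun a ha =>
        GG_mul_CL hk (by norm_num) ha cl2_mem).2.trans (h (k + 2) (by omega))
  have hEf : ∀ k, 1 ≤ k → FiniteDimensional ℚ (EE k) ∧ finrank ℚ (EE k) ≤ M := by
    intro k hk
    have i2 := GG_finite hk
    have h1 := scale_finite (EE k) (GG k) (Real.pi ^ k) (hp k) fun a ha => mem_EE.1 ha
    exact ⟨h1.1, h1.2.trans (h' k hk)⟩
  let T : Set ℕ := {d | ∃ w, 1 ≤ w ∧ finrank ℚ (EE w) = d}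
  have hT : T.Nonempty := ⟨_, 1, le_rfl, rfl⟩
  have hTb : BddAbove T := ⟨M, by
    rintro d ⟨w, hw, rfl⟩
    exact (hEf w hw).2⟩
  obtain ⟨u, hu, hu2⟩ := Nat.sSup_mem hT hTb
  have hmax : ∀ w, 1 ≤ w → finrank ℚ (EE w) ≤ finrank ℚ (EE u) := by
    intro w hw
    rw [hu2]
    exact le_csSup hTb ⟨w, hw, rfl⟩
  have hall : ∀ w, 1 ≤ w → EE w ≤ EE u := by
    intro w hw
    have i1 := (hEf (max u w) (by omega)).1
    have h1 : EE u = EE (max u w) := Submodule.eq_of_le_of_finrank_le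
      (EE_mono hu (le_max_left _ _)) (hmax _ (by omega))
    rw [h1]
    exact EE_mono hw (le_max_right _ _)
  let A : Subalgebra ℚ ℝ := (EE u).toSubalgebra (one_mem_EE hu) fun x y hx hy =>
    hall (u + u) (by omega) (EE_mul hu hu hx hy)
  have i2 : FiniteDimensional ℚ A := (hEf u hu).1
  have i3 : Algebra.IsIntegral ℚ A := inferInstance
  have hF : IsField A := isField_of_isIntegral_of_isField' (Field.toIsField ℚ)
  let K : IntermediateField ℚ ℝ := A.toIntermediateField' hF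
  have hG : ∀ k, 1 ≤ k → ∀ x ∈ GG k, x / Real.pi ^ k ∈ K := by
    intro k hk x hx
    refine hall k hk ?_
    rw [mem_EE, div_mul_cancel₀ _ (hp k)]
    exact hx
  have hc2 : (cl2 / Real.pi ^ 2) ^ 2 ∈ K := by
    have h1 := hG (2 + 2) (by norm_num) _ (CL_mul_CL (by norm_num) (by norm_num) cl2_mem cl2_mem)
    have h2 : (cl2 / Real.pi ^ 2) ^ 2 = cl2 * cl2 / Real.pi ^ (2 + 2) := by
      rw [div_pow, ← pow_mul, sq]
    rw [h2]
    exact h1
  have hc0 : cl2 / Real.pi ^ 2 ≠ 0 := div_ne_zero cl2_pos.ne' (hp 2)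
  refine ⟨K, cl2 / Real.pi ^ 2, i2, (hEf u hu).2, fun y hy => ?_, hc0, hc2, fun k hk =>
    ⟨fun x hx => ⟨x / Real.pi ^ k, hG k hk x hx, ?_⟩, fun x hx =>
      ⟨x * cl2 / Real.pi ^ (k + 2) * ((cl2 / Real.pi ^ 2) ^ 2)⁻¹, ?_, ?_⟩⟩⟩
  · rw [tendsto_nhds_unique hy (Classical.choose_spec exists_mu)]
    rfl
  · rw [div_mul_cancel₀ _ (hp k)]
  · exact K.mul_mem (hG (k + 2) (by omega) _ (CL_mul_CL hk (by norm_num) hx cl2_mem)) (K.inv_mem hc2)
  · have h1 := hp k
    have h2 := hp 2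
    have h3 := cl2_pos.ne'
    rw [pow_add]
    field_simp

/-! ### weights up to two -/

theorem finrank_span_le_one {s : Set ℂ} (x : ℂ) (h : s ⊆ {x}) :
    finrank ℚ (Submodule.span ℚ s) ≤ 1 := by
  have i1 : FiniteDimensional ℚ (Submodule.span ℚ ({x} : Set ℂ)) :=
    FiniteDimensional.span_of_finite ℚ (Set.finite_singleton x)
  refine (Submodule.finrank_mono (Submodule.span_mono h)).trans ?_
  exact (finrank_span_le_card ({x} : Set ℂ)).trans (by simp)

theorem finrank_span_le_two {s : Set ℂ} (x y : ℂ) (h : s ⊆ {x, y}) :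
    finrank ℚ (Submodule.span ℚ s) ≤ 2 := by
  classical
  have i1 : FiniteDimensional ℚ (Submodule.span ℚ ({x, y} : Set ℂ)) :=
    FiniteDimensional.span_of_finite ℚ (Set.toFinite _)
  refine (Submodule.finrank_mono (Submodule.span_mono h)).trans ?_
  have h1 := finrank_span_finset_le_card (R := ℚ) ({x, y} : Finset ℂ)
  have h2 : (({x, y} : Finset ℂ) : Set ℂ) = {x, y} := by simp
  unfold Set.finrank at h1
  rw [h2] at h1
  exact h1.trans Finset.card_le_two

theorem CC_one_le : finrank ℚ (CC 1) ≤ 1 := by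
  unfold CC
  refine finrank_span_le_one (limUnder atTop (trunc (clausen [1]))) ?_
  rintro x ⟨a, ha, ha1, hs, hx⟩
  have h1 : a = [1] := by
    match a with
    | [] => exact absurd rfl ha
    | [k] =>
      simp at hs
      rw [hs]
    | k :: l :: t =>
      have h2 := ha1 k (by simp)
      have h3 := ha1 l (by simp)
      simp at hs
      omega
  subst h1
  exact hx.limUnder_eq.symm

theorem CC_two_le : finrank ℚ (CC 2) ≤ 2 := by
  unfold CC
  refine finrank_span_le_two (limUnder atTop (trunc (clausen [2])))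
    (limUnder atTop (trunc (clausen [1, 1]))) ?_
  rintro x ⟨a, ha, ha1, hs, hx⟩
  have h1 : a = [2] ∨ a = [1, 1] := by
    match a with
    | [] => exact absurd rfl ha
    | [k] =>
      simp at hs
      exact Or.inl (by rw [hs])
    | [k, l] =>
      have h2 := ha1 k (by simp)
      have h3 := ha1 l (by simp)
      simp at hs
      refine Or.inr ?_
      have h4 : k = 1 := by omega
      have h5 : l = 1 := by omega
      rw [h4, h5]
    | k :: l :: m :: t =>
      have h2 := ha1 k (by simp)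
      have h3 := ha1 l (by simp)
      have h4 := ha1 m (by simp)
      simp at hs
      omega
  rcases h1 with rfl | rfl
  · exact Or.inl hx.limUnder_eq.symm
  · exact Or.inr hx.limUnder_eq.symm

theorem GG_pos {k : ℕ} (hk : 1 ≤ k) : 1 ≤ finrank ℚ (GG k) := by
  have i1 := GG_finite hk
  exact (dimR_pos _ (GG_ne hk)).trans (dimR_le _)

theorem CL_pos {k : ℕ} (hk : 2 ≤ k) : 1 ≤ finrank ℚ (CL k) := by
  have i1 := CL_finite (k := k) (by omega)
  exact (dimR_pos _ (CL_ne hk)).trans (dimR_le _)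

theorem small_one : finrank ℚ (CL 1) = 0 ∧ finrank ℚ (GG 1) = 1 := by
  have h1 := finrank_sum (k := 1) le_rfl
  have h2 := CC_one_le
  have h3 := GG_pos (k := 1) le_rfl
  omega

theorem small_two : finrank ℚ (CL 2) = 1 ∧ finrank ℚ (GG 2) = 1 := by
  have h1 := finrank_sum (k := 2) (by norm_num)
  have h2 := CC_two_le
  have h3 := GG_pos (k := 2) (by norm_num)
  have h4 := CL_pos (k := 2) le_rfl
  omega

theorem isLi_nil {y : ℂ} (h : IsLi (clausen []) y) : y = 1 := by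
  have h1 : Tendsto (trunc (clausen [])) atTop (𝓝 1) := tendsto_const_nhds
  exact tendsto_nhds_unique h h1

theorem sum_zero_nil {a : List ℕ} (h : ∀ j ∈ a, 1 ≤ j) (hs : a.sum = 0) : a = [] := by
  match a with
  | [] => rfl
  | k :: t =>
    have := h k (by simp)
    simp at hs
    omega

theorem small_zero : finrank ℚ (CL 0) = 0 ∧ finrank ℚ (GG 0) = 1 := by
  constructor
  · have h1 : CL 0 = ⊥ := by
      unfold CL
      rw [Submodule.span_eq_bot]
      rintro x ⟨a, y, ha, hs, hy, rfl⟩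
      rw [sum_zero_nil ha hs] at hy
      rw [isLi_nil hy]
      simp
    rw [h1]
    exact finrank_bot ℚ ℝ
  · have h1 : GG 0 = Submodule.span ℚ {(1 : ℝ)} := by
      unfold GG
      congr 1
      ext x
      constructor
      · rintro ⟨a, y, ha, hs, hy, rfl⟩
        rw [sum_zero_nil ha hs] at hy
        rw [isLi_nil hy]
        simp
      · intro hx
        rw [Set.mem_singleton_iff] at hx
        exact ⟨[], 1, by simp, by simp, tendsto_const_nhds, by rw [hx]; simp⟩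
    rw [h1]
    exact finrank_span_singleton one_ne_zero

end Pool.Agent.V8H82.MZ
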