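import Pool.Agent.V8H82.MZ.RealSp

/-!
# Growth of the real spaces of multiple Clausen values and of multiple Glaisher values
-/

set_option autoImplicit false

namespace Pool.Agent.V8H82.MZ

open Filter Topology Module
open scoped Pointwise

/-- The dimension, over the field of all algebraic numbers, of the space of the combinations of the
elements of `V` with algebraic coefficients. -/
noncomputable def dimR (V : Submodule ℚ ℝ) : ℕ := dimAlg (V.map inc)

theorem inc_inj : Function.Injective inc := fun x y h => by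
  have h1 : (x : ℂ) = (y : ℂ) := h
  exact_mod_cast h1

theorem map_finite (V : Submodule ℚ ℝ) [FiniteDimensional ℚ V] : FiniteDimensional ℚ (V.map inc) :=
  inferInstance

theorem dimR_le (V : Submodule ℚ ℝ) [FiniteDimensional ℚ V] : dimR V ≤ finrank ℚ V := by
  have h1 := dimAlg_le (V.map inc)
  have h2 : finrank ℚ (V.map inc) = finrank ℚ V :=
    (Submodule.equivMapOfInjective inc inc_inj V).finrank_eq.symm
  unfold dimR
  omega

theorem map_ne {V : Submodule ℚ ℝ} (h : V ≠ ⊥) : V.map inc ≠ ⊥ := by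
  intro h1
  refine h ((Submodule.eq_bot_iff _).2 fun x hx => ?_)
  have h2 : inc x ∈ V.map inc := ⟨x, hx, rfl⟩
  rw [h1, Submodule.mem_bot] at h2
  exact inc_inj (h2.trans (map_zero inc).symm)

theorem superR (V W U : Submodule ℚ ℝ) [FiniteDimensional ℚ V] [FiniteDimensional ℚ W]
    [FiniteDimensional ℚ U] (hV : V ≠ ⊥) (hW : W ≠ ⊥) (h : ∀ x ∈ V, ∀ y ∈ W, x * y ∈ U) :
    dimR V + dimR W ≤ dimR U + 1 := by
  refine super (V.map inc) (W.map inc) (U.map inc) (map_ne hV) (map_ne hW) ?_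
  rw [Submodule.mul_le]
  rintro _ ⟨x, hx, rfl⟩ _ ⟨y, hy, rfl⟩
  refine ⟨x * y, h x hx y hy, ?_⟩
  show ((x * y : ℝ) : ℂ) = (x : ℂ) * (y : ℂ)
  push_cast
  rfl

theorem GG_finite {k : ℕ} (hk : 1 ≤ k) : FiniteDimensional ℚ (GG k) := by
  rw [GG_eq hk]
  exact Tw_finite k k

theorem CL_finite {k : ℕ} (hk : 1 ≤ k) : FiniteDimensional ℚ (CL k) := by
  rw [CL_eq hk]
  exact Tw_finite k (k + 1)

theorem pi_mem_GG {k : ℕ} (hk : 1 ≤ k) : Real.pi ^ k ∈ GG k := by
  rw [GG_eq hk, mem_Tw]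
  have h1 := pow_mem_CC qq_mem k hk
  have h2 : qq ^ k = ((Real.pi ^ k : ℝ) : ℂ) * Complex.I ^ k := by
    unfold qq
    rw [mul_pow]
    push_cast
    rfl
  rw [h2] at h1
  exact h1

theorem exists_mu : ∃ x : ℂ, IsLi (clausen [2]) x := conv_adm (by norm_num)
  (adm_clausen (a := [2]) (by simp) (by simp))

/-- `Cl_2(π / 3)` -/
noncomputable def cl2 : ℝ := (Classical.choose exists_mu).im

theorem cl2_pos : 0 < cl2 := im_two (Classical.choose_spec exists_mu)

theorem cl2_mem : cl2 ∈ CL 2 :=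
  Submodule.subset_span ⟨[2], _, by simp, by simp, Classical.choose_spec exists_mu, by
    rw [if_pos even_two]
    rfl⟩

theorem GG_mul_GG {k l : ℕ} (hk : 1 ≤ k) (hl : 1 ≤ l) {x y : ℝ} (hx : x ∈ GG k) (hy : y ∈ GG l) :
    x * y ∈ GG (k + l) := by
  rw [GG_eq hk] at hx
  rw [GG_eq hl] at hy
  rw [GG_eq (by omega)]
  exact Tw_mul hk hx hy

theorem GG_mul_CL {k l : ℕ} (hk : 1 ≤ k) (hl : 1 ≤ l) {x y : ℝ} (hx : x ∈ GG k) (hy : y ∈ CL l) :
    x * y ∈ CL (k + l) := by
  rw [GG_eq hk] at hx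
  rw [CL_eq hl] at hy
  rw [CL_eq (by omega)]
  have h1 := Tw_mul hk hx hy
  rwa [← add_assoc] at h1

theorem CL_mul_CL {k l : ℕ} (hk : 1 ≤ k) (hl : 1 ≤ l) {x y : ℝ} (hx : x ∈ CL k) (hy : y ∈ CL l) :
    x * y ∈ GG (k + l) := by
  rw [CL_eq hk] at hx
  rw [CL_eq hl] at hy
  rw [GG_eq (by omega), ← Tw_add_two (k + l) (k + l)]
  have h1 := Tw_mul hk hx hy
  rwa [show k + 1 + (l + 1) = k + l + 2 by ring] at h1

theorem GG_ne {k : ℕ} (hk : 1 ≤ k) : GG k ≠ ⊥ := by
  intro h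
  have h1 := pi_mem_GG hk
  rw [h, Submodule.mem_bot] at h1
  exact pow_ne_zero k Real.pi_ne_zero h1

theorem pc_mem {k : ℕ} (hk : 2 ≤ k) : Real.pi ^ (k - 2) * cl2 ∈ CL k := by
  rcases Nat.eq_or_lt_of_le hk with rfl | hk
  · simpa using cl2_mem
  · have h1 := GG_mul_CL (k := k - 2) (l := 2) (by omega) (by norm_num) (pi_mem_GG (by omega)) cl2_mem
    rwa [Nat.sub_add_cancel (by omega)] at h1

theorem CL_ne {k : ℕ} (hk : 2 ≤ k) : CL k ≠ ⊥ := by
  intro h
  have h1 := pc_mem hk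
  rw [h, Submodule.mem_bot] at h1
  exact mul_ne_zero (pow_ne_zero _ Real.pi_ne_zero) cl2_pos.ne' h1

theorem super_GG {k l : ℕ} (hk : 1 ≤ k) (hl : 1 ≤ l) :
    dimR (GG k) + dimR (GG l) ≤ dimR (GG (k + l)) + 1 := by
  have i1 := GG_finite hk
  have i2 := GG_finite hl
  have i3 := GG_finite (k := k + l) (by omega)
  exact superR _ _ _ (GG_ne hk) (GG_ne hl) fun x hx y hy => GG_mul_GG hk hl hx hy

theorem super_GC {k l : ℕ} (hk : 1 ≤ k) (hl : 2 ≤ l) :
    dimR (GG k) + dimR (CL l) ≤ dimR (CL (k + l)) + 1 := by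
  have i1 := GG_finite hk
  have i2 := CL_finite (k := l) (by omega)
  have i3 := CL_finite (k := k + l) (by omega)
  exact superR _ _ _ (GG_ne hk) (CL_ne hl) fun x hx y hy => GG_mul_CL hk (by omega) hx hy

theorem super_CC' {k l : ℕ} (hk : 2 ≤ k) (hl : 2 ≤ l) :
    dimR (CL k) + dimR (CL l) ≤ dimR (GG (k + l)) + 1 := by
  have i1 := CL_finite (k := k) (by omega)
  have i2 := CL_finite (k := l) (by omega)
  have i3 := GG_finite (k := k + l) (by omega)
  exact superR _ _ _ (CL_ne hk) (CL_ne hl) fun x hx y hy => CL_mul_CL (by omega) (by omega) hx hy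

theorem dimR_pos (V : Submodule ℚ ℝ) [FiniteDimensional ℚ V] (h : V ≠ ⊥) : 1 ≤ dimR V :=
  dimAlg_pos _ (map_ne h)

/-- an element whose quotient by another one is transcendental -/
theorem dimR_two (V : Submodule ℚ ℝ) [FiniteDimensional ℚ V] {x y : ℝ} (hx : x ∈ V) (hy : y ∈ V)
    (hy0 : y ≠ 0) (h : ¬IsAlgebraic ℚ (((x / y : ℝ)) : ℂ)) : 2 ≤ dimR V := by
  have i2 := span_finite (V.map inc)
  have hy0' : (y : ℂ) ≠ 0 := by exact_mod_cast hy0
  have h1 : LinearIndependent KK ![(x : ℂ), (y : ℂ)] := by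
    rw [LinearIndependent.pair_iff]
    intro s t hst
    rw [Algebra.smul_def, Algebra.smul_def] at hst
    have hst' : (s : ℂ) * (x : ℂ) + (t : ℂ) * (y : ℂ) = 0 := hst
    have hs : s = 0 := by
      by_contra hs
      have hs' : (s : ℂ) ≠ 0 := fun h => hs (Subtype.ext h)
      apply h
      have h2 : (((x / y : ℝ)) : ℂ) = -(t : ℂ) * (s : ℂ)⁻¹ := by
        push_cast
        field_simp
        linear_combination hst'
      rw [h2]
      exact ((mem_KK.1 t.2).neg).mul (mem_KK.1 s.2).inv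
    refine ⟨hs, ?_⟩
    rw [hs] at hst'
    have h4 : (((0 : KK) : ℂ)) = 0 := rfl
    rw [h4, zero_mul, zero_add] at hst'
    rcases mul_eq_zero.1 hst' with h5 | h5
    · exact Subtype.ext h5
    · exact absurd h5 hy0'
  have h2 := finrank_span_eq_card h1
  rw [Fintype.card_fin] at h2
  have h3 : Submodule.span KK (Set.range ![(x : ℂ), (y : ℂ)]) ≤
      Submodule.span KK ((V.map inc : Submodule ℚ ℂ) : Set ℂ) := by
    refine Submodule.span_mono ?_
    rintro _ ⟨i, rfl⟩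
    fin_cases i
    · exact ⟨x, hx, rfl⟩
    · exact ⟨y, hy, rfl⟩
  have h4 := Submodule.finrank_mono h3
  rw [h2] at h4
  exact h4

theorem iter_GG {u w : ℕ} (hu : 1 ≤ u) (hw : 1 ≤ w) :
    w / u * (dimR (GG u) - 1) + 1 ≤ dimR (GG w) :=
  iter (fun w => dimR (GG w)) (fun w hw => by
    have i1 := GG_finite hw
    exact dimR_pos _ (GG_ne hw)) (fun _ _ hv hw => super_GG hv hw) hu w hw

/-- growth, if there is a value whose quotient by the power of `π` is transcendental -/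
theorem grow {u : ℕ} (hu : 1 ≤ u) (h : 2 ≤ dimR (GG u)) :
    (∀ k, 1 ≤ k → k / u + 1 ≤ dimR (GG k)) ∧ ∀ k, 2 ≤ k → (k - 2) / u + 1 ≤ dimR (CL k) := by
  have h1 : ∀ k, 1 ≤ k → k / u + 1 ≤ dimR (GG k) := by
    intro k hk
    have h2 := iter_GG hu hk
    have h3 : k / u * 1 ≤ k / u * (dimR (GG u) - 1) := Nat.mul_le_mul_left _ (by omega)
    omega
  refine ⟨h1, fun k hk => ?_⟩
  have i1 := CL_finite (k := 2) (by norm_num)
  have h3 := dimR_pos _ (CL_ne le_rfl)
  rcases Nat.eq_or_lt_of_le hk with rfl | hk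
  · simpa using h3
  · have h4 := super_GC (k := k - 2) (l := 2) (by omega) le_rfl
    rw [Nat.sub_add_cancel (by omega)] at h4
    have h5 := h1 (k - 2) (by omega)
    omega

end Pool.Agent.V8H82.MZ
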