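import Pool.Agent.V8H82.MZ.Closed

/-!
# The real spaces of multiple Clausen values and of multiple Glaisher values
-/

set_option autoImplicit false

namespace Pool.Agent.V8H82.MZ

open Filter Topology Module
open scoped Pointwise

/-- The `ℚ`-vector space `𝒢_k` spanned by the multiple Glaisher values `Gl_{k_1, ..., k_n}(π/3)` of
weight `k`: the real (for `k` odd imaginary) parts of `Li_{k_1, ..., k_n}(e ^ (π i / 3))`. -/
noncomputable def GG (k : ℕ) : Submodule ℚ ℝ :=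
  Submodule.span ℚ {x | ∃ (a : List ℕ) (y : ℂ), (∀ j ∈ a, 1 ≤ j) ∧ a.sum = k ∧ IsLi (clausen a) y ∧
    x = if Even k then y.re else y.im}

/-- The `ℚ`-vector space `𝒞_k` spanned by the multiple Clausen values `Cl_{k_1, ..., k_n}(π/3)` of
weight `k`: the imaginary (for `k` odd real) parts of `Li_{k_1, ..., k_n}(e ^ (π i / 3))`. -/
noncomputable def CL (k : ℕ) : Submodule ℚ ℝ :=
  Submodule.span ℚ {x | ∃ (a : List ℕ) (y : ℂ), (∀ j ∈ a, 1 ≤ j) ∧ a.sum = k ∧ IsLi (clausen a) y ∧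
    x = if Even k then y.im else y.re}

/-- the inclusion of the real numbers -/
noncomputable def inc : ℝ →ₗ[ℚ] ℂ := Complex.ofRealHom.toAddMonoidHom.toRatLinearMap

/-- the real part -/
noncomputable def reQ : ℂ →ₗ[ℚ] ℝ := Complex.reAddGroupHom.toRatLinearMap

/-- the imaginary part -/
noncomputable def imQ : ℂ →ₗ[ℚ] ℝ := Complex.imAddGroupHom.toRatLinearMap

theorem inc_apply (x : ℝ) : inc x = (x : ℂ) := rfl

/-- the numbers `x` with `x i ^ e` in `C_k` -/
noncomputable def Tw (k e : ℕ) : Submodule ℚ ℝ :=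
  (CC k).comap ((LinearMap.mulRight ℚ (Complex.I ^ e)).comp inc)

theorem mem_Tw {k e : ℕ} {x : ℝ} : x ∈ Tw k e ↔ (x : ℂ) * Complex.I ^ e ∈ CC k := by
  simp [Tw, inc_apply]

theorem Tw_add_two (k e : ℕ) : Tw k (e + 2) = Tw k e := by
  ext x
  rw [mem_Tw, mem_Tw, pow_add, Complex.I_sq]
  have h : (x : ℂ) * (Complex.I ^ e * -1) = -((x : ℂ) * Complex.I ^ e) := by ring
  rw [h, Submodule.neg_mem_iff]

theorem Tw_add_even (k e : ℕ) : ∀ m, Tw k (e + 2 * m) = Tw k e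
  | 0 => rfl
  | m + 1 => by
    rw [show e + 2 * (m + 1) = (e + 2 * m) + 2 by ring, Tw_add_two, Tw_add_even k e m]

theorem Tw_even (k : ℕ) {e : ℕ} (h : Even e) : Tw k e = Tw k 0 := by
  obtain ⟨m, rfl⟩ := h
  have := Tw_add_even k 0 m
  rwa [zero_add, two_mul] at this

theorem Tw_odd (k : ℕ) {e : ℕ} (h : ¬Even e) : Tw k e = Tw k 1 := by
  obtain ⟨m, rfl⟩ := Nat.not_even_iff_odd.1 h
  have := Tw_add_even k 1 m
  rwa [add_comm 1] at this

theorem ne_nil {a : List ℕ} {k : ℕ} (hk : 1 ≤ k) (h : a.sum = k) : a ≠ [] := by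
  rintro rfl
  simp at h
  omega

theorem re_mem {k : ℕ} {y : ℂ} (hy : y ∈ CC k) : y.re ∈ Tw k 0 := by
  rw [mem_Tw, pow_zero, mul_one]
  have h1 := (CC k).smul_mem (1 / 2 : ℚ) ((CC k).add_mem hy (CC_conj hy))
  have h2 : (1 / 2 : ℚ) • (y + starRingEnd ℂ y) = (y.re : ℂ) := by
    rw [Complex.add_conj, Algebra.smul_def]
    have : algebraMap ℚ ℂ (1 / 2) = 1 / 2 := by simp
    rw [this]
    push_cast
    ring
  rw [h2] at h1
  exact h1

theorem im_mem {k : ℕ} {y : ℂ} (hy : y ∈ CC k) : y.im ∈ Tw k 1 := by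
  rw [mem_Tw, pow_one]
  have h1 := (CC k).smul_mem (1 / 2 : ℚ) ((CC k).sub_mem hy (CC_conj hy))
  have h2 : (1 / 2 : ℚ) • (y - starRingEnd ℂ y) = (y.im : ℂ) * Complex.I := by
    rw [Complex.sub_conj, Algebra.smul_def]
    have : algebraMap ℚ ℂ (1 / 2) = 1 / 2 := by simp
    rw [this]
    push_cast
    ring
  rw [h2] at h1
  exact h1

theorem span_re {k : ℕ} (hk : 1 ≤ k) :
    Submodule.span ℚ {x | ∃ (a : List ℕ) (y : ℂ), (∀ j ∈ a, 1 ≤ j) ∧ a.sum = k ∧
      IsLi (clausen a) y ∧ x = y.re} = Tw k 0 := by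
  apply le_antisymm
  · rw [Submodule.span_le]
    rintro x ⟨a, y, ha, hs, hy, rfl⟩
    exact re_mem (Submodule.subset_span ⟨a, ne_nil hk hs, ha, hs, hy⟩)
  · intro x hx
    rw [mem_Tw, pow_zero, mul_one] at hx
    have h1 : reQ (x : ℂ) ∈ (CC k).map reQ := ⟨_, hx, rfl⟩
    unfold CC at h1
    rw [Submodule.map_span] at h1
    refine Submodule.span_mono ?_ h1
    rintro _ ⟨y, ⟨a, _, ha, hs, hy⟩, rfl⟩
    exact ⟨a, y, ha, hs, hy, rfl⟩

theorem span_im {k : ℕ} (hk : 1 ≤ k) :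
    Submodule.span ℚ {x | ∃ (a : List ℕ) (y : ℂ), (∀ j ∈ a, 1 ≤ j) ∧ a.sum = k ∧
      IsLi (clausen a) y ∧ x = y.im} = Tw k 1 := by
  apply le_antisymm
  · rw [Submodule.span_le]
    rintro x ⟨a, y, ha, hs, hy, rfl⟩
    exact im_mem (Submodule.subset_span ⟨a, ne_nil hk hs, ha, hs, hy⟩)
  · intro x hx
    rw [mem_Tw, pow_one] at hx
    have h1 : imQ ((x : ℂ) * Complex.I) ∈ (CC k).map imQ := ⟨_, hx, rfl⟩
    have h2 : imQ ((x : ℂ) * Complex.I) = x := by
      show ((x : ℂ) * Complex.I).im = x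
      simp
    rw [h2] at h1
    unfold CC at h1
    rw [Submodule.map_span] at h1
    refine Submodule.span_mono ?_ h1
    rintro _ ⟨y, ⟨a, _, ha, hs, hy⟩, rfl⟩
    exact ⟨a, y, ha, hs, hy, rfl⟩

theorem GG_eq {k : ℕ} (hk : 1 ≤ k) : GG k = Tw k k := by
  unfold GG
  by_cases h : Even k
  · simp only [if_pos h]
    rw [Tw_even k h]
    exact span_re hk
  · simp only [if_neg h]
    rw [Tw_odd k h]
    exact span_im hk

theorem CL_eq {k : ℕ} (hk : 1 ≤ k) : CL k = Tw k (k + 1) := by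
  unfold CL
  by_cases h : Even k
  · simp only [if_pos h]
    rw [Tw_odd k (by rw [Nat.even_add_one, not_not]; exact h)]
    exact span_im hk
  · simp only [if_neg h]
    rw [Tw_even k (by rw [Nat.even_add_one]; exact h)]
    exact span_re hk

theorem Tw_mul {k l e f : ℕ} (hk : 1 ≤ k) {x y : ℝ} (hx : x ∈ Tw k e) (hy : y ∈ Tw l f) :
    x * y ∈ Tw (k + l) (e + f) := by
  rw [mem_Tw] at hx hy ⊢
  have h1 := CC_mul hk (Submodule.mul_mem_mul hx hy)
  have h2 : ((x * y : ℝ) : ℂ) * Complex.I ^ (e + f) =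
      (x : ℂ) * Complex.I ^ e * ((y : ℂ) * Complex.I ^ f) := by
    rw [pow_add]
    push_cast
    ring
  rw [h2]
  exact h1

theorem Tw_finite (k e : ℕ) : FiniteDimensional ℚ (Tw k e) := by
  have i1 := CC_finite k
  let f : Tw k e →ₗ[ℚ] CC k := (((LinearMap.mulRight ℚ (Complex.I ^ e)).comp inc).domRestrict
    (Tw k e)).codRestrict (CC k) fun a => mem_Tw.1 a.2
  have hf : Function.Injective f := by
    intro a b hab
    have h1 : ((a : ℝ) : ℂ) * Complex.I ^ e = ((b : ℝ) : ℂ) * Complex.I ^ e := congrArg Subtype.val hab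
    have h2 := mul_right_cancel₀ (pow_ne_zero e Complex.I_ne_zero) h1
    exact Subtype.ext (by exact_mod_cast h2)
  exact FiniteDimensional.of_injective f hf

/-- the dimension of `C_k` is the sum of the dimensions of the two real spaces -/
theorem finrank_CC (k : ℕ) : finrank ℚ (CC k) = finrank ℚ (Tw k 0) + finrank ℚ (Tw k 1) := by
  have i1 := CC_finite k
  have i2 := Tw_finite k 0
  have i3 := Tw_finite k 1
  rw [← Module.finrank_prod]
  symm
  let f : (Tw k 0 × Tw k 1) →ₗ[ℚ] CC k :=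
    (LinearMap.coprod (inc.comp (Tw k 0).subtype)
      (((LinearMap.mulRight ℚ Complex.I).comp inc).comp (Tw k 1).subtype)).codRestrict (CC k)
      (fun p => by
        have h1 := mem_Tw.1 p.1.2
        have h2 := mem_Tw.1 p.2.2
        rw [pow_zero, mul_one] at h1
        rw [pow_one] at h2
        exact (CC k).add_mem h1 h2)
  have hf : ∀ p, ((f p : CC k) : ℂ) = ((p.1 : ℝ) : ℂ) + ((p.2 : ℝ) : ℂ) * Complex.I := fun p => rfl
  refine (LinearEquiv.ofBijective f ⟨?_, ?_⟩).finrank_eq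
  · intro p q hpq
    have h1 : ((p.1 : ℝ) : ℂ) + ((p.2 : ℝ) : ℂ) * Complex.I =
        ((q.1 : ℝ) : ℂ) + ((q.2 : ℝ) : ℂ) * Complex.I := by
      rw [← hf, ← hf, hpq]
    have h2 := congrArg Complex.re h1
    have h3 := congrArg Complex.im h1
    simp at h2 h3
    exact Prod.ext h2 h3
  · intro y
    refine ⟨(⟨(y : ℂ).re, re_mem y.2⟩, ⟨(y : ℂ).im, im_mem y.2⟩), Subtype.ext ?_⟩
    rw [hf]
    exact Complex.re_add_im _

theorem finrank_sum {k : ℕ} (hk : 1 ≤ k) : finrank ℚ (CC k) = finrank ℚ (CL k) + finrank ℚ (GG k) := by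
  rw [finrank_CC, GG_eq hk, CL_eq hk]
  by_cases h : Even k
  · rw [Tw_even k h, Tw_odd k (e := k + 1) (by rw [Nat.even_add_one, not_not]; exact h)]
    ring
  · rw [Tw_odd k h, Tw_even k (e := k + 1) (by rw [Nat.even_add_one]; exact h)]

end Pool.Agent.V8H82.MZ
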