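import Pool.Agent.V8H82.MZ.Log

/-!
# The shuffle product of multiple Clausen values
-/

set_option autoImplicit false

namespace Pool.Agent.V8H82.MZ

open Filter Topology Module PowerSeries
open scoped Pointwise

/-- the two forms `1` and `X / (1 - X)` -/
noncomputable def frm : Bool → PowerSeries ℂ
  | false => 1
  | true => PowerSeries.mk fun n => if n = 0 then 0 else 1

/-- iterated integration -/
noncomputable def J (b : Bool) (f : PowerSeries ℂ) : PowerSeries ℂ :=
  PowerSeries.mk fun n => PowerSeries.coeff n (frm b * f) / (n : ℂ)

/-- the Euler derivation -/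
noncomputable def th (f : PowerSeries ℂ) : PowerSeries ℂ :=
  PowerSeries.mk fun n => (n : ℂ) * PowerSeries.coeff n f

theorem coeff_th (f : PowerSeries ℂ) (n : ℕ) :
    PowerSeries.coeff n (th f) = (n : ℂ) * PowerSeries.coeff n f := by
  simp [th]

theorem coeff_J (b : Bool) (f : PowerSeries ℂ) (n : ℕ) :
    PowerSeries.coeff n (J b f) = PowerSeries.coeff n (frm b * f) / (n : ℂ) := by
  simp [J]

theorem th_mul (f g : PowerSeries ℂ) : th (f * g) = th f * g + f * th g := by
  ext n
  rw [coeff_th, map_add, PowerSeries.coeff_mul, PowerSeries.coeff_mul, PowerSeries.coeff_mul,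
    Finset.mul_sum, ← Finset.sum_add_distrib]
  refine Finset.sum_congr rfl fun p hp => ?_
  have hp := Finset.HasAntidiagonal.mem_antidiagonal.1 hp
  rw [coeff_th, coeff_th, ← hp]
  push_cast
  ring

theorem th_add (f g : PowerSeries ℂ) : th (f + g) = th f + th g := by
  ext n
  rw [coeff_th, map_add, map_add, coeff_th, coeff_th, mul_add]

theorem th_zero : th 0 = 0 := by
  ext n
  rw [coeff_th]
  simp

theorem coeff_frm_zero (f : PowerSeries ℂ) : PowerSeries.coeff 0 (frm true * f) = 0 := by
  rw [PowerSeries.coeff_mul]
  simp [frm]

theorem th_J (b : Bool) (f : PowerSeries ℂ) (h : b = true ∨ PowerSeries.coeff 0 f = 0) :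
    th (J b f) = frm b * f := by
  ext n
  rw [coeff_th, coeff_J]
  rcases Nat.eq_zero_or_pos n with rfl | hn
  · rcases h with rfl | h
    · rw [coeff_frm_zero]
      simp
    · cases b
      · simp only [frm, one_mul, h]
        simp
      · rw [coeff_frm_zero]
        simp
  · have : (n : ℂ) ≠ 0 := Nat.cast_ne_zero.2 hn.ne'
    field_simp

theorem th_inj {f g : PowerSeries ℂ} (h0 : PowerSeries.coeff 0 f = PowerSeries.coeff 0 g)
    (h : th f = th g) : f = g := by
  ext n
  rcases Nat.eq_zero_or_pos n with rfl | hn
  · exact h0
  · have h1 := congrArg (PowerSeries.coeff n) h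
    rw [coeff_th, coeff_th] at h1
    exact mul_left_cancel₀ (Nat.cast_ne_zero.2 hn.ne') h1

/-- the series of a word -/
noncomputable def P : List Bool → PowerSeries ℂ
  | [] => 1
  | b :: u => J b (P u)

/-- words which do not end with `false` -/
def Good : List Bool → Prop
  | [] => True
  | b :: u => (b = true ∨ u ≠ []) ∧ Good u

theorem P_zero {u : List Bool} (h : u ≠ []) : PowerSeries.coeff 0 (P u) = 0 := by
  match u with
  | [] => exact absurd rfl h
  | b :: u =>
    show PowerSeries.coeff 0 (J b (P u)) = 0
    rw [coeff_J]
    simp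

theorem th_P {b : Bool} {u : List Bool} (h : Good (b :: u)) : th (P (b :: u)) = frm b * P u := by
  refine th_J b (P u) ?_
  rcases h.1 with h1 | h1
  · exact Or.inl h1
  · exact Or.inr (P_zero h1)

theorem sum_map_cons (b : Bool) : ∀ L : List (List Bool), (∀ k ∈ L, Good (b :: k)) →
    th ((L.map fun k => P (b :: k)).sum) = frm b * (L.map P).sum
  | [], _ => by simp [th_zero]
  | k :: L, h => by
    simp only [List.map_cons, List.sum_cons]
    rw [th_add, th_P (h k List.mem_cons_self),
      sum_map_cons b L fun k' hk' => h k' (List.mem_cons_of_mem _ hk'), mul_add]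

theorem sum_zero : ∀ L : List (List Bool), (∀ k ∈ L, k ≠ []) →
    PowerSeries.coeff 0 ((L.map P).sum) = 0
  | [], _ => by simp
  | k :: L, h => by
    simp only [List.map_cons, List.sum_cons]
    rw [map_add, P_zero (h k List.mem_cons_self),
      sum_zero L fun k' hk' => h k' (List.mem_cons_of_mem _ hk'), add_zero]

/-- the shuffle product -/
theorem shuffle : ∀ (n : ℕ) (u v : List Bool), u.length + v.length ≤ n → Good u → Good v →
    ∃ L : List (List Bool), (∀ k ∈ L, Good k ∧ k.length = u.length + v.length) ∧
      P u * P v = (L.map P).sum := by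
  intro n
  induction n with
  | zero =>
    intro u v hn hu hv
    have h1 : u = [] := List.length_eq_zero_iff.1 (by omega)
    have h2 : v = [] := List.length_eq_zero_iff.1 (by omega)
    subst h1 h2
    refine ⟨[[]], fun k hk => ?_, by simp [P]⟩
    rw [List.mem_singleton] at hk
    subst hk
    exact ⟨hu, rfl⟩
  | succ n ih =>
    intro u v hn hu hv
    match u, v with
    | [], v =>
      refine ⟨[v], fun k hk => ?_, by simp [P]⟩
      rw [List.mem_singleton] at hk
      subst hk
      exact ⟨hv, by simp⟩
    | b :: u, [] =>
      refine ⟨[b :: u], fun k hk => ?_, by simp [P]⟩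
      rw [List.mem_singleton] at hk
      subst hk
      exact ⟨hu, by simp⟩
    | b :: u, c :: v =>
      simp only [List.length_cons] at hn
      obtain ⟨L1, h1, e1⟩ := ih u (c :: v) (by simp only [List.length_cons]; omega) hu.2 hv
      obtain ⟨L2, h2, e2⟩ := ih (b :: u) v (by simp only [List.length_cons]; omega) hu hv.2
      have n1 : ∀ k ∈ L1, Good (b :: k) := fun k hk => ⟨Or.inr fun h => by
        have h3 := (h1 k hk).2
        rw [h] at h3
        simp only [List.length_cons, List.length_nil] at h3
        omega, (h1 k hk).1⟩
      have n2 : ∀ k ∈ L2, Good (c :: k) := fun k hk => ⟨Or.inr fun h => by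
        have h3 := (h2 k hk).2
        rw [h] at h3
        simp only [List.length_cons, List.length_nil] at h3
        omega, (h2 k hk).1⟩
      refine ⟨L1.map (b :: ·) ++ L2.map (c :: ·), fun k hk => ?_, ?_⟩
      · rw [List.mem_append] at hk
        rcases hk with hk | hk
        · obtain ⟨k', hk', rfl⟩ := List.mem_map.1 hk
          refine ⟨n1 k' hk', ?_⟩
          have := (h1 k' hk').2
          simp only [List.length_cons] at this ⊢
          omega
        · obtain ⟨k', hk', rfl⟩ := List.mem_map.1 hk
          refine ⟨n2 k' hk', ?_⟩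
          have := (h2 k' hk').2
          simp only [List.length_cons] at this ⊢
          omega
      · have e3 : (((L1.map (b :: ·) ++ L2.map (c :: ·))).map P).sum =
            (L1.map fun k => P (b :: k)).sum + (L2.map fun k => P (c :: k)).sum := by
          rw [List.map_append, List.sum_append, List.map_map, List.map_map]
          rfl
        apply th_inj
        · have h3 : PowerSeries.coeff 0 ((((L1.map (b :: ·) ++ L2.map (c :: ·))).map P).sum) = 0 := by
            refine sum_zero _ fun k hk => ?_
            rw [List.mem_append] at hk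
            rcases hk with hk | hk
            · obtain ⟨k', hk', rfl⟩ := List.mem_map.1 hk
              simp
            · obtain ⟨k', hk', rfl⟩ := List.mem_map.1 hk
              simp
          have h4 : PowerSeries.coeff 0 (P (b :: u) * P (c :: v)) =
              PowerSeries.coeff 0 (P (b :: u)) * PowerSeries.coeff 0 (P (c :: v)) := by
            simp [PowerSeries.coeff_mul]
          rw [h3, h4, P_zero (by simp), zero_mul]
        · rw [e3, th_add, sum_map_cons b L1 n1, sum_map_cons c L2 n2, ← e1, ← e2, th_mul, th_P hu,
            th_P hv]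
          ring

end Pool.Agent.V8H82.MZ
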