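import Pool.Agent.V8H82.MZ.Conv
import Pool.Agent.V8H82.MZ.Kneser

/-!
# The spaces of cyclotomic multiple zeta values
-/

set_option autoImplicit false

namespace Pool.Agent.V8H82.MZ

open Filter Topology Module
open scoped Pointwise

/-- the field of the algebraic numbers -/
noncomputable abbrev KK : IntermediateField ℚ ℂ := algebraicClosure ℚ ℂ

instance instKK : IsAlgClosed KK := (algebraicClosure.isAlgClosure ℚ ℂ).isAlgClosed

theorem tsm_tendsto {N : ℕ} (hN : 1 ≤ N) {u : ℕ} : ∀ L : List (List (ℕ × ℂ)),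
    (∀ k ∈ L, Admissible N k ∧ weight k = u) → ∃ z ∈ ZZ N u, Tendsto (tsm L) atTop (𝓝 z)
  | [], _ => ⟨0, (ZZ N u).zero_mem, by
      have : tsm [] = fun _ => 0 := by
        funext m
        simp [tsm]
      rw [this]
      exact tendsto_const_nhds⟩
  | k :: L, h => by
    obtain ⟨z, hz, hz'⟩ := tsm_tendsto hN L fun k' hk' => h k' (List.mem_cons_of_mem _ hk')
    have hk := h k List.mem_cons_self
    obtain ⟨y, hy⟩ := conv_adm hN hk.1
    refine ⟨y + z, (ZZ N u).add_mem (Submodule.subset_span ⟨k, hk.1, hk.2, hy⟩) hz, ?_⟩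
    refine (hy.add hz').congr fun m => ?_
    simp [tsm]

theorem ZZ_mul {N v w : ℕ} (hN : 1 ≤ N) : ZZ N v * ZZ N w ≤ ZZ N (v + w) := by
  conv_lhs => unfold ZZ
  rw [Submodule.span_mul_span, Submodule.span_le]
  rintro _ ⟨x, ⟨l, hl, hv, hx⟩, y, ⟨l', hl', hw, hy⟩, rfl⟩
  obtain ⟨L, hL, e⟩ := stuffle_adm hl hv hl' hw
  have h1 : Tendsto (tsm L) atTop (𝓝 (x * y)) := (hx.mul hy).congr e
  obtain ⟨z, hz, hz'⟩ := tsm_tendsto hN L hL
  have h2 := tendsto_nhds_unique h1 hz'
  show x * y ∈ ZZ N (v + w)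
  rw [h2]
  exact hz

/-- the words of given weight and level are finitely many -/
theorem words_finite {N : ℕ} (hN : 1 ≤ N) (w : ℕ) : {l : List (ℕ × ℂ) | Wd N w l}.Finite := by
  classical
  have hroots : {z : ℂ | z ^ N = 1}.Finite := by
    refine ((Polynomial.nthRoots N (1 : ℂ)).toFinset.finite_toSet).subset fun z hz => ?_
    simp only [Finset.mem_coe, Multiset.mem_toFinset]
    rw [Polynomial.mem_nthRoots (by omega)]
    exact hz
  let F : Set (ℕ × ℂ) := Set.Icc 0 w ×ˢ {z : ℂ | z ^ N = 1}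
  have hF : F.Finite := (Set.finite_Icc 0 w).prod hroots
  have : Finite F := hF
  have h1 : {l : List F | l.length ≤ w}.Finite := List.finite_length_le F w
  refine (h1.image (List.map Subtype.val)).subset ?_
  intro l hl
  have h2 : ∀ (l : List (ℕ × ℂ)), (∀ x ∈ l, 1 ≤ x.1 ∧ x.2 ^ N = 1) →
      l.length ≤ weight l ∧ ∀ x ∈ l, x.1 ≤ weight l := by
    intro l
    induction l with
    | nil => simp [weight]
    | cons y l ih =>
      intro h
      have h3 := ih fun x hx => h x (List.mem_cons_of_mem _ hx)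
      have h4 := (h y List.mem_cons_self).1
      rw [weight_cons, List.length_cons]
      refine ⟨by omega, fun x hx => ?_⟩
      rcases List.mem_cons.1 hx with rfl | hx
      · omega
      · have := h3.2 x hx
        omega
  have h5 := h2 l hl.1
  rw [hl.2] at h5
  have h6 : ∀ x ∈ l, x ∈ F := fun x hx => ⟨⟨Nat.zero_le _, h5.2 x hx⟩, (hl.1 x hx).2⟩
  refine ⟨l.attach.map fun x => ⟨x.1, h6 x.1 x.2⟩, ?_, ?_⟩
  · show (l.attach.map fun x => (⟨x.1, h6 x.1 x.2⟩ : F)).length ≤ w
    rw [List.length_map, List.length_attach]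
    exact h5.1
  · rw [List.map_map]
    exact List.attach_map_subtype_val l

theorem ZZ_finite {N : ℕ} (hN : 1 ≤ N) (w : ℕ) : FiniteDimensional ℚ (ZZ N w) := by
  have h1 : {x : ℂ | ∃ l, Admissible N l ∧ weight l = w ∧ IsLi l x}.Finite := by
    refine ((words_finite hN w).image fun l => limUnder atTop (trunc l)).subset ?_
    rintro x ⟨l, hl, hw, hx⟩
    exact ⟨l, ⟨hl.1, hw⟩, hx.limUnder_eq⟩
  exact FiniteDimensional.span_of_finite ℚ h1

theorem span_basis (V : Submodule ℚ ℂ) [FiniteDimensional ℚ V] :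
    Submodule.span KK (V : Set ℂ) =
      Submodule.span KK (Set.range fun i => ((Module.finBasis ℚ V i : V) : ℂ)) := by
  apply le_antisymm
  · rw [Submodule.span_le]
    intro x hx
    have h1 : x = ∑ i, (Module.finBasis ℚ V).repr ⟨x, hx⟩ i • ((Module.finBasis ℚ V i : V) : ℂ) := by
      have := congrArg Subtype.val ((Module.finBasis ℚ V).sum_repr ⟨x, hx⟩)
      rw [Submodule.coe_sum] at this
      exact this.symm
    rw [h1]
    refine Submodule.sum_mem _ fun i _ => ?_
    exact Submodule.smul_of_tower_mem _ _ (Submodule.subset_span ⟨i, rfl⟩)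
  · rw [Submodule.span_le]
    rintro _ ⟨i, rfl⟩
    exact Submodule.subset_span (Module.finBasis ℚ V i).2

theorem span_finite (V : Submodule ℚ ℂ) [FiniteDimensional ℚ V] :
    FiniteDimensional KK (Submodule.span KK (V : Set ℂ)) := by
  rw [span_basis]
  exact FiniteDimensional.span_of_finite KK (Set.finite_range _)

theorem dimAlg_le (V : Submodule ℚ ℂ) [FiniteDimensional ℚ V] : dimAlg V ≤ finrank ℚ V := by
  unfold dimAlg
  have h1 := span_basis V
  have h2 : finrank KK (Submodule.span KK (V : Set ℂ)) =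
      finrank KK (Submodule.span KK (Set.range fun i => ((Module.finBasis ℚ V i : V) : ℂ))) := by
    rw [h1]
  have h3 := finrank_range_le_card (R := KK) fun i => ((Module.finBasis ℚ V i : V) : ℂ)
  rw [Fintype.card_fin] at h3
  exact h2.le.trans h3

/-- superadditivity, for three spaces with `V W ⊆ U` -/
theorem super (V W U : Submodule ℚ ℂ) [FiniteDimensional ℚ V] [FiniteDimensional ℚ W]
    [FiniteDimensional ℚ U] (hV : V ≠ ⊥) (hW : W ≠ ⊥) (h : V * W ≤ U) :
    dimAlg V + dimAlg W ≤ dimAlg U + 1 := by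
  have i1 := span_finite V
  have i2 := span_finite W
  have i3 := span_finite U
  have n1 : ∀ V : Submodule ℚ ℂ, V ≠ ⊥ → Submodule.span KK (V : Set ℂ) ≠ ⊥ := by
    intro V hV h
    obtain ⟨x, hx, hx0⟩ := Submodule.exists_mem_ne_zero_of_ne_bot hV
    have : x ∈ Submodule.span KK (V : Set ℂ) := Submodule.subset_span hx
    rw [h] at this
    exact hx0 ((Submodule.mem_bot _).1 this)
  have h1 := kneser (Submodule.span KK (V : Set ℂ)) (Submodule.span KK (W : Set ℂ)) (n1 V hV)
    (n1 W hW)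
  have h2 : Submodule.span KK (V : Set ℂ) * Submodule.span KK (W : Set ℂ) ≤
      Submodule.span KK (U : Set ℂ) := by
    rw [Submodule.span_mul_span]
    refine Submodule.span_mono ?_
    rintro _ ⟨x, hx, y, hy, rfl⟩
    exact h (Submodule.mul_mem_mul hx hy)
  have h3 := Submodule.finrank_mono h2
  have h4 : finrank KK (Submodule.span KK (V : Set ℂ)) + finrank KK (Submodule.span KK (W : Set ℂ)) ≤
      finrank KK (Submodule.span KK (U : Set ℂ)) + 1 := h1.trans (Nat.add_le_add_right h3 1)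
  exact h4

end Pool.Agent.V8H82.MZ
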