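import Pool.Agent.V8H82.MZ.Growth

/-!
# Alternating sums of weight two, the dichotomy for multiple Clausen values, weight one
-/

set_option autoImplicit false

namespace Pool.Agent.V8H82.MZ

open Filter Topology Module
open scoped Pointwise

theorem zeta2 : IsLi [(2, 1)] ((Real.pi ^ 2 / 6 : ℝ) : ℂ) := by
  have h1 := (hasSum_zeta_two.tendsto_sum_nat).comp (tendsto_add_atTop_nat 1)
  have h2 := (Complex.continuous_ofReal.tendsto _).comp h1
  refine h2.congr fun m => ?_
  simp only [Function.comp_apply]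
  rw [Finset.sum_range_succ']
  simp [trunc]

theorem zeta2_mem : ((Real.pi ^ 2 / 6 : ℝ) : ℂ) ∈ ZZ 2 2 := by
  refine Submodule.subset_span ⟨[(2, 1)], ⟨fun x hx => ?_, _, _, rfl, fun hc => ?_⟩, by simp [weight],
    zeta2⟩
  · rw [List.mem_singleton] at hx
    subst hx
    exact ⟨by norm_num, by norm_num⟩
  · have := congrArg Prod.fst hc
    simp at this

theorem log2_mem : ((Real.log 2 : ℝ) : ℂ) ∈ ZZ 2 1 := by
  have h1 := log_mem (N := 2) (z := -1) (by norm_num) (by norm_num) (by norm_num)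
  have h2 := (ZZ 2 1).neg_mem h1
  rw [neg_neg] at h2
  have h3 : (1 - (-1) : ℂ) = ((2 : ℝ) : ℂ) := by
    push_cast
    norm_num
  rw [h3, ← Complex.ofReal_log (by norm_num)] at h2
  exact h2

theorem alg_I : IsAlgebraic ℚ Complex.I := by
  refine IsAlgebraic.of_pow (n := 2) (by norm_num) ?_
  rw [Complex.I_sq]
  exact (isAlgebraic_one).neg

/-- the quotient of `π` and `log 2` is transcendental -/
theorem pi_log {z : ℂ} (hz : IsAlgebraic ℚ z) : (Real.pi : ℂ) ≠ z * (Real.log 2 : ℝ) := by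
  intro h
  have hl : Real.log 2 ≠ 0 := (Real.log_pos (by norm_num)).ne'
  have h1 := Pool.Agent.H297R2.baker (ι := Fin 2) ![Real.pi * Complex.I, (Real.log 2 : ℝ)]
    (fun i => by
      fin_cases i
      · show IsAlgebraic ℚ (Complex.exp (Real.pi * Complex.I))
        rw [Complex.exp_pi_mul_I]
        exact (isAlgebraic_one).neg
      · show IsAlgebraic ℚ (Complex.exp ((Real.log 2 : ℝ) : ℂ))
        rw [← Complex.ofReal_exp, Real.exp_log (by norm_num)]
        have : ((2 : ℝ) : ℂ) = algebraMap ℚ ℂ 2 := by simp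
        rw [this]
        exact isAlgebraic_algebraMap _)
    (by
      rw [LinearIndependent.pair_iff]
      intro s t hst
      clear h
      generalize Real.log 2 = L at hst hl
      have h2 := congrArg Complex.re hst
      have h3 := congrArg Complex.im hst
      simp [Algebra.smul_def] at h2 h3
      refine ⟨?_, ?_⟩
      · exact h3
      · rcases h2 with h2 | h2
        · exact_mod_cast h2
        · exact absurd h2 hl)
    ![1, -(Complex.I * z)]
    (fun i => by
      fin_cases i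
      · exact isAlgebraic_one
      · exact (alg_I.mul hz).neg)
    (by
      rw [Fin.sum_univ_two]
      simp only [Matrix.cons_val_zero, Matrix.cons_val_one]
      rw [h]
      ring) 0
  simp at h1

theorem two_le : 2 ≤ dimAlg (ZZ 2 2) := by
  have i1 := ZZ_finite (N := 2) (by norm_num) 2
  have i2 := span_finite (ZZ 2 2)
  have hl : ((Real.log 2 : ℝ) : ℂ) ≠ 0 := by
    have := (Real.log_pos (show (1 : ℝ) < 2 by norm_num)).ne'
    exact_mod_cast this
  have h1 : LinearIndependent KK ![((Real.log 2 : ℝ) : ℂ) ^ 2, ((Real.pi ^ 2 / 6 : ℝ) : ℂ)] := by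
    rw [LinearIndependent.pair_iff]
    intro s t hst
    rw [Algebra.smul_def, Algebra.smul_def] at hst
    have hst' : (s : ℂ) * ((Real.log 2 : ℝ) : ℂ) ^ 2 + (t : ℂ) * ((Real.pi : ℂ) ^ 2 / 6) = 0 := by
      have h0 : ((Real.pi ^ 2 / 6 : ℝ) : ℂ) = (Real.pi : ℂ) ^ 2 / 6 := by push_cast; ring
      rw [h0] at hst
      exact hst
    have ht : t = 0 := by
      by_contra ht
      have ht' : (t : ℂ) ≠ 0 := fun h => ht (Subtype.ext h)
      obtain ⟨c, hc⟩ := IsAlgClosed.exists_pow_nat_eq (-(6 * (s : ℂ)) / (t : ℂ)) (n := 2) (by norm_num)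
      have hs := mem_KK.1 s.2
      have ht2 := mem_KK.1 t.2
      have h6 : IsAlgebraic ℚ (6 : ℂ) := by
        have : (6 : ℂ) = algebraMap ℚ ℂ 6 := by simp
        rw [this]
        exact isAlgebraic_algebraMap _
      have hca : IsAlgebraic ℚ c := by
        refine IsAlgebraic.of_pow (n := 2) (by norm_num) ?_
        rw [hc, div_eq_mul_inv]
        exact ((h6.mul hs).neg).mul ht2.inv
      have h2 : (Real.pi : ℂ) ^ 2 = (c * (Real.log 2 : ℝ)) ^ 2 := by
        rw [mul_pow, hc]
        field_simp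
        linear_combination 6 * hst'
      rcases sq_eq_sq_iff_eq_or_eq_neg.1 h2 with h3 | h3
      · exact pi_log hca h3
      · exact pi_log hca.neg (by rw [h3]; ring)
    refine ⟨?_, ht⟩
    rw [ht] at hst'
    have h3 : (s : ℂ) * ((Real.log 2 : ℝ) : ℂ) ^ 2 = 0 := by
      have h4 : (((0 : KK) : ℂ)) = 0 := rfl
      rw [h4] at hst'
      linear_combination hst'
    rcases mul_eq_zero.1 h3 with h4 | h4
    · exact Subtype.ext h4
    · exact absurd h4 (pow_ne_zero 2 hl)
  have h2 := finrank_span_eq_card h1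
  rw [Fintype.card_fin] at h2
  have h3 : Submodule.span KK (Set.range ![((Real.log 2 : ℝ) : ℂ) ^ 2, ((Real.pi ^ 2 / 6 : ℝ) : ℂ)]) ≤
      Submodule.span KK (ZZ 2 2 : Set ℂ) := by
    refine Submodule.span_mono ?_
    rintro _ ⟨i, rfl⟩
    fin_cases i
    · exact pow_mem_ZZ (by norm_num) log2_mem 2 (by norm_num)
    · exact zeta2_mem
  have h4 := Submodule.finrank_mono h3
  rw [h2] at h4
  exact h4

/-- the dichotomy for multiple Clausen values -/
theorem dich {u : ℕ} (hu : 1 ≤ u) (h : dimAlg (CC u) ≤ 1) :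
    ∀ x ∈ CC u, ∃ a : ℂ, IsAlgebraic ℚ a ∧ x = a * (Real.pi : ℂ) ^ u := by
  intro x hx
  have i1 := CC_finite u
  have i2 := span_finite (CC u)
  have hy := pow_mem_CC mem_CC_one u hu
  set y : ℂ := (Real.pi * Complex.I / 3 : ℂ) ^ u with hy'
  have hy0 : y ≠ 0 := pow_ne_zero u piI_ne
  have h1 : finrank KK (Submodule.span KK (CC u : Set ℂ)) ≤ 1 := h
  have hyS : y ∈ Submodule.span KK (CC u : Set ℂ) := Submodule.subset_span hy
  have hxS : x ∈ Submodule.span KK (CC u : Set ℂ) := Submodule.subset_span hx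
  have h2 : finrank KK (Submodule.span KK (CC u : Set ℂ)) = 1 :=
    le_antisymm h1 (dimAlg_pos _ (CC_ne hu))
  have h3 := (finrank_eq_one_iff_of_nonzero'
    (⟨y, hyS⟩ : Submodule.span KK (CC u : Set ℂ))
    (fun h => hy0 (congrArg Subtype.val h))).1 h2 ⟨x, hxS⟩
  obtain ⟨c, hc⟩ := h3
  have h4 : (c : ℂ) * y = x := congrArg Subtype.val hc
  have h3' : IsAlgebraic ℚ (3 : ℂ) := by
    have : (3 : ℂ) = algebraMap ℚ ℂ 3 := by simp
    rw [this]
    exact isAlgebraic_algebraMap _
  refine ⟨c * (Complex.I / 3) ^ u, (mem_KK.1 c.2).mul ?_, ?_⟩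
  · rw [div_eq_mul_inv]
    exact (alg_I.mul h3'.inv).pow u
  · rw [← h4, hy', mul_assoc, ← mul_pow]
    congr 2
    ring

end Pool.Agent.V8H82.MZ
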